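import Pool.Agent.Run7.h442.BA.TD
import Pool.Agent.W475.BK.Inv

/-! Project BA: algebra on the torus. -/

set_option autoImplicit false
set_option linter.unusedSectionVars false

open scoped BigOperators Matrix
open MeasureTheory

namespace Pool.Agent.Run7.h442.BA

open Pool.Agent.W788.BK (PP nsq nsq_nonneg nsq_eq nsq_smul cs_star cs_norm adjoint nsq_eq_zero
  nsq_star)
open Pool.Agent.W788.MFP.Four (T e NN adj e_comm e_add_left e_add e_zero e_neg e_neg_left
  e_normSq sum_e NN_pos card_T ft q)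

variable {d L : ℕ} [NeZero L]

/-- the site vector -/
noncomputable def av (y : T d L) : T d L → ℂ :=
  fun k => (((Real.sqrt (NN d L))⁻¹ : ℝ) : ℂ) * e k y

/-- the value at a site -/
noncomputable def pv (u : T d L → ℂ) (y : T d L) : ℂ := star (av y) ⬝ᵥ u

/-- the potential -/
noncomputable def VM (V : T d L → ℝ) : Matrix (T d L) (T d L) ℂ := ∑ y, (V y : ℂ) • AY y

theorem sq_inv : (((Real.sqrt (NN d L))⁻¹ : ℝ) : ℂ) * (((Real.sqrt (NN d L))⁻¹ : ℝ) : ℂ)
    = (((NN d L)⁻¹ : ℝ) : ℂ) := by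
  rw [← Complex.ofReal_mul, ← mul_inv, Real.mul_self_sqrt NN_pos.le]

theorem e_norm (k x : T d L) : ‖e k x‖ = 1 := by
  have h := e_normSq k x
  rw [Complex.mul_conj, Complex.normSq_eq_norm_sq] at h
  have h2 : ‖e k x‖ ^ 2 = 1 := by exact_mod_cast h
  nlinarith [norm_nonneg (e k x)]

theorem AY_eq (y : T d L) : AY y = Matrix.vecMulVec (av y) (star (av y)) := by
  ext k p
  unfold AY av Matrix.vecMulVec
  rw [Matrix.of_apply, Matrix.of_apply, Pi.star_apply, ← sq_inv, sub_eq_add_neg, e_add_left,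
    e_neg_left, star_mul']
  simp only [RCLike.star_def, Complex.conj_ofReal]
  ring

theorem AY_mulVec (y : T d L) (u : T d L → ℂ) : AY y *ᵥ u = pv u y • av y := by
  rw [AY_eq]
  ext k
  unfold pv Matrix.mulVec Matrix.vecMulVec dotProduct
  simp only [Matrix.of_apply, Pi.smul_apply, smul_eq_mul, Finset.sum_mul]
  exact Finset.sum_congr rfl fun p _ => by ring

theorem VM_mulVec (V : T d L → ℝ) (u : T d L → ℂ) :
    VM V *ᵥ u = ∑ y, ((V y : ℂ) * pv u y) • av y := by
  unfold VM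
  rw [Matrix.sum_mulVec]
  refine Finset.sum_congr rfl fun y _ => ?_
  rw [Matrix.smul_mulVec, AY_mulVec, smul_smul]

theorem star_dot_av (u : T d L → ℂ) (y : T d L) : star u ⬝ᵥ av y = (starRingEnd ℂ) (pv u y) := by
  unfold pv
  have : (starRingEnd ℂ) (star (av y) ⬝ᵥ u) = star (star (av y) ⬝ᵥ u) := rfl
  rw [this, ← Matrix.star_dotProduct_star, star_star, dotProduct_comm]

theorem VM_form (V : T d L → ℝ) (u w : T d L → ℂ) :
    star u ⬝ᵥ (VM V *ᵥ w) = ∑ y, (V y : ℂ) * ((starRingEnd ℂ) (pv u y) * pv w y) := by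
  rw [VM_mulVec, dotProduct_sum]
  refine Finset.sum_congr rfl fun y _ => ?_
  rw [dotProduct_smul, star_dot_av, smul_eq_mul]
  ring

/-- orthogonality of the site vectors -/
theorem sum_av (k p : T d L) : ∑ y, av y k * (starRingEnd ℂ) (av y p) = if k = p then 1 else 0 := by
  have h1 : ∀ y : T d L, av y k * (starRingEnd ℂ) (av y p) = (((NN d L)⁻¹ : ℝ) : ℂ) * e y (k - p) := by
    intro y
    unfold av
    rw [map_mul, Complex.conj_ofReal, ← sq_inv, e_comm y, sub_eq_add_neg, e_add_left, e_neg_left]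
    ring
  simp only [h1]
  rw [← Finset.mul_sum, sum_e]
  have hN : (NN d L : ℂ) ≠ 0 := by exact_mod_cast (NN_pos (d := d) (L := L)).ne'
  by_cases h : k = p
  · rw [if_pos (sub_eq_zero.2 h), if_pos h]
    push_cast
    exact inv_mul_cancel₀ hN
  · rw [if_neg (sub_ne_zero.2 h), if_neg h, mul_zero]

/-- expansion in the site vectors -/
theorem expand (u : T d L → ℂ) (k : T d L) : ∑ y, pv u y * av y k = u k := by
  unfold pv dotProduct
  simp only [Finset.sum_mul]
  rw [Finset.sum_comm]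
  have h1 : ∀ p, ∑ y : T d L, star (av y) p * u p * av y k = u p * (if k = p then 1 else 0) := by
    intro p
    rw [← sum_av k p, Finset.mul_sum]
    refine Finset.sum_congr rfl fun y _ => ?_
    rw [Pi.star_apply, RCLike.star_def]
    ring
  simp only [h1]
  rw [Finset.sum_eq_single k]
  · rw [if_pos rfl, mul_one]
  · intro p _ hp
    rw [if_neg (Ne.symm hp), mul_zero]
  · intro h
    exact absurd (Finset.mem_univ k) h

theorem parseval (u w : T d L → ℂ) :
    ∑ y, (starRingEnd ℂ) (pv u y) * pv w y = star u ⬝ᵥ w := by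
  have h1 : star u ⬝ᵥ w = ∑ k, star (u k) * ∑ y, pv w y * av y k := by
    unfold dotProduct
    refine Finset.sum_congr rfl fun k _ => ?_
    rw [expand, Pi.star_apply]
  rw [h1]
  simp only [Finset.mul_sum]
  rw [Finset.sum_comm]
  refine Finset.sum_congr rfl fun y _ => ?_
  rw [← star_dot_av]
  unfold dotProduct
  rw [Finset.sum_mul]
  exact Finset.sum_congr rfl fun k _ => by rw [Pi.star_apply]; ring

theorem parseval_sq (u : T d L → ℂ) : ∑ y, ‖pv u y‖ ^ 2 = nsq u := by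
  have h := parseval u u
  rw [← nsq_eq] at h
  have h1 : ∀ y, (starRingEnd ℂ) (pv u y) * pv u y = ((‖pv u y‖ ^ 2 : ℝ) : ℂ) := by
    intro y
    rw [mul_comm, Complex.mul_conj, Complex.normSq_eq_norm_sq]
  simp only [h1] at h
  exact_mod_cast h

theorem MX_eq (X : T d L → ℂ) (V : T d L → ℝ) : MX X V = Matrix.diagonal X + VM V := rfl

theorem MX_mulVec (X : T d L → ℂ) (V : T d L → ℝ) (u : T d L → ℂ) (k : T d L) :
    (MX X V *ᵥ u) k = X k * u k + (VM V *ᵥ u) k := by
  rw [MX_eq, Matrix.add_mulVec, Pi.add_apply, Matrix.mulVec_diagonal]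

theorem VM_real (V : T d L → ℝ) (u : T d L → ℂ) :
    star u ⬝ᵥ (VM V *ᵥ u) = ((∑ y, V y * ‖pv u y‖ ^ 2 : ℝ) : ℂ) := by
  rw [VM_form]
  push_cast
  refine Finset.sum_congr rfl fun y _ => ?_
  rw [mul_comm ((starRingEnd ℂ) (pv u y)), Complex.mul_conj, Complex.normSq_eq_norm_sq]
  push_cast
  ring

theorem dot_diag (X : T d L → ℂ) (u : T d L → ℂ) :
    star u ⬝ᵥ (Matrix.diagonal X *ᵥ u) = ∑ k, X k * ((‖u k‖ ^ 2 : ℝ) : ℂ) := by
  unfold dotProduct
  refine Finset.sum_congr rfl fun k _ => ?_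
  rw [Matrix.mulVec_diagonal, Pi.star_apply, RCLike.star_def, ← Complex.normSq_eq_norm_sq,
    ← Complex.mul_conj]
  ring

theorem form_im (X : T d L → ℂ) (V : T d L → ℝ) (u : T d L → ℂ) :
    (star u ⬝ᵥ (MX X V *ᵥ u)).im = ∑ k, (X k).im * ‖u k‖ ^ 2 := by
  rw [MX_eq, Matrix.add_mulVec, dotProduct_add, VM_real, Complex.add_im, Complex.ofReal_im,
    add_zero, dot_diag, Complex.im_sum]
  refine Finset.sum_congr rfl fun k _ => ?_
  rw [Complex.mul_im, Complex.ofReal_im, Complex.ofReal_re]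
  ring

section inv

variable {X : T d L → ℂ} {c : ℝ}

theorem lower (hc : 0 < c) (hX : ∀ k, (X k).im ≤ -c) (V : T d L → ℝ) (u : T d L → ℂ) :
    c ^ 2 * nsq u ≤ nsq (MX X V *ᵥ u) := by
  have h1 : c * nsq u ≤ ‖star u ⬝ᵥ (MX X V *ᵥ u)‖ := by
    have h2 := Complex.abs_im_le_norm (star u ⬝ᵥ (MX X V *ᵥ u))
    rw [form_im] at h2
    have h3 : c * nsq u ≤ -∑ k, (X k).im * ‖u k‖ ^ 2 := by
      unfold nsq
      rw [Finset.mul_sum, ← Finset.sum_neg_distrib]
      refine Finset.sum_le_sum fun k _ => ?_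
      have := hX k
      have h4 := sq_nonneg ‖u k‖
      nlinarith
    exact h3.trans ((neg_le_abs _).trans h2)
  have h5 := cs_star u (MX X V *ᵥ u)
  have h6 := nsq_nonneg u
  rcases h6.eq_or_lt with h | h
  · rw [← h, mul_zero]; exact nsq_nonneg _
  · have h7 : (c * nsq u) ^ 2 ≤ nsq u * nsq (MX X V *ᵥ u) :=
      (pow_le_pow_left₀ (by positivity) h1 2).trans h5
    have h8 : nsq u * (c ^ 2 * nsq u) ≤ nsq u * nsq (MX X V *ᵥ u) := by
      calc nsq u * (c ^ 2 * nsq u) = (c * nsq u) ^ 2 := by ring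
        _ ≤ _ := h7
    exact le_of_mul_le_mul_left h8 h

theorem isUnit_MX (hc : 0 < c) (hX : ∀ k, (X k).im ≤ -c) (V : T d L → ℝ) : IsUnit (MX X V) := by
  rw [← Matrix.mulVec_injective_iff_isUnit]
  intro u w huw
  have h1 : MX X V *ᵥ (u - w) = 0 := by
    rw [Matrix.mulVec_sub]
    exact sub_eq_zero.2 huw
  have h2 := lower hc hX V (u - w)
  rw [h1] at h2
  have h3 : nsq (0 : T d L → ℂ) = 0 := by simp [nsq]
  rw [h3] at h2
  have h5 := nsq_nonneg (u - w)
  have h7 : nsq (u - w) = 0 := by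
    by_contra h
    have h8 : 0 < nsq (u - w) := lt_of_le_of_ne h5 (Ne.symm h)
    have : 0 < c ^ 2 * nsq (u - w) := by positivity
    linarith
  exact sub_eq_zero.1 (nsq_eq_zero _ h7)

theorem mul_GX (hc : 0 < c) (hX : ∀ k, (X k).im ≤ -c) (V : T d L → ℝ) : MX X V * GX X V = 1 :=
  Matrix.mul_nonsing_inv _ ((Matrix.isUnit_iff_isUnit_det _).1 (isUnit_MX hc hX V))

theorem GX_mul (hc : 0 < c) (hX : ∀ k, (X k).im ≤ -c) (V : T d L → ℝ) : GX X V * MX X V = 1 :=
  Matrix.nonsing_inv_mul _ ((Matrix.isUnit_iff_isUnit_det _).1 (isUnit_MX hc hX V))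

theorem GX_bd (hc : 0 < c) (hX : ∀ k, (X k).im ≤ -c) (V : T d L → ℝ) (w : T d L → ℂ) :
    nsq (GX X V *ᵥ w) ≤ (c ^ 2)⁻¹ * nsq w := by
  have h1 := lower hc hX V (GX X V *ᵥ w)
  rw [Matrix.mulVec_mulVec, mul_GX hc hX, Matrix.one_mulVec] at h1
  rw [inv_mul_eq_div, le_div_iff₀ (by positivity)]
  linarith

/-- the Ward identity -/
theorem ward (hc : 0 < c) (hX : ∀ k, (X k).im ≤ -c) (V : T d L → ℝ) (w : T d L → ℂ) :
    (star w ⬝ᵥ (GX X V *ᵥ w)).im = ∑ k, -(X k).im * ‖(GX X V *ᵥ w) k‖ ^ 2 := by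
  set u := GX X V *ᵥ w with hu
  have h1 : MX X V *ᵥ u = w := by
    rw [hu, Matrix.mulVec_mulVec, mul_GX hc hX, Matrix.one_mulVec]
  have h2 := form_im X V u
  rw [h1] at h2
  have h3 : star w ⬝ᵥ u = (starRingEnd ℂ) (star u ⬝ᵥ w) := by
    have : (starRingEnd ℂ) (star u ⬝ᵥ w) = star (star u ⬝ᵥ w) := rfl
    rw [this, ← Matrix.star_dotProduct_star, star_star, dotProduct_comm]
  rw [h3, Complex.conj_im, h2, ← Finset.sum_neg_distrib]
  exact Finset.sum_congr rfl fun k _ => by ring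

/-- changing one variable -/
theorem VM_update (V : T d L → ℝ) (y : T d L) :
    VM V = VM (Function.update V y 0) + (V y : ℂ) • AY y := by
  unfold VM
  rw [← Finset.add_sum_erase _ _ (Finset.mem_univ y),
    ← Finset.add_sum_erase Finset.univ (fun z => ((Function.update V y 0 z : ℝ) : ℂ) • AY z)
      (Finset.mem_univ y), Function.update_self]
  have h1 : ∑ z ∈ Finset.univ.erase y, ((Function.update V y 0 z : ℝ) : ℂ) • AY z =
      ∑ z ∈ Finset.univ.erase y, (V z : ℂ) • AY z := by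
    refine Finset.sum_congr rfl fun z hz => ?_
    rw [Function.update_of_ne (Finset.ne_of_mem_erase hz)]
  rw [h1]
  push_cast
  rw [zero_smul]
  abel

/-- the resolvent identity -/
theorem GX_update (hc : 0 < c) (hX : ∀ k, (X k).im ≤ -c) (V : T d L → ℝ) (y : T d L) :
    GX X V = GX X (Function.update V y 0) -
      (V y : ℂ) • (GX X V * AY y * GX X (Function.update V y 0)) ∧
    GX X V = GX X (Function.update V y 0) -
      (V y : ℂ) • (GX X (Function.update V y 0) * AY y * GX X V) := by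
  obtain ⟨U, hU⟩ : ∃ U, U = Function.update V y 0 := ⟨_, rfl⟩
  have h5 := VM_update V y
  rw [← hU] at h5 ⊢
  have h1 := mul_GX hc hX V
  have h2 := GX_mul hc hX V
  have h3 := mul_GX hc hX U
  have h4 := GX_mul hc hX U
  have hd : (V y : ℂ) • AY y = MX X V - MX X U := by
    rw [MX_eq, MX_eq, h5]
    abel
  constructor
  · have e1 : (V y : ℂ) • (GX X V * AY y * GX X U) = GX X V * ((V y : ℂ) • AY y) * GX X U := by
      rw [mul_smul_comm, smul_mul_assoc]
    rw [e1, hd, mul_sub, sub_mul, h2, one_mul, mul_assoc, h3, mul_one]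
    abel
  · have e1 : (V y : ℂ) • (GX X U * AY y * GX X V) = GX X U * ((V y : ℂ) • AY y) * GX X V := by
      rw [mul_smul_comm, smul_mul_assoc]
    rw [e1, hd, mul_sub, sub_mul, h4, one_mul, mul_assoc, h1, mul_one]
    abel

/-- matrix elements between a site and a vector -/
theorem pv_update (hc : 0 < c) (hX : ∀ k, (X k).im ≤ -c) (V : T d L → ℝ) (x y : T d L)
    (w : T d L → ℂ) :
    pv (GX X V *ᵥ w) x = pv (GX X (Function.update V y 0) *ᵥ w) x -
      V y * (pv (GX X V *ᵥ av y) x * pv (GX X (Function.update V y 0) *ᵥ w) y) ∧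
    pv (GX X V *ᵥ w) x = pv (GX X (Function.update V y 0) *ᵥ w) x -
      V y * (pv (GX X (Function.update V y 0) *ᵥ av y) x * pv (GX X V *ᵥ w) y) := by
  obtain ⟨h1, h2⟩ := GX_update hc hX V y
  constructor
  · have h3 := congrArg (fun M => pv (M *ᵥ w) x) h1
    simp only [Matrix.sub_mulVec, Matrix.smul_mulVec, ← Matrix.mulVec_mulVec, AY_mulVec,
      Matrix.mulVec_smul] at h3
    rw [h3]
    unfold pv
    rw [dotProduct_sub, dotProduct_smul, dotProduct_smul, smul_eq_mul, smul_eq_mul]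
    ring
  · have h3 := congrArg (fun M => pv (M *ᵥ w) x) h2
    simp only [Matrix.sub_mulVec, Matrix.smul_mulVec, ← Matrix.mulVec_mulVec, AY_mulVec,
      Matrix.mulVec_smul] at h3
    rw [h3]
    unfold pv
    rw [dotProduct_sub, dotProduct_smul, dotProduct_smul, smul_eq_mul, smul_eq_mul]
    ring

theorem nsq_av (y : T d L) : nsq (av y) = 1 := by
  unfold nsq av
  have : ∀ k : T d L, ‖(((Real.sqrt (NN d L))⁻¹ : ℝ) : ℂ) * e k y‖ ^ 2 = (NN d L)⁻¹ := by
    intro k
    rw [norm_mul, e_norm, mul_one, Complex.norm_real, Real.norm_eq_abs, sq_abs, inv_pow,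
      Real.sq_sqrt NN_pos.le]
  simp only [this]
  rw [Finset.sum_const, Finset.card_univ, nsmul_eq_mul, card_T]
  exact mul_inv_cancel₀ NN_pos.ne'

theorem pv_norm_le (u : T d L → ℂ) (y : T d L) : ‖pv u y‖ ^ 2 ≤ nsq u := by
  have := cs_star (av y) u
  rw [nsq_av, one_mul] at this
  exact this

end inv

end Pool.Agent.Run7.h442.BA
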