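import Pool.Agent.W788.BK.Stm

/-!
Project BA: definitions on the torus.
-/

set_option autoImplicit false

namespace Pool.Agent.Run7.h442.BA

open MeasureTheory
open Pool.Agent.W788.MFP.Four (T e NN adj)
open Pool.Agent.W788.BK (PP)
open scoped Matrix

noncomputable section

variable {d L : ℕ} [NeZero L]

/-- The projection onto the site `y` of the torus, in the momentum representation. -/
def AY (y : T d L) : Matrix (T d L) (T d L) ℂ :=
  Matrix.of fun k p => (((NN d L)⁻¹ : ℝ) : ℂ) * e (k - p) y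

/-- `X + V` on the torus. -/
def MX (X : T d L → ℂ) (V : T d L → ℝ) : Matrix (T d L) (T d L) ℂ :=
  Matrix.diagonal X + ∑ y, (V y : ℂ) • AY y

/-- The resolvent. -/
def GX (X : T d L → ℂ) (V : T d L → ℝ) : Matrix (T d L) (T d L) ℂ := (MX X V)⁻¹

/-- The mean of the resolvent. -/
def gm (ν : Measure ℝ) (X : T d L → ℂ) (k : T d L) : ℂ := ∫ V, GX X V k k ∂(PP (T d L) ν)

/-- The self-energy. -/
def sm (ν : Measure ℝ) (X : T d L → ℂ) (k : T d L) : ℂ := 1 / gm ν X k - X k

end

end Pool.Agent.Run7.h442.BA
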