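import Pool.Agent.N659.HB.Stm3
import Pool.Agent.Run7.h442.BA.TD

/-!
Project BA (absolutely continuous spectrum below the kinetic scale): definitions and the statements
of the parts.
-/

set_option autoImplicit false

namespace Pool.Agent.Run7.h442.BA

open MeasureTheory Filter Pool.Agent.W792.LL Pool.Agent.W792.WA Pool.Agent.N659.HB
open Pool.Agent.W788.MFP.Four (T e NN adj)
open Pool.Agent.W788.BK (PP nsq)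
open scoped Topology Matrix

noncomputable section

/-! ## A. One level -/

/-- The effective symbol: `1 / (X + S) = ∫ dρ(a) / (x + a + S)`. -/
def xm (ρ : Measure ℝ) (x S : ℂ) : ℂ := 1 / bet ρ (x + S) - S

/-- Contraction of the hyperbolic distance by one level, with an explicit gap. -/
def S_GRAM : Prop :=
  ∃ c : ℝ, 0 < c ∧ c ≤ 1 ∧ ∀ (ψ : C(UnitAddCircle, ℝ)), IsSemi ψ → ∀ (r η D : ℝ) (ρ' : Measure ℝ)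
    [IsProbabilityMeasure ρ'], 0 < r → 0 < η → r ≤ D → η ≤ D →
    ρ' (Set.Icc (-(r / 8)) (r / 8))ᶜ = 0 → ∀ x S₁ S₂ : ℂ, x.im ≤ 0 → S₁.im ≤ -η → S₂.im ≤ -η →
    ‖x + S₁‖ ≤ D → ‖x + S₂‖ ≤ D →
    ‖xm ((lev ψ r).conv ρ') x S₁ - xm ((lev ψ r).conv ρ') x S₂‖ ^ 2 * (S₁.im * S₂.im)
      ≤ (1 - c * (η * r / D ^ 2) ^ 6) * ‖S₁ - S₂‖ ^ 2
        * ((xm ((lev ψ r).conv ρ') x S₁).im * (xm ((lev ψ r).conv ρ') x S₂).im)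

/-- Bounds for the effective symbol of a level which is small compared with the self-energy. -/
def S_XB : Prop :=
  ∀ (ψ : C(UnitAddCircle, ℝ)), IsSemi ψ → ∀ (r η : ℝ) (ρ' : Measure ℝ)
    [IsProbabilityMeasure ρ'], 0 < r → 100 * r ≤ η →
    ρ' (Set.Icc (-(r / 8)) (r / 8))ᶜ = 0 → ∀ x S : ℂ, x.im ≤ 0 → S.im ≤ -η →
    ‖xm ((lev ψ r).conv ρ') x S - (x + ((∫ a, a ∂ρ' : ℝ) : ℂ))‖ ≤ 50 * r ^ 2 / η ∧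
    -x.im + η * r ^ 2 / (16 * ‖x + S‖ ^ 2) ≤ -(xm ((lev ψ r).conv ρ') x S).im ∧
    ∀ x' : ℂ, x'.im ≤ 0 → ‖xm ((lev ψ r).conv ρ') x S - xm ((lev ψ r).conv ρ') x' S‖
      ≤ 4 * (‖x + S‖ * ‖x' + S‖) / η ^ 2 * ‖x - x'‖

/-- Size of a shift of the momentum. -/
def n1 {d : ℕ} (h : Fin d → ℝ) : ℝ := ∑ i, |h i|

/-- Shift of the momentum. -/
def sft {d : ℕ} (h : Fin d → ℝ) (k : UnitAddTorus (Fin d)) : UnitAddTorus (Fin d) :=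
  fun i => k i + ((h i : ℝ) : UnitAddCircle)

/-- The effective phase commutes with shifts of the momentum. -/
def S_SHF : Prop :=
  ∀ (ν : Measure ℝ) [IsProbabilityMeasure ν] (d : ℕ) (m m' : C(UnitAddTorus (Fin d), ℂ))
    (h : Fin d → ℝ), ‖m‖ < 1 → (∀ k, m' k = m (sft h k)) → ∀ k, psi ν m' k = psi ν m (sft h k)

/-- Lipschitz continuity with respect to the hyperbolic distance of the disc. -/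
def HL {d : ℕ} (Λ h₀ : ℝ) (s : C(UnitAddTorus (Fin d), ℂ)) : Prop :=
  ∀ h : Fin d → ℝ, n1 h ≤ h₀ → ∀ k, ‖s (sft h k) - s k‖ ^ 2
    ≤ (Λ * n1 h) ^ 2 * ((1 - ‖s (sft h k)‖ ^ 2) * (1 - ‖s k‖ ^ 2))

/-- The gap. -/
def gz (c η r D : ℝ) : ℝ := c * (η * r / D ^ 2) ^ 6

/-- The Lipschitz constant. -/
def Lz (c η r D CK : ℝ) : ℝ := 256 * D ^ 4 * CK / (η ^ 3 * r ^ 2 * gz c η r D)

/-- The range of the shifts. -/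
def hz (c η r D CK : ℝ) : ℝ := gz c η r D / (8 * Lz c η r D CK)

/-- Invariance of the Lipschitz condition. -/
def S_LIPZ : Prop :=
  ∃ c : ℝ, 0 < c ∧ c ≤ 1 ∧ ∀ (ψ : C(UnitAddCircle, ℝ)), IsSemi ψ → ∀ (ν : Measure ℝ)
    [IsProbabilityMeasure ν] (d : ℕ) (K : C(UnitAddTorus (Fin d), ℝ)) (r η R D CK : ℝ)
    (ρ' : Measure ℝ) [IsProbabilityMeasure ρ'], 0 < r → 100 * r ≤ η → η ≤ R → R ≤ 1 → 1 ≤ D →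
    1 ≤ CK → ρ' (Set.Icc (-(r / 8)) (r / 8))ᶜ = 0 →
    (∀ (h : Fin d → ℝ) k, |K (sft h k) - K k| ≤ CK * n1 h) → ∀ z : ℂ, 0 < z.im →
    (∀ k, ‖(K k : ℂ) - z‖ + R ≤ D) →
    ∀ S : C(UnitAddTorus (Fin d), ℂ), (∀ k, ‖S k‖ ≤ R ∧ (S k).im ≤ -η) →
    ∀ s : C(UnitAddTorus (Fin d), ℂ), (∀ k, s k = cayx (S k) 0) →
      HL (Lz c η r D CK) (hz c η r D CK) s →
    (∀ (h : Fin d → ℝ) k, n1 h ≤ hz c η r D CK →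
      ‖xm ((lev ψ r).conv ρ') ((K (sft h k) : ℂ) - z) (S (sft h k))
        - xm ((lev ψ r).conv ρ') ((K k : ℂ) - z) (S k)‖ ≤ 4 * D * Lz c η r D CK * n1 h) ∧
    HL (Lz c η r D CK) (hz c η r D CK) (psi ν (UU ((lev ψ r).conv ρ') (wz K z) s))

/-! ## B. From the lattice to the torus -/

/-- Approximation by trigonometric polynomials. -/
def S_APX : Prop :=
  ∀ (d : ℕ) (m : C(UnitAddTorus (Fin d), ℂ)) (q Λ : ℝ) (n : ℕ), 1 ≤ n → ‖m‖ ≤ q → 0 ≤ Λ →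
    (∀ (h : Fin d → ℝ) k, ‖m (sft h k) - m k‖ ≤ Λ * n1 h) →
    ∃ f : (Fin d → ℤ) →₀ ℂ, (∀ x ∈ f.support, ∀ i, |x i| ≤ n) ∧ ‖trig f‖ ≤ q ∧
      ‖m - trig f‖ ≤ d * Λ / Real.sqrt n

variable {d L : ℕ} [NeZero L]

/-- The diagonal operator with entries `cay (V y)`, in the momentum representation. -/
def CL (V : T d L → ℝ) : Matrix (T d L) (T d L) ℂ := ∑ y, cay (V y) • AY y

/-- The averaged resolvent on the torus. -/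
def csL (ν : Measure ℝ) (m : T d L → ℂ) (k : T d L) : ℂ :=
  ∫ V, (CL V * (1 - Matrix.diagonal m * CL V)⁻¹) k k ∂(PP (T d L) ν)

/-- The effective phase on the torus. -/
def psL (ν : Measure ℝ) (m : T d L → ℂ) (k : T d L) : ℂ :=
  csL ν m k / (1 + m k * csL ν m k)

/-- The values of a symbol at the momenta `k₀ + j / L`. -/
def fib (m : UnitAddTorus (Fin d) → ℂ) (k₀ : UnitAddTorus (Fin d)) (j : T d L) : ℂ :=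
  m fun i => k₀ i + ZMod.toAddCircle (j i)

/-- Lattice and torus, symbols of finite range. -/
def S_PER : Prop :=
  ∀ (d L : ℕ) [NeZero L] (ν : Measure ℝ) [IsProbabilityMeasure ν] (f : (Fin d → ℤ) →₀ ℂ) (q : ℝ)
    (n J : ℕ) (k₀ : UnitAddTorus (Fin d)) (j : T d L), (∀ x ∈ f.support, ∀ i, |x i| ≤ n) →
    ‖trig f‖ ≤ q → q < 1 → 2 * n * (J + 1) < L →
    ‖csym ν (trig f) (fun i => k₀ i + ZMod.toAddCircle (j i)) - csL ν (fib (trig f) k₀) j‖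
      ≤ 2 * q ^ (J + 1) / (1 - q)

/-- Bounds on the torus. -/
def S_CSL : Prop :=
  ∀ (d L : ℕ) [NeZero L] (ν : Measure ℝ) [IsProbabilityMeasure ν] (m m' : T d L → ℂ) (q e₀ : ℝ),
    0 ≤ q → q < 1 → (∀ k, ‖m k‖ ≤ q) → (∀ k, ‖m' k‖ ≤ q) → (∀ k, ‖m k - m' k‖ ≤ e₀) →
    (∀ k, ‖csL ν m k‖ ≤ 1 / (1 - q)) ∧ (∀ k, ‖csL ν m k - csL ν m' k‖ ≤ e₀ / (1 - q) ^ 2) ∧
    (∀ k, ‖psL ν m k‖ ≤ 1) ∧ ∀ k, 1 / 2 ≤ ‖1 + m k * csL ν m k‖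

/-- Lattice and torus, Lipschitz symbols. -/
def S_TRA : Prop :=
  ∀ d : ℕ, ∃ (C : ℝ) (p : ℕ), 0 < C ∧ ∀ (L : ℕ) [NeZero L] (ν : Measure ℝ)
    [IsProbabilityMeasure ν] (m : C(UnitAddTorus (Fin d), ℂ)) (q Λ τ : ℝ)
    (k₀ : UnitAddTorus (Fin d)) (j : T d L), 0 ≤ q → q < 1 → ‖m‖ ≤ q → 0 ≤ Λ → 0 < τ → τ ≤ 1 →
    (∀ (h : Fin d → ℝ) k, ‖m (sft h k) - m k‖ ≤ Λ * n1 h) →
    C * ((1 + Λ) / (τ * (1 - q))) ^ p ≤ L →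
    ‖psi ν m (fun i => k₀ i + ZMod.toAddCircle (j i)) - psL ν (fib m k₀) j‖ ≤ τ

/-- Phases and self-energies on the torus. -/
def S_CYL : Prop :=
  ∀ (d L : ℕ) [NeZero L] (ν : Measure ℝ) [IsProbabilityMeasure ν] (X : T d L → ℂ) (c : ℝ),
    0 < c → (∀ k, (X k).im ≤ -c) → ∀ k, gm ν X k ≠ 0 ∧ (sm ν X k).im ≤ 0 ∧
      psL ν (fun p => cayx (X p) 0) k = cayx (sm ν X k) 0

/-! ## C. The torus -/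

/-- The density of states of the discrete torus is positive inside the band. -/
def S_CNTL : Prop :=
  ∀ (d : ℕ) (a₁ a₂ : ℝ), 0 < d → 0 < a₁ → a₂ < 4 * d → ∃ c C : ℝ, 0 < c ∧ 0 < C ∧
    ∀ (L : ℕ) [NeZero L] (E t : ℝ), a₁ ≤ E → E ≤ a₂ → C / L ≤ t → t ≤ 1 →
    c * t * NN d L ≤ ((Finset.univ.filter fun k : T d L => |2 * d - adj k - E| ≤ t).card : ℝ)

/-- The self-consistent equation. -/
def S_DET : Prop :=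
  ∀ c₀ C₀ : ℝ, 0 < c₀ → 0 < C₀ → ∃ c₁ c₂ : ℝ, 0 < c₁ ∧ 0 < c₂ ∧ ∀ (ι : Type) [Fintype ι] [Nonempty ι]
    (K : ι → ℝ) (X Sg : ι → ℂ) (y v2 eX D₀ A S ζ₁ ℓ : ℝ) (gb : ℂ), 0 ≤ y → y ≤ 1 → 0 < v2 →
    v2 ≤ 1 → 0 < eX → eX ≤ c₂ → 0 ≤ D₀ → 4 * D₀ ≤ eX → 0 < A → 0 < S → 1 ≤ ℓ →
    (∀ k, ‖X k - ((K k : ℂ) - y * Complex.I)‖ ≤ eX) → (∀ k, y ≤ -(X k).im) →
    (∀ k, A / (|K k| + S) ^ 2 ≤ -(X k).im) → (∀ k, (Sg k).im ≤ 0) →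
    (Fintype.card ι : ℂ) * gb = ∑ k, 1 / (X k + Sg k) → (∀ k, ‖Sg k + v2 * gb‖ ≤ D₀) →
    v2 * ‖gb‖ ≤ ζ₁ → ζ₁ ≤ c₂ →
    (∀ ζ t : ℝ, |ζ| ≤ ζ₁ → eX ≤ t → t ≤ 1 →
      c₀ * t * Fintype.card ι ≤ ((Finset.univ.filter fun k => |K k - ζ| ≤ t).card : ℝ)) →
    (∀ ζ t : ℝ, eX ≤ t → ((Finset.univ.filter fun k => |K k - ζ| ≤ t).card : ℝ)
      ≤ C₀ * t * Fintype.card ι) →
    (∀ ζ : ℝ, ∑ k, 1 / (|K k - ζ| + eX) ≤ ℓ * Fintype.card ι) →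
    v2 * ℓ ≤ c₂ * S → eX ^ 2 * v2 ≤ c₂ * A → eX ≤ c₂ * S →
    eX ^ 2 * S ^ 2 ≤ c₂ * (v2 * A) →
      c₁ ≤ gb.im ∧ ‖gb‖ ≤ ℓ / c₁

/-- The torus theorem. -/
def S_TOR : Prop :=
  ∀ (d : ℕ) (a₁ a₂ γ C₁ s₂ κ : ℝ), 3 ≤ d → 0 < a₁ → a₁ ≤ a₂ → a₂ < 4 * d → 1 ≤ γ → 0 < C₁ →
    0 < s₂ → s₂ ≤ 1 → 1 / 50 ≤ κ → κ < 1 / 28 → ∃ c₁ : ℝ, 0 < c₁ ∧ ∃ u : ℝ, 0 < u ∧ u ≤ κ / 100 ∧
    ∀ CE cA B : ℝ, 0 < CE → 0 < cA → ∃ lam₀ : ℝ, 0 < lam₀ ∧ lam₀ < 1 ∧ ∀ lam : ℝ, 0 < lam →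
      lam ≤ lam₀ → ∀ (L : ℕ) [NeZero L], lam ^ (-20 : ℝ) ≤ L → (L : ℝ) ≤ lam ^ (-B) →
      ∀ (ν : Measure ℝ) [IsProbabilityMeasure ν], (∀ᵐ x ∂ν, |x| ≤ C₁ * lam) → ∫ x, x ∂ν = 0 →
      ∫ x, x ^ 2 ∂ν = s₂ * (C₁ * lam) ^ 2 →
      ∀ (E y : ℝ) (X : T d L → ℂ), a₁ ≤ E → E ≤ a₂ → 0 ≤ y → y ≤ 1 →
      (∀ k, ‖X k - (((γ * (2 * d - adj k - E) : ℝ) : ℂ) - y * Complex.I)‖
        ≤ CE * lam ^ (2 + 2 * κ)) →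
      (∀ k, y ≤ -(X k).im) →
      (∀ k, cA * lam ^ (6 + 2 * κ) / (|γ * (2 * d - adj k - E)| + lam ^ (2 - u)) ^ 2
        ≤ -(X k).im) →
      ∀ k, (sm ν X k).im ≤ -(c₁ * lam ^ 2) ∧ ‖sm ν X k‖ ≤ lam ^ (2 - u) / 2

/-! ## D. The theorem -/

/-- The gap for a first level below the kinetic scale, fixed dimension. -/
def S_GAPP : Prop :=
  ∀ (d : ℕ) (ν : Measure ℝ) [IsProbabilityMeasure ν] (C₀ a₁ a₂ γ κ : ℝ), 3 ≤ d →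
    (∀ᵐ x ∂ν, |x| ≤ C₀) → ∫ x, x ∂ν = 0 → (∀ a : ℝ, ν {a} < 1) → 0 < a₁ → a₁ < a₂ →
    a₂ < 4 * d → γ = 4 * d / (a₂ - a₁) → 1 / 50 ≤ κ → κ < 1 / 28 →
    ∃ lam₀ : ℝ, 0 < lam₀ ∧ lam₀ < 1 ∧ ∀ lam : ℝ, 0 < lam → lam ≤ lam₀ →
    ∀ (ψ : C(UnitAddCircle, ℝ)), IsSemi ψ →
    ∀ [IsProbabilityMeasure (ν.map fun x => (γ * lam) * x)],
    ∃ σ : ℝ, 0 < σ ∧ ∀ (ρ' : Measure ℝ) [IsProbabilityMeasure ρ'],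
      ρ' (Set.Icc (-((γ * (lam ^ (2 + κ) / 2)) / 8)) ((γ * (lam ^ (2 + κ) / 2)) / 8))ᶜ = 0 →
      ∀ z ∈ Zs d, ∀ s, IsFix (ν.map fun x => (γ * lam) * x)
        ((lev ψ (γ * (lam ^ (2 + κ) / 2))).conv ρ')
        (wz (γ • (lap d - ContinuousMap.const _ a₁)) z) s → ‖s‖ ≤ 1 - σ

/-- The theorem below the kinetic scale. -/
def S_BKA : Prop :=
  ∀ (d : ℕ), 3 ≤ d → ∃ Cd : ℝ, 0 < Cd ∧ ∀ (ν : Measure ℝ) [IsProbabilityMeasure ν]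
    (C₀ a₁ a₂ κ : ℝ), (∀ᵐ x ∂ν, |x| ≤ C₀) → (∀ a : ℝ, ν {a} < 1) → 0 < a₁ → a₁ < a₂ →
    a₂ < 4 * d → κ < 1 / 28 →
    ∃ lam₀ : ℝ, 0 < lam₀ ∧ lam₀ < 1 ∧ ∀ lam : ℝ, 0 < lam → lam ≤ lam₀ →
      ∃ b : C(ℝ, ℝ), (∀ t, |b t| ≤ lam ^ (2 + κ)) ∧
      (∀ x : Fin d → ℤ,
        ‖UnitAddTorus.mFourierCoeff (fun k : UnitAddTorus (Fin d) => ((b (lap d k) : ℝ) : ℂ)) x‖
          ≤ Cd * lam ^ (2 + κ) / (1 + ‖x‖) ^ ((d : ℝ) / 3)) ∧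
      ∀ᵐ v ∂(Pn ν (Fin d → ℤ)), ACIK (lap d + gK b d) lam v a₁ a₂

end

end Pool.Agent.Run7.h442.BA
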