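import Pool.Agent.Run7.h442.BA.Gapp
import Pool.Agent.Run7.h442.BA.Fin
import Pool.Agent.Run7.h442.BA.Tor2
import Pool.Agent.Run7.h298.BA_D
import Pool.Agent.Run7.h298.BA_G
import Pool.Agent.Run7.h298.BA_X1
import Pool.Agent.Run7.h225.BA_C2
import Pool.Agent.Run7.h225.BA_C3
import Pool.Agent.Run7.h308.BA_N
import Pool.Agent.Run7.h308.BA_X2
import Pool.Agent.Run7.h308.BA_X3
import Pool.Agent.Run7.h102.BA_A
import Pool.Agent.Run7.h102.BA_P
import Pool.Agent.N659.HB.AllK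

/-!
All parts of the project BA (with pieces by helper298, helper225, helper308 and helper102).
-/

set_option autoImplicit false

namespace Pool.Agent.Run7.h442.BA.Al

open Pool.Agent.W792.LL Pool.Agent.W792.WA Pool.Agent.N659.HB Pool.Agent.Run7.h442.BA

theorem det : S_DET := Pool.Agent.Run7.h298.BAD.main
theorem gram : S_GRAM := Pool.Agent.Run7.h298.BAG.main Pool.Agent.N659.HB.Al.lv
theorem xb : S_XB := Pool.Agent.Run7.h298.BAX1.main Pool.Agent.N659.HB.Al.lv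
theorem cyl : S_CYL := Pool.Agent.Run7.h225.BA_C3.main
theorem cntl : S_CNTL := Pool.Agent.Run7.h308.BAN.main Pool.Agent.N659.HB.Al.d3l
theorem shf : Pool.Agent.Run7.h442.BA.S_SHF :=
  Pool.Agent.Run7.h308.BAX2.main Pool.Agent.W792.WA.Al.symb Pool.Agent.W792.WA.Al.csym
theorem lipz : S_LIPZ := Pool.Agent.Run7.h308.BAX3.main gram xb shf Pool.Agent.W792.WA.Al.psi
  Pool.Agent.N659.HB.Al.ux Pool.Agent.W792.WA.Al.uuc
theorem apx : S_APX := Pool.Agent.Run7.h102.BA_A.main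
theorem per : S_PER :=
  Pool.Agent.Run7.h102.BA_P.main Pool.Agent.W792.WA.Al.symb Pool.Agent.W792.WA.Al.csym
theorem tra : S_TRA := Pool.Agent.Run7.h225.BA_C2.main apx per Pool.Agent.W792.WA.Al.psi
theorem torT : S_TOR := tor det cntl cyl

theorem gap : S_GAPP := gapp torT lipz xb tra cyl Pool.Agent.N659.HB.Al.zr
  Pool.Agent.N659.HB.Al.ux Pool.Agent.W792.WA.Al.cx Pool.Agent.W792.WA.Al.psi
  Pool.Agent.W792.WA.Al.fix Pool.Agent.W792.WA.Al.cay

theorem bkaT : S_BKA := bka gap Pool.Agent.N659.HB.Al.chk Pool.Agent.W792.WA.Al.aeqk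
  Pool.Agent.W792.WA.Al.aff Pool.Agent.W792.WA.Al.cay WSP.main
  (Pool.Agent.W792.WA.Al.exists_lv Pool.Agent.W915.WA.WH.main Pool.Agent.W332.WA.WB.main
    Pool.Agent.W792.WA.Al.wd)

end Pool.Agent.Run7.h442.BA.Al
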