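import Pool.Agent.Run7.h442.BA.Alg
import Pool.Agent.W788.BK.Cont

/-! Project BA: continuity, translation covariance and means on the torus. -/

set_option autoImplicit false
set_option linter.unusedSectionVars false

open scoped BigOperators Matrix
open MeasureTheory

namespace Pool.Agent.Run7.h442.BA

open Pool.Agent.W788.BK (PP nsq nsq_nonneg nsq_eq nsq_smul cs_star cs_norm adjoint nsq_eq_zero
  nsq_star instPP nsq_single)
open Pool.Agent.W475.BK (UU UU_mul UU_mul' UU_inv UUH_inv conj_apply)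
open Pool.Agent.W788.MFP.Four (T e NN adj e_comm e_add_left e_add e_zero e_neg e_neg_left
  e_normSq sum_e NN_pos card_T ft q)

variable {d L : ℕ} [NeZero L]

theorem cont_MX (X : T d L → ℂ) : Continuous fun V : T d L → ℝ => MX X V := by
  unfold MX
  refine continuous_const.add (continuous_finsetSum _ fun y _ => ?_)
  exact (Complex.continuous_ofReal.comp (continuous_apply y)).smul continuous_const

section inv

variable {X : T d L → ℂ} {c : ℝ}

theorem cont_GX (hc : 0 < c) (hX : ∀ k, (X k).im ≤ -c) :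
    Continuous fun V : T d L → ℝ => GX X V := by
  have h1 : Continuous fun V : T d L → ℝ => MX X V := cont_MX X
  unfold GX
  rw [continuous_iff_continuousAt]
  intro V
  simp only [Matrix.inv_def]
  have h2 : (MX X V).det ≠ 0 := by
    have := (Matrix.isUnit_iff_isUnit_det _).1 (isUnit_MX hc hX V)
    exact this.ne_zero
  have h3 : Continuous fun V : T d L → ℝ => (MX X V).det := h1.matrix_det
  have h4 : Continuous fun V : T d L → ℝ => (MX X V).adjugate := h1.matrix_adjugate
  simp only [Ring.inverse_eq_inv']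
  exact (h3.continuousAt.inv₀ h2).smul h4.continuousAt

theorem cont_GX_apply (hc : 0 < c) (hX : ∀ k, (X k).im ≤ -c) (k p : T d L) :
    Continuous fun V : T d L → ℝ => GX X V k p :=
  (cont_GX hc hX).matrix_elem k p

theorem cont_vec (hc : 0 < c) (hX : ∀ k, (X k).im ≤ -c) (w : T d L → ℂ) (k : T d L) :
    Continuous fun V : T d L → ℝ => (GX X V *ᵥ w) k := by
  unfold Matrix.mulVec dotProduct
  exact continuous_finsetSum _ fun p _ => (cont_GX_apply hc hX k p).mul continuous_const

theorem cont_pv (hc : 0 < c) (hX : ∀ k, (X k).im ≤ -c) (w : T d L → ℂ) (x : T d L) :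
    Continuous fun V : T d L → ℝ => pv (GX X V *ᵥ w) x := by
  unfold pv
  simp only [dotProduct]
  exact continuous_finsetSum _ fun p _ => continuous_const.mul (cont_vec hc hX w p)

theorem cont_upd (y : T d L) (s : ℝ) : Continuous fun V : T d L → ℝ => Function.update V y s :=
  continuous_id.update y continuous_const

theorem nsq_apply_le (u : T d L → ℂ) (k : T d L) : ‖u k‖ ^ 2 ≤ nsq u := by
  unfold nsq
  exact Finset.single_le_sum (f := fun k => ‖u k‖ ^ 2) (fun p _ => sq_nonneg ‖u p‖)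
    (Finset.mem_univ k)

theorem GX_sqrt (hc : 0 < c) (hX : ∀ k, (X k).im ≤ -c) (V : T d L → ℝ) (w : T d L → ℂ) :
    Real.sqrt (nsq (GX X V *ᵥ w)) ≤ c⁻¹ * Real.sqrt (nsq w) := by
  have h1 := Real.sqrt_le_sqrt (GX_bd hc hX V w)
  rwa [Real.sqrt_mul (by positivity), Real.sqrt_inv, Real.sqrt_sq hc.le] at h1

theorem vec_bd (hc : 0 < c) (hX : ∀ k, (X k).im ≤ -c) (V : T d L → ℝ) (w : T d L → ℂ)
    (k : T d L) : ‖(GX X V *ᵥ w) k‖ ≤ c⁻¹ * Real.sqrt (nsq w) :=
  (Real.le_sqrt_of_sq_le (nsq_apply_le _ k)).trans (GX_sqrt hc hX V w)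

theorem pv_bd (hc : 0 < c) (hX : ∀ k, (X k).im ≤ -c) (V : T d L → ℝ) (w : T d L → ℂ)
    (x : T d L) : ‖pv (GX X V *ᵥ w) x‖ ≤ c⁻¹ * Real.sqrt (nsq w) :=
  (Real.le_sqrt_of_sq_le (pv_norm_le _ x)).trans (GX_sqrt hc hX V w)

theorem mulVec_single_one (M : Matrix (T d L) (T d L) ℂ) (k p : T d L) :
    (M *ᵥ Pi.single p 1) k = M k p := by
  rw [Matrix.mulVec_single]
  simp

theorem entry_bd (hc : 0 < c) (hX : ∀ k, (X k).im ≤ -c) (V : T d L → ℝ) (k p : T d L) :
    ‖GX X V k p‖ ≤ c⁻¹ := by
  have h := vec_bd hc hX V (Pi.single p 1) k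
  rw [mulVec_single_one, nsq_single, Real.sqrt_one, mul_one] at h
  exact h

theorem integrable_entry (hc : 0 < c) (hX : ∀ k, (X k).im ≤ -c) (ν : Measure ℝ)
    [IsProbabilityMeasure ν] (k p : T d L) :
    Integrable (fun V => GX X V k p) (PP (T d L) ν) :=
  Integrable.of_bound (C := c⁻¹) (cont_GX_apply hc hX k p).aestronglyMeasurable
    (Filter.Eventually.of_forall fun V => entry_bd hc hX V k p)

end inv

/-! ### covariance -/

theorem MX_shift (X : T d L → ℂ) (V : T d L → ℝ) (z : T d L) :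
    MX X (fun y => V (y - z)) = UU z * MX X V * (UU z)ᴴ := by
  ext k p
  rw [conj_apply]
  unfold MX
  rw [Matrix.add_apply, Matrix.add_apply, mul_add]
  congr 1
  · rcases eq_or_ne k p with h | h
    · subst h
      rw [sub_self]
      have : e (0 : T d L) z = 1 := by rw [e_comm, e_zero]
      rw [this, one_mul]
    · rw [Matrix.diagonal_apply_ne _ h, mul_zero]
  · rw [Matrix.sum_apply, Matrix.sum_apply, Finset.mul_sum]
    rw [← Equiv.sum_comp (Equiv.addRight z)]
    refine Finset.sum_congr rfl fun y _ => ?_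
    have h0 : (Equiv.addRight z) y = y + z := rfl
    rw [h0, Matrix.smul_apply, Matrix.smul_apply, smul_eq_mul, smul_eq_mul]
    show ((V (y + z - z) : ℝ) : ℂ) * _ = _
    rw [add_sub_cancel_right]
    unfold AY
    rw [Matrix.of_apply, Matrix.of_apply, e_add]
    ring

theorem GX_shift (X : T d L → ℂ) (V : T d L → ℝ) (z k p : T d L) :
    GX X (fun y => V (y - z)) k p = e (k - p) z * GX X V k p := by
  rw [← conj_apply]
  unfold GX
  rw [MX_shift, Matrix.mul_inv_rev, Matrix.mul_inv_rev, UU_inv, UUH_inv, mul_assoc]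

theorem int_off (X : T d L → ℂ) (ν : Measure ℝ) [IsProbabilityMeasure ν] (k p : T d L)
    (hkp : k ≠ p) : ∫ V, GX X V k p ∂(PP (T d L) ν) = 0 := by
  have hinv : ∀ z : T d L, ∫ V, GX X V k p ∂(PP (T d L) ν) =
      e (k - p) z * ∫ V, GX X V k p ∂(PP (T d L) ν) := by
    intro z
    have h1 := (measurePreserving_piCongrLeft (fun _ : T d L => ν) (Equiv.addRight z)).integral_comp'
      (fun V : T d L → ℝ => GX X V k p)
    have h2 : ∀ V : T d L → ℝ, (MeasurableEquiv.piCongrLeft (fun _ : T d L => ℝ)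
        (Equiv.addRight z)) V = fun y => V (y - z) := by
      intro V
      funext y
      have h3 := Equiv.piCongrLeft_apply_apply (fun _ : T d L => ℝ) (Equiv.addRight z) V (y - z)
      have h4 : (Equiv.addRight z) (y - z) = y := sub_add_cancel y z
      rw [h4] at h3
      exact h3
    simp only [h2, GX_shift] at h1
    rw [integral_const_mul] at h1
    exact h1.symm
  have hsum : ∑ z : T d L, ∫ V, GX X V k p ∂(PP (T d L) ν) =
      (∑ z : T d L, e z (k - p)) * ∫ V, GX X V k p ∂(PP (T d L) ν) := by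
    rw [Finset.sum_mul]
    refine Finset.sum_congr rfl fun z _ => ?_
    rw [e_comm z]
    exact hinv z
  rw [sum_e, if_neg (sub_ne_zero.2 hkp), zero_mul, Finset.sum_const, nsmul_eq_mul] at hsum
  rcases mul_eq_zero.1 hsum with h | h
  · exfalso
    have : (Finset.univ : Finset (T d L)).card ≠ 0 := by
      rw [Finset.card_univ]; exact Fintype.card_ne_zero
    exact this (by exact_mod_cast h)
  · exact h

/-- the mean of `G w` -/
theorem int_vec {X : T d L → ℂ} {c : ℝ} (hc : 0 < c) (hX : ∀ k, (X k).im ≤ -c) (ν : Measure ℝ)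
    [IsProbabilityMeasure ν] (w : T d L → ℂ) (k : T d L) :
    ∫ V, (GX X V *ᵥ w) k ∂(PP (T d L) ν) = gm ν X k * w k := by
  unfold Matrix.mulVec dotProduct
  rw [integral_finsetSum _ fun p _ => (integrable_entry hc hX ν k p).mul_const _]
  rw [Finset.sum_eq_single k]
  · rw [integral_mul_const]; rfl
  · intro p _ hp
    rw [integral_mul_const, int_off X ν k p (Ne.symm hp), zero_mul]
  · intro h
    exact absurd (Finset.mem_univ k) h

theorem integrable_vec {X : T d L → ℂ} {c : ℝ} (hc : 0 < c) (hX : ∀ k, (X k).im ≤ -c)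
    (ν : Measure ℝ) [IsProbabilityMeasure ν] (w : T d L → ℂ) (k : T d L) :
    Integrable (fun V => (GX X V *ᵥ w) k) (PP (T d L) ν) :=
  Integrable.of_bound (C := c⁻¹ * Real.sqrt (nsq w)) (cont_vec hc hX w k).aestronglyMeasurable
    (Filter.Eventually.of_forall fun V => vec_bd hc hX V w k)

theorem int_pv {X : T d L → ℂ} {c : ℝ} (hc : 0 < c) (hX : ∀ k, (X k).im ≤ -c) (ν : Measure ℝ)
    [IsProbabilityMeasure ν] (w : T d L → ℂ) (x : T d L) :
    ∫ V, pv (GX X V *ᵥ w) x ∂(PP (T d L) ν) = pv (fun k => gm ν X k * w k) x := by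
  unfold pv
  simp only [dotProduct]
  rw [integral_finsetSum _ fun p _ => (integrable_vec hc hX ν w p).const_mul _]
  refine Finset.sum_congr rfl fun p _ => ?_
  rw [integral_const_mul, int_vec hc hX]

/-- the mean of the Green function at a site -/
theorem int_site {X : T d L → ℂ} {c : ℝ} (hc : 0 < c) (hX : ∀ k, (X k).im ≤ -c) (ν : Measure ℝ)
    [IsProbabilityMeasure ν] (y : T d L) :
    ∫ V, pv (GX X V *ᵥ av y) y ∂(PP (T d L) ν) = (((NN d L)⁻¹ : ℝ) : ℂ) * ∑ k, gm ν X k := by
  rw [int_pv hc hX, Finset.mul_sum]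
  unfold pv dotProduct
  refine Finset.sum_congr rfl fun k _ => ?_
  have h1 : star (av y) k * av y k = (((NN d L)⁻¹ : ℝ) : ℂ) := by
    rw [Pi.star_apply, RCLike.star_def]
    unfold av
    rw [map_mul, Complex.conj_ofReal, ← sq_inv]
    have h2 := e_normSq k y
    linear_combination ((((Real.sqrt (NN d L))⁻¹ : ℝ) : ℂ) * (((Real.sqrt (NN d L))⁻¹ : ℝ) : ℂ)) * h2
  calc star (av y) k * (gm ν X k * av y k) = (star (av y) k * av y k) * gm ν X k := by ring
    _ = _ := by rw [h1]

end Pool.Agent.Run7.h442.BA
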