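import Pool.Agent.Run7.h442.BA.Alg

/-! Project BA: the norm of the resolvent, given bounds for the potential as a quadratic form. -/

set_option autoImplicit false
set_option linter.unusedSectionVars false

open scoped BigOperators Matrix
open MeasureTheory

namespace Pool.Agent.Run7.h442.BA

open Pool.Agent.W788.BK (PP nsq nsq_nonneg nsq_eq nsq_smul cs_star cs_norm adjoint nsq_eq_zero
  nsq_star)
open Pool.Agent.W788.MFP.Four (T e NN adj e_comm e_add_left e_add e_zero e_neg e_neg_left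
  e_normSq sum_e NN_pos card_T ft q)

variable {d L : ℕ} [NeZero L]

/-- weighted norm -/
noncomputable def jn (J : T d L → ℝ) (u : T d L → ℂ) : ℝ := ∑ k, J k * ‖u k‖ ^ 2

theorem jn_nonneg {J : T d L → ℝ} (hJ : ∀ k, 0 < J k) (u : T d L → ℂ) : 0 ≤ jn J u :=
  Finset.sum_nonneg fun k _ => mul_nonneg (hJ k).le (sq_nonneg _)

theorem jn_zero {J : T d L → ℝ} (hJ : ∀ k, 0 < J k) {u : T d L → ℂ} (h : jn J u = 0) : u = 0 := by
  unfold jn at h
  rw [Finset.sum_eq_zero_iff_of_nonneg fun k _ => mul_nonneg (hJ k).le (sq_nonneg _)] at h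
  funext k
  have := h k (Finset.mem_univ k)
  have h1 := (hJ k).ne'
  simpa [h1] using this

theorem jn_smul (J : T d L → ℝ) (c : ℂ) (u : T d L → ℂ) : jn J (c • u) = ‖c‖ ^ 2 * jn J u := by
  unfold jn
  rw [Finset.mul_sum]
  exact Finset.sum_congr rfl fun k _ => by rw [Pi.smul_apply, smul_eq_mul, norm_mul]; ring

theorem jn_par (J : T d L → ℝ) (u w : T d L → ℂ) :
    jn J (u + w) + jn J (u - w) = 2 * (jn J u + jn J w) := by
  unfold jn
  rw [← Finset.sum_add_distrib, ← Finset.sum_add_distrib, Finset.mul_sum]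
  refine Finset.sum_congr rfl fun k _ => ?_
  have := parallelogram_law_with_norm ℂ (u k) (w k)
  rw [Pi.add_apply, Pi.sub_apply]
  calc J k * ‖u k + w k‖ ^ 2 + J k * ‖u k - w k‖ ^ 2 = J k * (‖u k + w k‖ ^ 2 + ‖u k - w k‖ ^ 2) := by ring
    _ = _ := by rw [this]; ring

theorem cs_J {J : T d L → ℝ} (hJ : ∀ k, 0 < J k) (u f : T d L → ℂ) :
    ‖star u ⬝ᵥ f‖ ≤ Real.sqrt (jn J u) * Real.sqrt (jn (fun k => (J k)⁻¹) f) := by
  have h1 : ‖star u ⬝ᵥ f‖ ≤ ∑ k, (Real.sqrt (J k) * ‖u k‖) * ((Real.sqrt (J k))⁻¹ * ‖f k‖) := by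
    unfold dotProduct
    refine (norm_sum_le _ _).trans (Finset.sum_le_sum fun k _ => ?_)
    rw [norm_mul, Pi.star_apply, norm_star]
    have := (Real.sqrt_pos.2 (hJ k)).ne'
    apply le_of_eq
    field_simp
  refine h1.trans ?_
  have h2 := Finset.sum_mul_sq_le_sq_mul_sq Finset.univ (fun k => Real.sqrt (J k) * ‖u k‖)
    (fun k => (Real.sqrt (J k))⁻¹ * ‖f k‖)
  have e1 : ∑ k, (Real.sqrt (J k) * ‖u k‖) ^ 2 = jn J u :=
    Finset.sum_congr rfl fun k _ => by rw [mul_pow, Real.sq_sqrt (hJ k).le]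
  have e2 : ∑ k, ((Real.sqrt (J k))⁻¹ * ‖f k‖) ^ 2 = jn (fun k => (J k)⁻¹) f :=
    Finset.sum_congr rfl fun k _ => by rw [mul_pow, inv_pow, Real.sq_sqrt (hJ k).le]
  rw [e1, e2] at h2
  rw [← Real.sqrt_mul (jn_nonneg hJ u)]
  exact Real.le_sqrt_of_sq_le h2

theorem pv_add (u w : T d L → ℂ) (y : T d L) : pv (u + w) y = pv u y + pv w y := by
  unfold pv; rw [dotProduct_add]

theorem pv_sub (u w : T d L → ℂ) (y : T d L) : pv (u - w) y = pv u y - pv w y := by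
  unfold pv; rw [dotProduct_sub]

theorem pv_smul (c : ℂ) (u : T d L → ℂ) (y : T d L) : pv (c • u) y = c * pv u y := by
  unfold pv; rw [dotProduct_smul, smul_eq_mul]

/-- the quadratic form of the potential -/
noncomputable def vq (V : T d L → ℝ) (u : T d L → ℂ) : ℝ := ∑ y, V y * ‖pv u y‖ ^ 2

theorem vq_polar (V : T d L → ℝ) (u w : T d L → ℂ) :
    vq V (u + w) - vq V (u - w) = 4 * (star u ⬝ᵥ (VM V *ᵥ w)).re := by
  rw [VM_form, Complex.re_sum, Finset.mul_sum]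
  unfold vq
  rw [← Finset.sum_sub_distrib]
  refine Finset.sum_congr rfl fun y _ => ?_
  rw [pv_add, pv_sub, Complex.re_ofReal_mul, ← Complex.normSq_eq_norm_sq,
    ← Complex.normSq_eq_norm_sq, Complex.normSq_apply, Complex.normSq_apply]
  simp only [Complex.add_re, Complex.add_im, Complex.sub_re, Complex.sub_im, Complex.mul_re,
    Complex.conj_re, Complex.conj_im]
  ring

/-- polarisation -/
theorem polar {V : T d L → ℝ} {J : T d L → ℝ} (hJ : ∀ k, 0 < J k) {t : ℝ} (ht : 0 ≤ t)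
    {Q : T d L → Prop} (h : ∀ u : T d L → ℂ, (∀ k, ¬ Q k → u k = 0) → |vq V u| ≤ t * jn J u)
    (u w : T d L → ℂ) (hu : ∀ k, ¬ Q k → u k = 0) (hw : ∀ k, ¬ Q k → w k = 0) :
    ‖star u ⬝ᵥ (VM V *ᵥ w)‖ ≤ t * (Real.sqrt (jn J u) * Real.sqrt (jn J w)) := by
  rcases (jn_nonneg hJ u).eq_or_lt with h0 | h0
  · rw [jn_zero hJ h0.symm, star_zero, zero_dotProduct, norm_zero]
    positivity
  rcases (jn_nonneg hJ w).eq_or_lt with h1 | h1
  · rw [jn_zero hJ h1.symm, Matrix.mulVec_zero, dotProduct_zero, norm_zero]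
    positivity
  set a := Real.sqrt (jn J u) with ha
  set b := Real.sqrt (jn J w) with hb
  have ha0 : 0 < a := Real.sqrt_pos.2 h0
  have hb0 : 0 < b := Real.sqrt_pos.2 h1
  have ha2 : a ^ 2 = jn J u := Real.sq_sqrt h0.le
  have hb2 : b ^ 2 = jn J w := Real.sq_sqrt h1.le
  set B := star u ⬝ᵥ (VM V *ᵥ w) with hB
  rcases eq_or_ne B 0 with hB0 | hB0
  · rw [hB0, norm_zero]; positivity
  have hBn : 0 < ‖B‖ := norm_pos_iff.2 hB0
  -- normalised vectors
  set u' : T d L → ℂ := ((a⁻¹ : ℝ) : ℂ) • u with hu'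
  set w' : T d L → ℂ := (((b⁻¹ : ℝ) : ℂ) * ((starRingEnd ℂ) B / ‖B‖)) • w with hw'
  have n1' : jn J u' = 1 := by
    rw [hu', jn_smul, Complex.norm_real, Real.norm_eq_abs, sq_abs, inv_pow, ha2]
    exact inv_mul_cancel₀ h0.ne'
  have n2' : jn J w' = 1 := by
    rw [hw', jn_smul, norm_mul, norm_div, Complex.norm_real, Real.norm_eq_abs, RCLike.norm_conj,
      Complex.norm_real, norm_norm, div_self hBn.ne', mul_one, sq_abs, inv_pow, hb2]
    exact inv_mul_cancel₀ h1.ne'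
  have e1 : star u' ⬝ᵥ (VM V *ᵥ w') = ((‖B‖ / (a * b) : ℝ) : ℂ) := by
    rw [hu', hw', star_smul, smul_dotProduct, Matrix.mulVec_smul, dotProduct_smul, ← hB]
    simp only [smul_eq_mul, RCLike.star_def, Complex.conj_ofReal]
    have h3 : (starRingEnd ℂ) B * B = ((‖B‖ ^ 2 : ℝ) : ℂ) := by
      rw [mul_comm, Complex.mul_conj, Complex.normSq_eq_norm_sq]
    have h4 : ((‖B‖ : ℝ) : ℂ) ≠ 0 := by exact_mod_cast hBn.ne'
    have h5 : ((a : ℝ) : ℂ) ≠ 0 := by exact_mod_cast ha0.ne'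
    have h6 : ((b : ℝ) : ℂ) ≠ 0 := by exact_mod_cast hb0.ne'
    calc ((a⁻¹ : ℝ) : ℂ) * (((b⁻¹ : ℝ) : ℂ) * ((starRingEnd ℂ) B / (‖B‖ : ℂ)) * B)
        = ((a⁻¹ : ℝ) : ℂ) * ((b⁻¹ : ℝ) : ℂ) * ((starRingEnd ℂ) B * B) / (‖B‖ : ℂ) := by ring
      _ = _ := by
        rw [h3]
        push_cast
        field_simp
  have e2 := vq_polar V u' w'
  rw [e1, Complex.ofReal_re] at e2
  have s1 : ∀ k, ¬ Q k → (u' + w') k = 0 := fun k hk => by
    rw [Pi.add_apply, hu', hw', Pi.smul_apply, Pi.smul_apply, hu k hk, hw k hk, smul_zero,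
      smul_zero, add_zero]
  have s2 : ∀ k, ¬ Q k → (u' - w') k = 0 := fun k hk => by
    rw [Pi.sub_apply, hu', hw', Pi.smul_apply, Pi.smul_apply, hu k hk, hw k hk, smul_zero,
      smul_zero, sub_zero]
  have b1 := (le_abs_self _).trans (h _ s1)
  have b2 := (neg_abs_le _).trans' (neg_le_neg (h _ s2))
  have e3 := jn_par J u' w'
  rw [n1', n2'] at e3
  have h7 : 4 * (‖B‖ / (a * b)) ≤ t * (jn J (u' + w') + jn J (u' - w')) := by
    rw [← e2, mul_add]
    linarith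
  rw [e3] at h7
  have h8 : ‖B‖ / (a * b) ≤ t := by linarith
  rw [div_le_iff₀ (by positivity)] at h8
  exact h8

open Classical in
/-- restriction -/
noncomputable def rst (Q : T d L → Prop) (u : T d L → ℂ) : T d L → ℂ :=
  fun k => if Q k then u k else 0

theorem rst_not (Q : T d L → Prop) (u : T d L → ℂ) (k : T d L) (h : ¬ Q k) : rst Q u k = 0 :=
  if_neg h

theorem jn_split (J : T d L → ℝ) (Q : T d L → Prop) (u : T d L → ℂ) :
    jn J u = jn J (rst (fun k => ¬ Q k) u) + jn J (rst Q u) := by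
  unfold jn rst
  rw [← Finset.sum_add_distrib]
  refine Finset.sum_congr rfl fun k _ => ?_
  by_cases h : Q k
  · rw [if_neg (not_not.2 h), if_pos h]; simp
  · rw [if_pos h, if_neg h]; simp

theorem rst_add (Q : T d L → Prop) (u : T d L → ℂ) : rst (fun k => ¬ Q k) u + rst Q u = u := by
  funext k
  unfold rst
  rw [Pi.add_apply]
  by_cases h : Q k
  · rw [if_neg (not_not.2 h), if_pos h, zero_add]
  · rw [if_pos h, if_neg h, add_zero]

/-- The far part is controlled by the near part. -/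
theorem far {V : T d L → ℝ} {J : T d L → ℝ} {X : T d L → ℂ} (hJ : ∀ k, 0 < J k) {W : ℝ}
    (hW : 0 ≤ W) {Q : T d L → Prop} (h1 : ∀ u : T d L → ℂ, |vq V u| ≤ W * jn J u)
    (h2 : ∀ u : T d L → ℂ, (∀ k, ¬ Q k → u k = 0) → |vq V u| ≤ 1 / 8 * jn J u)
    (hQ : ∀ k, Q k → J k / 2 ≤ |(X k).re|) (u f : T d L → ℂ)
    (hf : ∀ k, Q k → X k * u k + (VM V *ᵥ u) k = f k) :
    Real.sqrt (jn J (rst Q u)) ≤ 8 / 3 * (Real.sqrt (jn (fun k => (J k)⁻¹) (rst Q f)) +
      W * Real.sqrt (jn J (rst (fun k => ¬ Q k) u))) := by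
  classical
  set B := Real.sqrt (jn J (rst Q u)) with hB
  set A := Real.sqrt (jn J (rst (fun k => ¬ Q k) u)) with hA
  set F := Real.sqrt (jn (fun k => (J k)⁻¹) (rst Q f)) with hF
  -- the test vector
  set sg : T d L → ℝ := fun k => if 0 ≤ (X k).re then 1 else -1 with hsg
  have hsg1 : ∀ k, |sg k| = 1 := fun k => by
    simp only [hsg]; split_ifs <;> simp
  set φ : T d L → ℂ := fun k => (sg k : ℂ) * rst Q u k with hφ
  have hφn : ∀ k, ‖φ k‖ = ‖rst Q u k‖ := fun k => by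
    simp only [hφ]
    rw [norm_mul, Complex.norm_real, Real.norm_eq_abs, hsg1, one_mul]
  have hφJ : jn J φ = jn J (rst Q u) := by
    unfold jn
    exact Finset.sum_congr rfl fun k _ => by rw [hφn]
  have hφ0 : ∀ k, ¬ Q k → φ k = 0 := fun k hk => by
    simp only [hφ]; rw [rst_not Q u k hk, mul_zero]
  -- the identity
  have e1 : star φ ⬝ᵥ (fun k => X k * u k) + star φ ⬝ᵥ (VM V *ᵥ u) = star φ ⬝ᵥ rst Q f := by
    unfold dotProduct
    rw [← Finset.sum_add_distrib]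
    refine Finset.sum_congr rfl fun k _ => ?_
    by_cases hk : Q k
    · rw [← mul_add, hf k hk]
      unfold rst
      rw [if_pos hk]
    · rw [Pi.star_apply, hφ0 k hk]; simp
  have e2 : 1 / 2 * B ^ 2 ≤ (star φ ⬝ᵥ (fun k => X k * u k)).re := by
    rw [hB, Real.sq_sqrt (jn_nonneg hJ _)]
    unfold jn dotProduct
    rw [Complex.re_sum, Finset.mul_sum]
    refine Finset.sum_le_sum fun k _ => ?_
    by_cases hk : Q k
    · have h3 : star φ k * (X k * u k) = ((sg k * ‖u k‖ ^ 2 : ℝ) : ℂ) * X k := by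
        rw [Pi.star_apply]
        simp only [hφ]
        unfold rst
        rw [if_pos hk, star_mul', Complex.star_def, Complex.conj_ofReal]
        have h4 : (starRingEnd ℂ) (u k) * u k = ((‖u k‖ ^ 2 : ℝ) : ℂ) := by
          rw [mul_comm, Complex.mul_conj, Complex.normSq_eq_norm_sq]
        calc (sg k : ℂ) * (starRingEnd ℂ) (u k) * (X k * u k)
            = (sg k : ℂ) * ((starRingEnd ℂ) (u k) * u k) * X k := by ring
          _ = _ := by rw [h4]; push_cast; ring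
      rw [h3, Complex.re_ofReal_mul]
      have h5 : rst Q u k = u k := by unfold rst; rw [if_pos hk]
      rw [h5]
      have h6 : sg k * (X k).re = |(X k).re| := by
        simp only [hsg]
        split_ifs with h7
        · rw [abs_of_nonneg h7, one_mul]
        · rw [abs_of_neg (not_le.1 h7)]; ring
      have h8 := hQ k hk
      have h9 := sq_nonneg ‖u k‖
      calc 1 / 2 * (J k * ‖u k‖ ^ 2) = J k / 2 * ‖u k‖ ^ 2 := by ring
        _ ≤ |(X k).re| * ‖u k‖ ^ 2 := mul_le_mul_of_nonneg_right h8 h9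
        _ = _ := by rw [← h6]; ring
    · rw [rst_not Q u k hk, Pi.star_apply, hφ0 k hk]; simp
  have e3 : ‖star φ ⬝ᵥ (VM V *ᵥ rst Q u)‖ ≤ 1 / 8 * (B * B) := by
    have := polar hJ (by norm_num : (0 : ℝ) ≤ 1 / 8) h2 φ (rst Q u) hφ0 (rst_not Q u)
    rwa [hφJ] at this
  have e4 : ‖star φ ⬝ᵥ (VM V *ᵥ rst (fun k => ¬ Q k) u)‖ ≤ W * (B * A) := by
    have := polar (Q := fun _ => True) hJ hW (fun u _ => h1 u) φ (rst (fun k => ¬ Q k) u)
      (fun k hk => absurd trivial hk) (fun k hk => absurd trivial hk)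
    rwa [hφJ] at this
  have e5 : ‖star φ ⬝ᵥ rst Q f‖ ≤ B * F := by
    have := cs_J hJ φ (rst Q f)
    rwa [hφJ] at this
  have e6 : star φ ⬝ᵥ (VM V *ᵥ u) = star φ ⬝ᵥ (VM V *ᵥ rst (fun k => ¬ Q k) u) +
      star φ ⬝ᵥ (VM V *ᵥ rst Q u) := by
    rw [← dotProduct_add, ← Matrix.mulVec_add, rst_add]
  have e7 := congrArg Complex.re e1
  rw [e6, Complex.add_re, Complex.add_re] at e7
  have b1 := (abs_le.1 (Complex.abs_re_le_norm (star φ ⬝ᵥ (VM V *ᵥ rst Q u)))).1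
  have b2 := (abs_le.1 (Complex.abs_re_le_norm
    (star φ ⬝ᵥ (VM V *ᵥ rst (fun k => ¬ Q k) u)))).1
  have b3 := (abs_le.1 (Complex.abs_re_le_norm (star φ ⬝ᵥ rst Q f))).2
  have hB0 : 0 ≤ B := Real.sqrt_nonneg _
  have hA0 : 0 ≤ A := Real.sqrt_nonneg _
  have hF0 : 0 ≤ F := Real.sqrt_nonneg _
  have key : 3 / 8 * B ^ 2 ≤ B * (F + W * A) := by nlinarith
  rcases hB0.eq_or_lt with h | h
  · rw [← h]; positivity
  · have : 3 / 8 * B ≤ F + W * A := by
      have h9 : B * (3 / 8 * B) ≤ B * (F + W * A) := by nlinarith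
      exact le_of_mul_le_mul_left h9 h
    linarith

/-- The norm of the resolvent. -/
theorem resN {V : T d L → ℝ} {J α : T d L → ℝ} {X : T d L → ℂ} (hJ : ∀ k, 0 < J k) {W a₀ : ℝ}
    (hW : 1 ≤ W) (ha : 0 < a₀) (ha1 : a₀ ≤ 1) {Q : T d L → Prop}
    (h1 : ∀ u : T d L → ℂ, |vq V u| ≤ W * jn J u)
    (h2 : ∀ u : T d L → ℂ, (∀ k, ¬ Q k → u k = 0) → |vq V u| ≤ 1 / 8 * jn J u)
    (hQ : ∀ k, Q k → J k / 2 ≤ |(X k).re|) {s : ℝ} (hs : |s| ≤ 1)
    (hα : ∀ k, α k ≤ s * (X k).im) (hα0 : ∀ k, 0 ≤ α k) (hP : ∀ k, ¬ Q k → a₀ * J k ≤ α k)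
    (u f : T d L → ℂ) (hf : MX X V *ᵥ u = f) :
    Real.sqrt (jn J u) ≤ 20 * W ^ 2 / a₀ * Real.sqrt (jn (fun k => (J k)⁻¹) f) := by
  classical
  have hfk : ∀ k, X k * u k + (VM V *ᵥ u) k = f k := fun k => by rw [← MX_mulVec, hf]
  have hfar := far hJ (by linarith : (0 : ℝ) ≤ W) h1 h2 hQ u f (fun k _ => hfk k)
  set B := Real.sqrt (jn J (rst Q u)) with hB
  set A := Real.sqrt (jn J (rst (fun k => ¬ Q k) u)) with hA
  set F := Real.sqrt (jn (fun k => (J k)⁻¹) f) with hF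
  set N := Real.sqrt (jn J u) with hN
  have hJi : ∀ k, 0 < (J k)⁻¹ := fun k => inv_pos.2 (hJ k)
  have hF1 : Real.sqrt (jn (fun k => (J k)⁻¹) (rst Q f)) ≤ F := by
    apply Real.sqrt_le_sqrt
    rw [jn_split (fun k => (J k)⁻¹) Q f]
    have := jn_nonneg hJi (rst (fun k => ¬ Q k) f)
    linarith
  have hB0 : 0 ≤ B := Real.sqrt_nonneg _
  have hA0 : 0 ≤ A := Real.sqrt_nonneg _
  have hF0 : 0 ≤ F := Real.sqrt_nonneg _
  have hN0 : 0 ≤ N := Real.sqrt_nonneg _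
  have hN2 : N ^ 2 = A ^ 2 + B ^ 2 := by
    rw [hN, hA, hB, Real.sq_sqrt (jn_nonneg hJ _), Real.sq_sqrt (jn_nonneg hJ _),
      Real.sq_sqrt (jn_nonneg hJ _), jn_split J Q u]
  have hA2 : a₀ * A ^ 2 ≤ N * F := by
    have h3 : a₀ * A ^ 2 ≤ s * (star u ⬝ᵥ f).im := by
      rw [← hf, form_im, hA, Real.sq_sqrt (jn_nonneg hJ _)]
      unfold jn
      rw [Finset.mul_sum, Finset.mul_sum]
      refine Finset.sum_le_sum fun k _ => ?_
      unfold rst
      by_cases hk : Q k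
      · rw [if_neg (not_not.2 hk)]
        have h4 := hα k
        have h5 := hα0 k
        have h6 := sq_nonneg ‖u k‖
        simp only [norm_zero, ne_eq, OfNat.ofNat_ne_zero, not_false_eq_true, zero_pow, mul_zero]
        have : 0 ≤ (s * (X k).im) * ‖u k‖ ^ 2 := mul_nonneg (h5.trans h4) h6
        linarith
      · rw [if_pos hk]
        have h4 := (hP k hk).trans (hα k)
        have h6 := sq_nonneg ‖u k‖
        have := mul_le_mul_of_nonneg_right h4 h6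
        linarith
    have h7 := cs_J hJ u f
    have h8 : s * (star u ⬝ᵥ f).im ≤ ‖star u ⬝ᵥ f‖ := by
      refine (le_abs_self _).trans ?_
      rw [abs_mul]
      have := Complex.abs_im_le_norm (star u ⬝ᵥ f)
      calc |s| * |(star u ⬝ᵥ f).im| ≤ 1 * |(star u ⬝ᵥ f).im| := by gcongr
        _ ≤ _ := by rw [one_mul]; exact this
    exact h3.trans (h8.trans h7)
  have hB2 : B ≤ 8 / 3 * (F + W * A) := hfar.trans (by gcongr)
  have hW0 : (0 : ℝ) ≤ W := by linarith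
  have hBB : B ^ 2 ≤ 128 / 9 * F ^ 2 + 128 / 9 * (W ^ 2 * A ^ 2) := by
    have h9 : B ^ 2 ≤ (8 / 3 * (F + W * A)) ^ 2 := pow_le_pow_left₀ hB0 hB2 2
    nlinarith [sq_nonneg (F - W * A)]
  have hAA : A ^ 2 ≤ N * F / a₀ := by rw [le_div_iff₀ ha]; linarith
  have hW2 : 1 ≤ W ^ 2 := by nlinarith
  have h10 : N ^ 2 ≤ 16 * W ^ 2 * (N * F / a₀) + 16 * F ^ 2 := by
    have h11 : 0 ≤ A ^ 2 := sq_nonneg _
    have h12 : W ^ 2 * A ^ 2 ≤ W ^ 2 * (N * F / a₀) := by gcongr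
    have h13 : A ^ 2 ≤ W ^ 2 * A ^ 2 := by nlinarith
    nlinarith
  -- solve the quadratic inequality
  set c := 16 * W ^ 2 / a₀ with hc
  have hc16 : 16 ≤ c := by
    rw [hc, le_div_iff₀ ha]
    nlinarith
  have h14 : N ^ 2 ≤ c * F * N + 16 * F ^ 2 := by
    calc N ^ 2 ≤ 16 * W ^ 2 * (N * F / a₀) + 16 * F ^ 2 := h10
      _ = c * F * N + 16 * F ^ 2 := by rw [hc]; ring
  have h15 : N ≤ (c + 1) * F := by
    by_contra hcon
    push Not at hcon
    have h16 : c * F + F < N := by linarith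
    have h17 : (N - c * F) * N ≤ 16 * F ^ 2 := by nlinarith
    have h18 : F ≤ N - c * F := by linarith
    have h19 : F * N ≤ (N - c * F) * N := mul_le_mul_of_nonneg_right h18 hN0
    have h20 : F * ((c + 1) * F) ≤ F * N := mul_le_mul_of_nonneg_left hcon.le hF0
    rcases hF0.eq_or_lt with h | h
    · rw [← h] at h17 h16
      nlinarith
    · nlinarith [mul_pos h h]
  refine h15.trans (mul_le_mul_of_nonneg_right ?_ hF0)
  rw [hc]
  have h21 : 1 ≤ 4 * W ^ 2 / a₀ := by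
    rw [le_div_iff₀ ha]
    nlinarith
  calc 16 * W ^ 2 / a₀ + 1 ≤ 16 * W ^ 2 / a₀ + 4 * W ^ 2 / a₀ := by linarith
    _ = _ := by ring

end Pool.Agent.Run7.h442.BA
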