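import Pool.Agent.Run7.h442.BA.TorA

/-! Project BA: the good event. -/

set_option autoImplicit false
set_option linter.unusedSectionVars false

open scoped BigOperators Matrix
open MeasureTheory

namespace Pool.Agent.Run7.h442.BA

open Pool.Agent.W788.BK (PP nsq nsq_nonneg nsq_eq nsq_smul cs_star cs_norm adjoint nsq_eq_zero
  nsq_star instPP nsq_single star_single Low hi)
open Pool.Agent.W788.MFP.Four (T e NN adj e_comm e_add_left e_add e_zero e_neg e_neg_left
  e_normSq sum_e NN_pos card_T ft q)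
open Pool.Agent.W788.MFP.Form (J_neg J_pos J_ge J_ge')
open Pool.Agent.W788.MF2.FormG (GB form1)
open Pool.Agent.W788.MF2.Dom (DomBy dom_bdd m1)

variable {d L : ℕ} [NeZero L]


theorem vq_update (V : T d L → ℝ) (y : T d L) (u : T d L → ℂ) :
    vq (Function.update V y 0) u = vq V u - V y * ‖pv u y‖ ^ 2 := by
  classical
  unfold vq
  rw [← Finset.add_sum_erase _ _ (Finset.mem_univ y),
    ← Finset.add_sum_erase Finset.univ (fun z => V z * ‖pv u z‖ ^ 2) (Finset.mem_univ y),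
    Function.update_self]
  have h1 : ∑ z ∈ Finset.univ.erase y, Function.update V y 0 z * ‖pv u z‖ ^ 2 =
      ∑ z ∈ Finset.univ.erase y, V z * ‖pv u z‖ ^ 2 := by
    refine Finset.sum_congr rfl fun z hz => ?_
    rw [Function.update_of_ne (Finset.ne_of_mem_erase hz)]
  rw [h1]
  ring

/-- the two weights -/
theorem J_cmp (E δ S : ℝ) (hS : 0 ≤ S) (k : T d L) (h : S ≤ |adj k - E|) :
    Pool.Agent.W788.MFP.Form.J E S k ≤ 3 / 2 * Pool.Agent.W788.MFP.Form.J E δ k := by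
  have h1 := J_ge' E δ k
  have h2 : Pool.Agent.W788.MFP.Form.J E S k ≤ 3 / 2 * |adj k - E| := by
    unfold Pool.Agent.W788.MFP.Form.J
    rw [Real.sqrt_le_left (by positivity)]
    have h3 := sq_abs (adj k - E)
    nlinarith [abs_nonneg (adj k - E)]
  linarith

theorem good_event (ν : Measure ℝ) [IsProbabilityMeasure ν] {β : ℝ} (hβ0 : 0 < β)
    (hβ : ∀ᵐ x ∂ν, |x| ≤ β) (h0 : ∫ x, x ∂ν = 0) {E δ S g W : ℝ} (hδ : 0 < δ) (hδS : δ ≤ S)
    (hg : GB d L δ g) (hW : 1 ≤ W) (hβg : β * g ≤ 1 / 32) (p : ℕ) (hp : p ≠ 0) :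
    ∃ G₀ : Set (T d L → ℝ), MeasurableSet G₀ ∧ (PP (T d L) ν).real G₀ᶜ ≤
      ((2 * p * g * δ⁻¹ * (β / m1) ^ 2 / (W / 2) ^ 2) ^ p +
        (2 * p * g * S⁻¹ * (β / m1) ^ 2 / (1 / 32) ^ 2) ^ p) * NN d L ∧
      ∀ V ∈ G₀, (∀ z, |V z| ≤ β) ∧ Gd (Pool.Agent.W788.MFP.Form.J E δ) W (fun k => S < |adj k - E|) V ∧
        (∀ y, Gd (Pool.Agent.W788.MFP.Form.J E δ) W (fun k => S < |adj k - E|) (Function.update V y 0)) ∧
        ∀ y z, Gd (Pool.Agent.W788.MFP.Form.J E δ) W (fun k => S < |adj k - E|)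
          (Function.update (Function.update V y 0) z 0) := by
  have hdom := dom_bdd ν β hβ0 hβ h0
  have hS0 : 0 < S := hδ.trans_le hδS
  have hg2 : GB d L S g := by
    intro E'
    refine le_trans ?_ (hg E')
    refine mul_le_mul_of_nonneg_left (Finset.sum_le_sum fun k _ => ?_) (inv_nonneg.2 NN_pos.le)
    refine inv_anti₀ (J_pos E' δ hδ k) ?_
    unfold Pool.Agent.W788.MFP.Form.J
    exact Real.sqrt_le_sqrt (by nlinarith)
  obtain ⟨G1, hG1, hP1, hb1⟩ := form1 ν (β / m1) hdom E δ g hδ hg (W / 2) (by linarith) p hp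
  obtain ⟨G2, hG2, hP2, hb2⟩ := form1 ν (β / m1) hdom E S g hS0 hg2 (1 / 32) (by norm_num) p hp
  set G3 : Set (T d L → ℝ) := {V | ∀ z, |V z| ≤ β} with hG3d
  have hG3 : MeasurableSet G3 := by
    have : G3 = ⋂ z, {V : T d L → ℝ | |V z| ≤ β} := by
      ext V; simp [hG3d]
    rw [this]
    refine MeasurableSet.iInter fun z => ?_
    exact measurableSet_le ((measurable_pi_apply z).abs) measurable_const
  have hP3 : (PP (T d L) ν).real G3ᶜ = 0 := by
    rw [Measure.real, ENNReal.toReal_eq_zero_iff]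
    left
    exact ae_iff.1 (ae_all (d := d) (L := L) hβ)
  have hg0 : 0 ≤ g := le_trans (mul_nonneg (inv_nonneg.2 NN_pos.le)
    (Finset.sum_nonneg fun k _ => (inv_pos.2 (J_pos 0 δ hδ k)).le)) (hg 0)
  have hJ : ∀ k : T d L, 0 < Pool.Agent.W788.MFP.Form.J E δ k := J_pos E δ hδ
  -- the consequences
  have key : ∀ V ∈ G1 ∩ G2 ∩ G3, ∀ u : T d L → ℂ, |vq V u| ≤ W / 2 * jn (Pool.Agent.W788.MFP.Form.J E δ) u ∧
      ((∀ k, ¬ S < |adj k - E| → u k = 0) → |vq V u| ≤ 1 / 16 * jn (Pool.Agent.W788.MFP.Form.J E δ) u) := by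
    intro V hV u
    refine ⟨vq_le (J_neg E δ) (hb1 V hV.1.1) u, fun hu => ?_⟩
    refine (vq_le (J_neg E S) (hb2 V hV.1.2) u).trans ?_
    have h1 : jn (Pool.Agent.W788.MFP.Form.J E S) u ≤ 3 / 2 * jn (Pool.Agent.W788.MFP.Form.J E δ) u := by
      unfold jn
      rw [Finset.mul_sum]
      refine Finset.sum_le_sum fun k _ => ?_
      by_cases hk : S < |adj k - E|
      · have := mul_le_mul_of_nonneg_right (J_cmp E δ S hS0.le k hk.le) (sq_nonneg ‖u k‖)
        linarith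
      · rw [hu k hk]; simp
    have h2 := jn_nonneg hJ u
    linarith
  have hsite : ∀ V ∈ G1 ∩ G2 ∩ G3, ∀ (u : T d L → ℂ) (y : T d L),
      |V y * ‖pv u y‖ ^ 2| ≤ 1 / 32 * jn (Pool.Agent.W788.MFP.Form.J E δ) u := by
    intro V hV u y
    have h1 := pv_jn hJ (hg E) u y
    have h2 : |V y| ≤ β := hV.2 y
    have h3 := jn_nonneg hJ u
    rw [abs_mul, abs_of_nonneg (sq_nonneg ‖pv u y‖)]
    calc |V y| * ‖pv u y‖ ^ 2 ≤ β * (g * jn (Pool.Agent.W788.MFP.Form.J E δ) u) := by gcongr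
      _ = β * g * jn (Pool.Agent.W788.MFP.Form.J E δ) u := by ring
      _ ≤ _ := mul_le_mul_of_nonneg_right hβg h3
  refine ⟨G1 ∩ G2 ∩ G3, (hG1.inter hG2).inter hG3, ?_, fun V hV => ⟨hV.2, ?_, fun y => ?_,
    fun y z => ?_⟩⟩
  · have h1 : (G1 ∩ G2 ∩ G3)ᶜ ⊆ G1ᶜ ∪ G2ᶜ ∪ G3ᶜ := by
      rw [Set.compl_inter, Set.compl_inter]
    have h2 : (PP (T d L) ν).real (G1 ∩ G2 ∩ G3)ᶜ ≤ (PP (T d L) ν).real G1ᶜ +
        (PP (T d L) ν).real G2ᶜ + (PP (T d L) ν).real G3ᶜ := by
      refine (measureReal_mono h1).trans ((measureReal_union_le _ _).trans ?_)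
      have := measureReal_union_le (μ := PP (T d L) ν) G1ᶜ G2ᶜ
      linarith
    have h3 : (PP (T d L) ν).real G1ᶜ ≤
        (2 * p * g * δ⁻¹ * (β / m1) ^ 2 / (W / 2) ^ 2) ^ p * NN d L := hP1
    have h4 : (PP (T d L) ν).real G2ᶜ ≤
        (2 * p * g * S⁻¹ * (β / m1) ^ 2 / (1 / 32) ^ 2) ^ p * NN d L := hP2
    rw [hP3] at h2
    linarith
  · refine ⟨fun u => ?_, fun u hu => ?_⟩
    · have h1 := (key V hV u).1
      have h3 := jn_nonneg hJ u
      refine h1.trans (mul_le_mul_of_nonneg_right (by linarith) h3)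
    · have h1 := (key V hV u).2 hu
      have h3 := jn_nonneg hJ u
      linarith
  · refine ⟨fun u => ?_, fun u hu => ?_⟩
    · rw [vq_update]
      have h1 := (key V hV u).1
      have h2 := hsite V hV u y
      have h3 := jn_nonneg hJ u
      refine (abs_sub _ _).trans ?_
      nlinarith
    · rw [vq_update]
      have h1 := (key V hV u).2 hu
      have h2 := hsite V hV u y
      have h3 := jn_nonneg hJ u
      refine (abs_sub _ _).trans ?_
      linarith
  · have h5 : ∀ u : T d L → ℂ, |Function.update V y 0 z * ‖pv u z‖ ^ 2| ≤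
        1 / 32 * jn (Pool.Agent.W788.MFP.Form.J E δ) u := by
      intro u
      have h3 := jn_nonneg hJ u
      by_cases hz : z = y
      · subst hz
        rw [Function.update_self, zero_mul, abs_zero]; positivity
      · rw [Function.update_of_ne hz]; exact hsite V hV u z
    refine ⟨fun u => ?_, fun u hu => ?_⟩
    · rw [vq_update, vq_update]
      have h1 := (key V hV u).1
      have h2 := hsite V hV u y
      have h3 := jn_nonneg hJ u
      have h4 := h5 u
      refine (abs_sub _ _).trans ?_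
      have h6 := abs_sub (vq V u) (V y * ‖pv u y‖ ^ 2)
      nlinarith
    · rw [vq_update, vq_update]
      have h1 := (key V hV u).2 hu
      have h2 := hsite V hV u y
      have h3 := jn_nonneg hJ u
      have h4 := h5 u
      refine (abs_sub _ _).trans ?_
      have h6 := abs_sub (vq V u) (V y * ‖pv u y‖ ^ 2)
      linarith

end Pool.Agent.Run7.h442.BA
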