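import Pool.Agent.Run7.h442.BA.Dd
import Pool.Agent.W788.MF2.FormG

/-! Project BA: the quadratic form of the potential, and the fourth moment bound. -/

set_option autoImplicit false
set_option linter.unusedSectionVars false

open scoped BigOperators Matrix
open MeasureTheory

namespace Pool.Agent.Run7.h442.BA

open Pool.Agent.W788.BK (PP nsq nsq_nonneg nsq_eq nsq_smul cs_star cs_norm adjoint nsq_eq_zero
  nsq_star Low hi)
open Pool.Agent.W788.MFP.Four (T e NN adj e_comm e_add_left e_add e_zero e_neg e_neg_left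
  e_normSq sum_e NN_pos card_T ft q)

variable {d L : ℕ} [NeZero L]

theorem sqrtN_pos : 0 < Real.sqrt (NN d L) := Real.sqrt_pos.2 NN_pos

/-- the Fourier transform of the values at the sites -/
theorem sum_pv (u : T d L → ℂ) (k : T d L) :
    ∑ x, pv u x * e k x = ((Real.sqrt (NN d L) : ℝ) : ℂ) * u k := by
  rw [← expand u k, Finset.mul_sum]
  refine Finset.sum_congr rfl fun x _ => ?_
  unfold av
  have h : ((Real.sqrt (NN d L) : ℝ) : ℂ) * (((Real.sqrt (NN d L))⁻¹ : ℝ) : ℂ) = 1 := by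
    rw [← Complex.ofReal_mul, mul_inv_cancel₀ sqrtN_pos.ne', Complex.ofReal_one]
  calc pv u x * e k x = (((Real.sqrt (NN d L) : ℝ) : ℂ) * (((Real.sqrt (NN d L))⁻¹ : ℝ) : ℂ)) *
        (pv u x * e k x) := by rw [h, one_mul]
    _ = _ := by ring

theorem ft_neg (f : T d L → ℝ) (k : T d L) : ft f (-k) = (starRingEnd ℂ) (ft f k) := by
  unfold ft
  rw [map_sum]
  refine Finset.sum_congr rfl fun x _ => ?_
  rw [map_mul, Complex.conj_ofReal, e_neg_left]

/-- real and imaginary parts -/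
theorem qform {J : T d L → ℝ} (hJe : ∀ k, J (-k) = J k) (u : T d L → ℂ) :
    q J (fun x => (pv u x).re) + q J (fun x => (pv u x).im) = jn J u := by
  set a : T d L → ℝ := fun x => (pv u x).re with ha
  set b : T d L → ℝ := fun x => (pv u x).im with hb
  have h1 : ∀ k, ft a k + Complex.I * ft b k = ((Real.sqrt (NN d L) : ℝ) : ℂ) * u k := by
    intro k
    rw [← sum_pv]
    unfold ft
    rw [Finset.mul_sum, ← Finset.sum_add_distrib]
    refine Finset.sum_congr rfl fun x _ => ?_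
    simp only [ha, hb]
    conv_rhs => rw [← Complex.re_add_im (pv u x)]
    ring
  have h2 : ∀ k, NN d L * (‖u k‖ ^ 2 + ‖u (-k)‖ ^ 2) = 2 * (‖ft a k‖ ^ 2 + ‖ft b k‖ ^ 2) := by
    intro k
    have e1 : NN d L * ‖u k‖ ^ 2 = ‖ft a k + Complex.I * ft b k‖ ^ 2 := by
      rw [h1, norm_mul, mul_pow, Complex.norm_real, Real.norm_eq_abs, sq_abs,
        Real.sq_sqrt NN_pos.le]
    have e2 : NN d L * ‖u (-k)‖ ^ 2 = ‖ft a k - Complex.I * ft b k‖ ^ 2 := by
      have h3 := h1 (-k)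
      rw [ft_neg, ft_neg] at h3
      have h4 : (starRingEnd ℂ) (ft a k) + Complex.I * (starRingEnd ℂ) (ft b k) =
          (starRingEnd ℂ) (ft a k - Complex.I * ft b k) := by
        rw [map_sub, map_mul, Complex.conj_I]; ring
      rw [h4] at h3
      have h5 := congrArg norm h3
      rw [RCLike.norm_conj, norm_mul, Complex.norm_real, Real.norm_eq_abs,
        abs_of_pos sqrtN_pos] at h5
      rw [h5, mul_pow, Real.sq_sqrt NN_pos.le]
    have e3 := parallelogram_law_with_norm ℂ (ft a k) (Complex.I * ft b k)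
    rw [norm_mul, Complex.norm_I, one_mul] at e3
    rw [mul_add, e1, e2]
    nlinarith [e3]
  have h3 : jn J u = 1 / 2 * ∑ k, J k * (‖u k‖ ^ 2 + ‖u (-k)‖ ^ 2) := by
    have h4 : ∑ k, J k * ‖u (-k)‖ ^ 2 = jn J u := by
      unfold jn
      rw [← Equiv.sum_comp (Equiv.neg (T d L))]
      refine Finset.sum_congr rfl fun k _ => ?_
      simp only [Equiv.neg_apply, neg_neg]
      rw [hJe]
    simp only [mul_add, Finset.sum_add_distrib]
    rw [h4]
    unfold jn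
    ring
  rw [h3]
  unfold q
  rw [← mul_add, ← Finset.sum_add_distrib, Finset.mul_sum, Finset.mul_sum]
  refine Finset.sum_congr rfl fun k _ => ?_
  have h4 := h2 k
  have hN := (NN_pos (d := d) (L := L)).ne'
  have h5 : ‖u k‖ ^ 2 + ‖u (-k)‖ ^ 2 = (NN d L)⁻¹ * (2 * (‖ft a k‖ ^ 2 + ‖ft b k‖ ^ 2)) := by
    rw [← h4, ← mul_assoc, inv_mul_cancel₀ hN, one_mul]
  rw [h5]
  ring

/-- the complex form bound -/
theorem vq_le {V : T d L → ℝ} {J : T d L → ℝ} (hJe : ∀ k, J (-k) = J k) {t : ℝ}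
    (h : ∀ v : T d L → ℝ, |∑ x, V x * v x ^ 2| ≤ t * q J v) (u : T d L → ℂ) :
    |vq V u| ≤ t * jn J u := by
  rw [← qform hJe, mul_add]
  have h1 : vq V u = ∑ x, V x * (pv u x).re ^ 2 + ∑ x, V x * (pv u x).im ^ 2 := by
    unfold vq
    rw [← Finset.sum_add_distrib]
    refine Finset.sum_congr rfl fun x _ => ?_
    rw [← Complex.normSq_eq_norm_sq, Complex.normSq_apply]
    ring
  rw [h1]
  exact (abs_add_le _ _).trans (add_le_add (h _) (h _))

/-- the value at a site -/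
theorem pv_jn {J : T d L → ℝ} (hJ : ∀ k, 0 < J k) {g : ℝ}
    (hg : (NN d L)⁻¹ * ∑ k, (J k)⁻¹ ≤ g) (u : T d L → ℂ) (y : T d L) :
    ‖pv u y‖ ^ 2 ≤ g * jn J u := by
  have h1 := cs_J (J := fun k => (J k)⁻¹) (fun k => inv_pos.2 (hJ k)) (av y) u
  simp only [inv_inv] at h1
  have h2 : jn (fun k => (J k)⁻¹) (av y) = (NN d L)⁻¹ * ∑ k, (J k)⁻¹ := by
    unfold jn av
    rw [Finset.mul_sum]
    refine Finset.sum_congr rfl fun k _ => ?_
    rw [norm_mul, e_norm, mul_one, Complex.norm_real, Real.norm_eq_abs, sq_abs, inv_pow,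
      Real.sq_sqrt NN_pos.le]
    ring
  rw [h2] at h1
  have h0 : 0 ≤ (NN d L)⁻¹ * ∑ k, (J k)⁻¹ := mul_nonneg (inv_nonneg.2 NN_pos.le)
    (Finset.sum_nonneg fun k _ => (inv_pos.2 (hJ k)).le)
  have h3 : ‖pv u y‖ ^ 2 ≤ ((NN d L)⁻¹ * ∑ k, (J k)⁻¹) * jn J u := by
    have h4 := pow_le_pow_left₀ (norm_nonneg _) h1 2
    rw [mul_pow, Real.sq_sqrt h0, Real.sq_sqrt (jn_nonneg hJ u)] at h4
    exact h4
  exact h3.trans (mul_le_mul_of_nonneg_right hg (jn_nonneg hJ u))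

/-- the fourth moment bound -/
theorem four {J : T d L → ℝ} (hJ : ∀ k, 0 < J k) {δ θ Qθ Cl : ℝ} (hδ : 0 < δ) (hQ0 : 0 ≤ Qθ)
    (hJδ : ∀ k, δ ≤ J k)
    (hQ : ∀ P : T d L, ¬ Low θ P → ∑ k, (J k * J (k + P))⁻¹ ≤ Qθ * NN d L)
    (hl : ∑ P : T d L, (1 - hi θ P) ≤ Cl * NN d L) (u : T d L → ℂ) :
    ∑ y, ‖pv u y‖ ^ 4 ≤ (Qθ + Cl / δ ^ 2) * jn J u ^ 2 := by
  classical
  set c : T d L → ℂ := fun P => ∑ p, u (p + P) * (starRingEnd ℂ) (u p) with hc
  have hN := NN_pos (d := d) (L := L)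
  -- the square of the modulus
  have e1 : ∀ y, ((‖pv u y‖ ^ 2 : ℝ) : ℂ) = (((Real.sqrt (NN d L))⁻¹ : ℝ) : ℂ) * pv c y := by
    intro y
    rw [← Complex.normSq_eq_norm_sq, ← Complex.mul_conj, ← star_dot_av]
    unfold pv dotProduct
    rw [Finset.sum_mul_sum, Finset.mul_sum]
    have h1 : ∀ P, (((Real.sqrt (NN d L))⁻¹ : ℝ) : ℂ) * (star (av y) P * c P) =
        ∑ p, star (av y) (p + P) * u (p + P) * (star u p * av y p) := by
      intro P
      simp only [hc, Finset.mul_sum]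
      refine Finset.sum_congr rfl fun p _ => ?_
      simp only [Pi.star_apply, RCLike.star_def]
      unfold av
      rw [map_mul, map_mul, Complex.conj_ofReal, e_add_left, map_mul]
      have h2 := e_normSq p y
      linear_combination (-((((Real.sqrt (NN d L))⁻¹ : ℝ) : ℂ) *
        ((((Real.sqrt (NN d L))⁻¹ : ℝ) : ℂ) * (starRingEnd ℂ) (e P y)) * u (p + P) *
          (starRingEnd ℂ) (u p))) * h2
    simp only [h1]
    rw [Finset.sum_comm]
    conv_rhs => rw [Finset.sum_comm]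
    refine Finset.sum_congr rfl fun p _ => ?_
    exact (Equiv.sum_comp (Equiv.addLeft p) (fun k => star (av y) k * u k * (star u p * av y p))).symm
  have e2 : ∑ y, ‖pv u y‖ ^ 4 = (NN d L)⁻¹ * nsq c := by
    rw [← parseval_sq, Finset.mul_sum]
    refine Finset.sum_congr rfl fun y _ => ?_
    have h2 := congrArg norm (e1 y)
    rw [norm_mul, Complex.norm_real, Complex.norm_real, Real.norm_eq_abs, Real.norm_eq_abs,
      abs_of_nonneg (sq_nonneg _), abs_of_pos (inv_pos.2 sqrtN_pos)] at h2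
    calc ‖pv u y‖ ^ 4 = (‖pv u y‖ ^ 2) ^ 2 := by ring
      _ = _ := by rw [h2, mul_pow, inv_pow, Real.sq_sqrt hN.le]
  -- estimate of the coefficients
  have hc1 : ∀ P, ‖c P‖ ≤ ∑ p, ‖u (p + P)‖ * ‖u p‖ := fun P => by
    simp only [hc]
    refine (norm_sum_le _ _).trans (Finset.sum_le_sum fun p _ => ?_)
    rw [norm_mul, RCLike.norm_conj]
  set D : T d L → ℝ := fun P => ∑ p, (J (p + P) * ‖u (p + P)‖ ^ 2) * (J p * ‖u p‖ ^ 2) with hD
  have hD0 : ∀ P, 0 ≤ D P := fun P => Finset.sum_nonneg fun p _ =>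
    mul_nonneg (mul_nonneg (hJ _).le (sq_nonneg _)) (mul_nonneg (hJ _).le (sq_nonneg _))
  have hDs : ∑ P, D P = jn J u ^ 2 := by
    simp only [hD]
    rw [Finset.sum_comm, sq]
    have h9 : jn J u * jn J u = ∑ p, (J p * ‖u p‖ ^ 2) * jn J u := by
      conv_lhs => rw [jn, Finset.sum_mul]
      rfl
    rw [h9]
    refine Finset.sum_congr rfl fun p _ => ?_
    rw [← Finset.sum_mul]
    have := Equiv.sum_comp (Equiv.addLeft p) (fun k => J k * ‖u k‖ ^ 2)
    simp only [Equiv.coe_addLeft] at this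
    rw [this, mul_comm]
    rfl
  have hcs : ∀ P, ‖c P‖ ^ 2 ≤ (∑ k, (J k * J (k + P))⁻¹) * D P := by
    intro P
    have h3 := Finset.sum_mul_sq_le_sq_mul_sq Finset.univ
      (fun p => Real.sqrt ((J p * J (p + P))⁻¹))
      (fun p => Real.sqrt (J p * J (p + P)) * (‖u (p + P)‖ * ‖u p‖))
    have e3 : ∑ p, Real.sqrt ((J p * J (p + P))⁻¹) *
        (Real.sqrt (J p * J (p + P)) * (‖u (p + P)‖ * ‖u p‖)) = ∑ p, ‖u (p + P)‖ * ‖u p‖ := by
      refine Finset.sum_congr rfl fun p _ => ?_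
      have h4 : 0 < J p * J (p + P) := mul_pos (hJ _) (hJ _)
      rw [← mul_assoc, Real.sqrt_inv, inv_mul_cancel₀ (Real.sqrt_pos.2 h4).ne', one_mul]
    have e4 : ∑ p, Real.sqrt ((J p * J (p + P))⁻¹) ^ 2 = ∑ k, (J k * J (k + P))⁻¹ :=
      Finset.sum_congr rfl fun p _ => Real.sq_sqrt (inv_nonneg.2 (mul_pos (hJ _) (hJ _)).le)
    have e5 : ∑ p, (Real.sqrt (J p * J (p + P)) * (‖u (p + P)‖ * ‖u p‖)) ^ 2 = D P := by
      simp only [hD]
      refine Finset.sum_congr rfl fun p _ => ?_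
      rw [mul_pow, Real.sq_sqrt (mul_pos (hJ _) (hJ _)).le]
      ring
    rw [e3, e4, e5] at h3
    exact (pow_le_pow_left₀ (norm_nonneg _) (hc1 P) 2).trans h3
  have hlow : ∀ P, ‖c P‖ ^ 2 ≤ jn J u ^ 2 / δ ^ 2 := by
    intro P
    have h4 : ∑ p, ‖u (p + P)‖ * ‖u p‖ ≤ nsq u := by
      have h5 : ∑ p, ‖u (p + P)‖ * ‖u p‖ ≤ ∑ p, (‖u (p + P)‖ ^ 2 + ‖u p‖ ^ 2) / 2 :=
        Finset.sum_le_sum fun p _ => by nlinarith [sq_nonneg (‖u (p + P)‖ - ‖u p‖)]
      refine h5.trans (le_of_eq ?_)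
      rw [← Finset.sum_div, Finset.sum_add_distrib]
      have := Equiv.sum_comp (Equiv.addRight P) (fun k => ‖u k‖ ^ 2)
      simp only [Equiv.coe_addRight] at this
      rw [this]
      unfold nsq
      ring
    have h6 : δ * nsq u ≤ jn J u := by
      unfold nsq jn
      rw [Finset.mul_sum]
      exact Finset.sum_le_sum fun k _ => mul_le_mul_of_nonneg_right (hJδ k) (sq_nonneg _)
    rw [le_div_iff₀ (by positivity)]
    calc ‖c P‖ ^ 2 * δ ^ 2 = (δ * ‖c P‖) ^ 2 := by ring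
      _ ≤ (jn J u) ^ 2 := by
        apply pow_le_pow_left₀ (by positivity)
        refine (mul_le_mul_of_nonneg_left ((hc1 P).trans h4) hδ.le).trans h6
  rw [e2]
  have h7 : nsq c ≤ ∑ P, (Qθ * NN d L * D P + (1 - hi θ P) * (jn J u ^ 2 / δ ^ 2)) := by
    unfold nsq
    refine Finset.sum_le_sum fun P _ => ?_
    by_cases hP : Low θ P
    · have h8 : hi θ P = 0 := by unfold hi; rw [if_pos hP]
      rw [h8, sub_zero, one_mul]
      have h9 : 0 ≤ Qθ * NN d L * D P := mul_nonneg (mul_nonneg hQ0 hN.le) (hD0 P)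
      linarith [hlow P]
    · have h8 : hi θ P = 1 := by unfold hi; rw [if_neg hP]
      rw [h8, sub_self, zero_mul, add_zero]
      exact (hcs P).trans (mul_le_mul_of_nonneg_right (hQ P hP) (hD0 P))
  have h10 : nsq c ≤ Qθ * NN d L * jn J u ^ 2 + Cl * NN d L * (jn J u ^ 2 / δ ^ 2) := by
    refine h7.trans ?_
    rw [Finset.sum_add_distrib, ← Finset.mul_sum, hDs, ← Finset.sum_mul]
    have : 0 ≤ jn J u ^ 2 / δ ^ 2 := by positivity
    gcongr
  calc (NN d L)⁻¹ * nsq c ≤ (NN d L)⁻¹ *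
        (Qθ * NN d L * jn J u ^ 2 + Cl * NN d L * (jn J u ^ 2 / δ ^ 2)) :=
        mul_le_mul_of_nonneg_left h10 (inv_nonneg.2 hN.le)
    _ = _ := by field_simp

end Pool.Agent.Run7.h442.BA
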