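import Pool.Agent.Run7.h442.BA.GappC

/-! Project BA: the gap. -/

set_option autoImplicit false

namespace Pool.Agent.Run7.h442.BA

open MeasureTheory Filter Pool.Agent.W792.LL Pool.Agent.W792.WA Pool.Agent.N659.HB
open Pool.Agent.W788.MFP.Four (T e NN adj)
open Pool.Agent.W788.BK (PP nsq)
open Pool.Agent.N163.HB.GAPA
open scoped Topology Matrix

noncomputable section

/-- the numbers -/
theorem nums {lam cL D CK r η : ℝ} (h0 : 0 < lam) (h20 : 20 * lam ≤ 1) (hη : lam ^ 3 ≤ η)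
    (hr : lam ^ 4 ≤ r) (hcL : lam ≤ cL) (hD1 : 1 ≤ D) (hD2 : D ^ 2 * lam ≤ 1)
    (hK : 256 * D ^ 4 * CK * lam ≤ 1) (hCK : 1 ≤ CK) (hD3 : 8 * D * lam ≤ 1)
    (hD4 : 8 * D ^ 2 * (D + 1) ^ 2 * lam ≤ 1) :
    0 < gz cL η r D ∧ 0 < Lz cL η r D CK ∧ 0 < hz cL η r D CK ∧
    (1 + (8 * D * Lz cL η r D CK + 2 / hz cL η r D CK)) /
      (η / 20 * (2 * (η * r ^ 2 / (16 * D ^ 2)) / (D + 1) ^ 2)) ≤ lam⁻¹ ^ 134 := by
  have hη0 : 0 < η := lt_of_lt_of_le (by positivity) hη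
  have hr0 : 0 < r := lt_of_lt_of_le (by positivity) hr
  have hcL0 : 0 < cL := lt_of_lt_of_le h0 hcL
  have hD0 : 0 < D := by linarith
  have hCK0 : 0 < CK := by linarith
  have hg0 : 0 < gz cL η r D := by unfold gz; positivity
  have hL0 : 0 < Lz cL η r D CK := by unfold Lz; positivity
  have hh0 : 0 < hz cL η r D CK := by unfold hz; positivity
  refine ⟨hg0, hL0, hh0, ?_⟩
  have ht : 20 ≤ lam⁻¹ := by
    rw [le_inv_comm₀ (by norm_num) h0]; linarith
  set t := lam⁻¹ with htd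
  have ht0 : 0 < t := by linarith
  have hlt : lam * t = 1 := mul_inv_cancel₀ h0.ne'
  have hlt' : ∀ n : ℕ, lam ^ n * t ^ n = 1 := fun n => by rw [← mul_pow, hlt, one_pow]
  -- g
  have hg : lam ^ 49 ≤ gz cL η r D := by
    unfold gz
    have h1 : lam ^ 8 ≤ η * r / D ^ 2 := by
      rw [le_div_iff₀ (by positivity)]
      calc lam ^ 8 * D ^ 2 = lam ^ 7 * (D ^ 2 * lam) := by ring
        _ ≤ lam ^ 7 * 1 := by gcongr
        _ = lam ^ 3 * lam ^ 4 := by ring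
        _ ≤ η * r := by gcongr
    calc lam ^ 49 = lam * (lam ^ 8) ^ 6 := by ring
      _ ≤ cL * (η * r / D ^ 2) ^ 6 := by gcongr
  have hLz : Lz cL η r D CK ≤ t ^ 67 := by
    unfold Lz
    rw [div_le_iff₀ (by positivity)]
    have h1 : lam ^ 66 ≤ η ^ 3 * r ^ 2 * gz cL η r D := by
      calc lam ^ 66 = (lam ^ 3) ^ 3 * (lam ^ 4) ^ 2 * lam ^ 49 := by ring
        _ ≤ _ := by gcongr
    have h2 : 256 * D ^ 4 * CK ≤ t := by
      calc 256 * D ^ 4 * CK = (256 * D ^ 4 * CK * lam) * t := by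
            rw [mul_assoc _ lam t, hlt, mul_one]
        _ ≤ 1 * t := by gcongr
        _ = t := one_mul t
    calc 256 * D ^ 4 * CK ≤ t := h2
      _ = t ^ 67 * lam ^ 66 := by
        rw [show t ^ 67 * lam ^ 66 = t * (lam ^ 66 * t ^ 66) by ring, hlt', mul_one]
      _ ≤ _ := by gcongr
  have hh : 2 / hz cL η r D CK ≤ t ^ 117 := by
    have h1 : 2 / hz cL η r D CK = 16 * Lz cL η r D CK / gz cL η r D := by
      unfold hz; field_simp; norm_num
    rw [h1, div_le_iff₀ hg0]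
    calc 16 * Lz cL η r D CK ≤ t * t ^ 67 := by gcongr; linarith
      _ = t ^ 117 * lam ^ 49 := by
        rw [show t ^ 117 * lam ^ 49 = t * t ^ 67 * (lam ^ 49 * t ^ 49) by ring, hlt', mul_one]
      _ ≤ _ := by gcongr
  have hD8 : 8 * D * Lz cL η r D CK ≤ t ^ 68 := by
    have h2 : 8 * D ≤ t := by
      calc 8 * D = (8 * D * lam) * t := by rw [mul_assoc _ lam t, hlt, mul_one]
        _ ≤ 1 * t := by gcongr
        _ = t := one_mul t
    calc 8 * D * Lz cL η r D CK ≤ t * t ^ 67 := by gcongr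
      _ = t ^ 68 := by ring
  have hnum : 1 + (8 * D * Lz cL η r D CK + 2 / hz cL η r D CK) ≤ t ^ 118 := by
    have h1 : (1 : ℝ) ≤ t ^ 117 := one_le_pow₀ (by linarith)
    have h2 : t ^ 68 ≤ t ^ 117 := pow_le_pow_right₀ (by linarith) (by norm_num)
    calc _ ≤ t ^ 117 + (t ^ 117 + t ^ 117) := by linarith
      _ = 3 * t ^ 117 := by ring
      _ ≤ t * t ^ 117 := by gcongr; linarith
      _ = t ^ 118 := by ring
  have hden : lam ^ 16 ≤ η / 20 * (2 * (η * r ^ 2 / (16 * D ^ 2)) / (D + 1) ^ 2) := by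
    have h1 : lam ^ 4 ≤ η / 20 := by
      rw [le_div_iff₀ (by norm_num)]
      calc lam ^ 4 * 20 = lam ^ 3 * (20 * lam) := by ring
        _ ≤ lam ^ 3 * 1 := by gcongr
        _ ≤ η := by linarith
    have h2 : lam ^ 12 ≤ 2 * (η * r ^ 2 / (16 * D ^ 2)) / (D + 1) ^ 2 := by
      rw [le_div_iff₀ (by positivity)]
      have h3 : 2 * (η * r ^ 2 / (16 * D ^ 2)) = η * r ^ 2 / (8 * D ^ 2) := by
        field_simp; norm_num
      rw [h3, le_div_iff₀ (by positivity)]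
      calc lam ^ 12 * (D + 1) ^ 2 * (8 * D ^ 2) = lam ^ 11 * (8 * D ^ 2 * (D + 1) ^ 2 * lam) := by
            ring
        _ ≤ lam ^ 11 * 1 := by gcongr
        _ = lam ^ 3 * (lam ^ 4) ^ 2 := by ring
        _ ≤ _ := by gcongr
    calc lam ^ 16 = lam ^ 4 * lam ^ 12 := by ring
      _ ≤ _ := by gcongr
  rw [div_le_iff₀ (lt_of_lt_of_le (by positivity) hden)]
  calc _ ≤ t ^ 118 := hnum
    _ = t ^ 134 * lam ^ 16 := by
      rw [show t ^ 134 * lam ^ 16 = t ^ 118 * (lam ^ 16 * t ^ 16) by ring, hlt', mul_one]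
    _ ≤ _ := by gcongr

/-- constant phases -/
theorem HL_const {d : ℕ} {Λ h₀ : ℝ} {c : ℂ} (hc : ‖c‖ ≤ 1) :
    HL Λ h₀ (ContinuousMap.const (UnitAddTorus (Fin d)) c) := by
  intro h _ k
  simp only [ContinuousMap.const_apply, sub_self, norm_zero]
  have h1 : 0 ≤ 1 - ‖c‖ ^ 2 := by nlinarith [norm_nonneg c]
  rw [zero_pow two_ne_zero]
  exact mul_nonneg (sq_nonneg _) (mul_nonneg h1 h1)

/-- The gap for a first level below the kinetic scale. -/
theorem gapp (hTOR : S_TOR) (hLIP : S_LIPZ) (hXB : S_XB) (hTRA : S_TRA) (hCYL : S_CYL)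
    (hZR : S_ZR) (hUX : S_UX) (hCX : S_CX) (hPSI : S_PSI) (hFIX : S_FIX) (hCAY : S_CAY) :
    S_GAPP := by
  intro d ν _ C₀ a₁ a₂ γ κ hd hb hm hat ha1 ha12 ha2 hγdef hκ1 hκ2
  have hd0 : 0 < d := by omega
  have hd1 : (0 : ℝ) < d := by exact_mod_cast hd0
  have hC0 : 0 ≤ C₀ := by
    obtain ⟨x, hx⟩ := hb.exists
    exact (abs_nonneg x).trans hx
  have ha' : 0 < a₂ - a₁ := by linarith
  have hγ1 : 1 ≤ γ := by rw [hγdef, le_div_iff₀ ha']; linarith
  have hγ : 0 < γ := by linarith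
  have hC01 : 0 < C₀ + 1 := by linarith
  set C₁ : ℝ := γ * (C₀ + 1) with hC₁
  have hC1 : 0 < C₁ := by positivity
  set s₂ : ℝ := ∫ x, (x / (C₀ + 1)) ^ 2 ∂ν with hs₂
  have hint : Integrable (fun x : ℝ => (x / (C₀ + 1)) ^ 2) ν := by
    refine Integrable.of_bound (C := 1) (by fun_prop) ?_
    filter_upwards [hb] with x hx
    rw [Real.norm_eq_abs, abs_pow, abs_div, abs_of_pos hC01]
    exact pow_le_one₀ (by positivity) ((div_le_one hC01).2 (by linarith))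
  have hs1 : s₂ ≤ 1 := by
    have h := integral_mono_ae hint (integrable_const (1 : ℝ)) (by
      filter_upwards [hb] with x hx
      rw [← sq_abs, abs_div, abs_of_pos hC01]
      exact pow_le_one₀ (by positivity) ((div_le_one hC01).2 (by linarith)))
    simpa using h
  have hs0 : 0 < s₂ := by
    have h0 : 0 ≤ s₂ := integral_nonneg fun x => sq_nonneg _
    rcases h0.lt_or_eq with h | h
    · exact h
    · exfalso
      have h1 := (integral_eq_zero_iff_of_nonneg (μ := ν) (f := fun x : ℝ => (x / (C₀ + 1)) ^ 2)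
        (fun x => sq_nonneg _) hint).1 h.symm
      have h2 : ∀ᵐ x ∂ν, x = 0 := by
        filter_upwards [h1] with x hx
        simp only [Pi.zero_apply] at hx
        have := pow_eq_zero_iff (two_ne_zero) |>.1 hx
        rw [div_eq_zero_iff] at this
        rcases this with h3 | h3
        · exact h3
        · linarith
      have h3 : ν {0} = 1 := by
        rw [← prob_compl_eq_zero_iff (measurableSet_singleton 0)]
        exact ae_iff.1 h2
      have := hat 0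
      rw [h3] at this
      exact lt_irrefl _ this
  obtain ⟨c₁, hc1, u, hu, hu2, hT⟩ := hTOR d (a₁ / 2) ((a₂ + 4 * d) / 2) γ C₁ s₂ κ hd (by linarith)
    (by linarith) (by linarith) hγ1 hC1 hs0 hs1 hκ1 hκ2
  obtain ⟨cL, hcL0, -, hcL⟩ := hLIP
  obtain ⟨C, p, hC, htra⟩ := hTRA d
  obtain ⟨D, hDd⟩ : ∃ D : ℝ, D = 8 * d * γ + 3 := ⟨_, rfl⟩
  obtain ⟨CK, hCKd⟩ : ∃ CK : ℝ, CK = 4 * Real.pi * γ := ⟨_, rfl⟩
  obtain ⟨CE, hCEd⟩ : ∃ CE : ℝ, CE = 25 * γ ^ 2 / c₁ + 1 := ⟨_, rfl⟩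
  obtain ⟨cA, hcAd⟩ : ∃ cA : ℝ, cA = c₁ * γ ^ 2 / 1152 := ⟨_, rfl⟩
  have hD1 : 1 ≤ D := by
    have : 0 ≤ 8 * d * γ := by positivity
    rw [hDd]; linarith
  have hCK1 : 1 ≤ CK := by
    rw [hCKd]
    have := Real.pi_gt_three
    calc (1 : ℝ) ≤ 4 * 3 * 1 := by norm_num
      _ ≤ 4 * Real.pi * γ := by gcongr
  have hCE : 0 < CE := by rw [hCEd]; positivity
  have hcA : 0 < cA := by rw [hcAd]; positivity
  obtain ⟨l0, hl0, hl1, hT2⟩ := hT CE cA (134 * p + 22) hCE hcA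
  have hmn : 0 < min a₁ (4 * d - a₂) := lt_min ha1 (by linarith)
  -- the conditions
  have hev : ∀ᶠ lam in 𝓝[>] (0 : ℝ), (0 < lam ∧ lam ≤ 1 / 2) ∧ lam ≤ l0 ∧
      20 * lam ^ (1 : ℝ) ≤ 1 ∧ (2 / c₁) * lam ^ (1 : ℝ) ≤ 1 ∧ (1 / cL) * lam ^ (1 : ℝ) ≤ 1 ∧
      D ^ 2 * lam ^ (1 : ℝ) ≤ 1 ∧ (256 * D ^ 4 * CK) * lam ^ (1 : ℝ) ≤ 1 ∧
      (8 * D) * lam ^ (1 : ℝ) ≤ 1 ∧ (8 * D ^ 2 * (D + 1) ^ 2) * lam ^ (1 : ℝ) ≤ 1 ∧
      (100 * γ / c₁) * lam ^ κ ≤ 1 ∧ (c₁ / 2) * lam ^ u ≤ 1 ∧ (13 * d * γ) * lam ^ (1 : ℝ) ≤ 1 ∧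
      cA * lam ^ κ ≤ 1 ∧ (γ / min a₁ (4 * d - a₂)) * lam ^ (1 : ℝ) ≤ 1 ∧
      C * lam ^ (1 : ℝ) ≤ 1 := by
    have h2 : ∀ᶠ lam in 𝓝[>] (0 : ℝ), lam ≤ l0 := by
      have h : Set.Ioc (0 : ℝ) l0 ∈ 𝓝[>] (0 : ℝ) := Ioc_mem_nhdsGT hl0
      filter_upwards [h] with lam hl
      exact hl.2
    have o : (0 : ℝ) < 1 := one_pos
    have k0 : 0 < κ := by linarith
    filter_upwards [Pw.ev_one, h2, Pw.ev_mul 20 1 o, Pw.ev_mul (2 / c₁) 1 o,
      Pw.ev_mul (1 / cL) 1 o, Pw.ev_mul (D ^ 2) 1 o, Pw.ev_mul (256 * D ^ 4 * CK) 1 o,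
      Pw.ev_mul (8 * D) 1 o, Pw.ev_mul (8 * D ^ 2 * (D + 1) ^ 2) 1 o,
      Pw.ev_mul (100 * γ / c₁) κ k0, Pw.ev_mul (c₁ / 2) u hu, Pw.ev_mul (13 * d * γ) 1 o,
      Pw.ev_mul cA κ k0, Pw.ev_mul (γ / min a₁ (4 * d - a₂)) 1 o, Pw.ev_mul C 1 o]
      with lam g1 g2 g3 g4 g5 g6 g7 g8 g9 g10 g11 g12 g13 g14 g15
    exact ⟨g1, g2, g3, g4, g5, g6, g7, g8, g9, g10, g11, g12, g13, g14, g15⟩
  obtain ⟨lam₀, hlam0, hlam1, hlam⟩ := Pw.ex_lam hev
  refine ⟨lam₀, hlam0, hlam1, fun lam h0 hle ψ hψ _ => ?_⟩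
  obtain ⟨⟨-, h12⟩, g2, g3, g4, g5, g6, g7, g8, g9, g10, g11, g12, g13, g14, g15⟩ := hlam lam h0 hle
  rw [Real.rpow_one] at g3 g4 g5 g6 g7 g8 g9 g12 g14 g15
  have h1 : lam ≤ 1 := by linarith
  have hκ0 : 0 < κ := by linarith
  -- the numbers
  obtain ⟨r, hr⟩ : ∃ r : ℝ, r = γ * (lam ^ (2 + κ) / 2) := ⟨_, rfl⟩
  obtain ⟨η, hη⟩ : ∃ η : ℝ, η = c₁ * lam ^ 2 / 2 := ⟨_, rfl⟩
  obtain ⟨R, hR⟩ : ∃ R : ℝ, R = lam ^ (2 - u) := ⟨_, rfl⟩
  rw [← hr]
  have p2κ := Pw.pos h0 (2 + κ)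
  have hr0 : 0 < r := by rw [hr]; positivity
  have hη0 : 0 < η := by rw [hη]; positivity
  have hR0 : 0 < R := by rw [hR]; exact Pw.pos h0 _
  have e2 : lam ^ 2 = lam ^ (2 : ℝ) := by
    rw [← Real.rpow_natCast]; norm_num
  have h100 : 100 * r ≤ η := by
    rw [hr, hη, e2]
    have h3 : lam ^ (2 + κ) = lam ^ κ * lam ^ (2 : ℝ) := by rw [Pw.mul h0]; congr 1; ring
    have p2 := Pw.pos h0 2
    have h4 : 100 * γ * lam ^ κ ≤ c₁ := by
      have := mul_le_mul_of_nonneg_left g10 hc1.le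
      calc 100 * γ * lam ^ κ = c₁ * (100 * γ / c₁ * lam ^ κ) := by field_simp
        _ ≤ c₁ * 1 := this
        _ = c₁ := mul_one _
    rw [h3]
    calc 100 * (γ * (lam ^ κ * lam ^ (2 : ℝ) / 2)) = (100 * γ * lam ^ κ) * lam ^ (2 : ℝ) / 2 := by
          ring
      _ ≤ c₁ * lam ^ (2 : ℝ) / 2 := by gcongr
  have hηR : η ≤ R := by
    rw [hη, hR, e2]
    have h3 : lam ^ (2 : ℝ) = lam ^ u * lam ^ (2 - u) := by rw [Pw.mul h0]; congr 1; ring
    have p2 := Pw.pos h0 (2 - u)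
    calc c₁ * lam ^ (2 : ℝ) / 2 = (c₁ / 2 * lam ^ u) * lam ^ (2 - u) := by rw [h3]; ring
      _ ≤ 1 * lam ^ (2 - u) := by gcongr
      _ = _ := one_mul _
  have hu1 : u ≤ 1 := by linarith
  have hRl : R ≤ lam := by
    rw [hR]
    calc lam ^ (2 - u) ≤ lam ^ (1 : ℝ) := Pw.anti h0 h1 (by linarith)
      _ = lam := Real.rpow_one _
  have hR4 : R ≤ 1 / 4 := by linarith
  have hη3 : lam ^ 3 ≤ η := by
    rw [hη, le_div_iff₀ (by norm_num)]
    have h3 : 2 * lam ≤ c₁ := by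
      have := mul_le_mul_of_nonneg_left g4 hc1.le
      calc 2 * lam = c₁ * (2 / c₁ * lam) := by field_simp
        _ ≤ c₁ * 1 := this
        _ = c₁ := mul_one _
    calc lam ^ 3 * 2 = (2 * lam) * lam ^ 2 := by ring
      _ ≤ c₁ * lam ^ 2 := by gcongr
  have hr4 : lam ^ 4 ≤ r := by
    have h3 : lam ^ 3 ≤ lam ^ (2 + κ) := by
      have : lam ^ 3 = lam ^ (3 : ℝ) := by rw [← Real.rpow_natCast]; norm_num
      rw [this]
      exact Pw.anti h0 h1 (by linarith)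
    rw [hr]
    calc lam ^ 4 = 1 * (lam ^ 3 * lam) := by ring
      _ ≤ γ * (lam ^ (2 + κ) * (1 / 2)) := by gcongr
      _ = _ := by ring
  have hcLl : lam ≤ cL := by
    have := mul_le_mul_of_nonneg_left g5 hcL0.le
    calc lam = cL * (1 / cL * lam) := by field_simp
      _ ≤ cL * 1 := this
      _ = cL := mul_one _
  obtain ⟨N1, N2, N3, N4⟩ := nums h0 g3 hη3 hr4 hcLl hD1 g6 g7 hCK1 g8 g9
  -- the size of the torus
  obtain ⟨L, hLd⟩ : ∃ L : ℕ, L = ⌈lam ^ (-(134 * p + 21 : ℝ))⌉₊ := ⟨_, rfl⟩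
  have hL1 : lam ^ (-(134 * p + 21 : ℝ)) ≤ L := by rw [hLd]; exact Nat.le_ceil _
  have hp0 : (0 : ℝ) ≤ p := Nat.cast_nonneg p
  have hL1' : lam ^ (-21 : ℝ) ≤ L := (Pw.anti h0 h1 (by linarith)).trans hL1
  have hLpos : (0 : ℝ) < L := (Pw.pos h0 _).trans_le hL1'
  have hLne : NeZero L := ⟨fun h => by rw [h] at hLpos; simp at hLpos⟩
  have hL2 : (L : ℝ) ≤ lam ^ (-(134 * p + 22 : ℝ)) := by
    have h3 : (L : ℝ) < lam ^ (-(134 * p + 21 : ℝ)) + 1 := by
      rw [hLd]; exact Nat.ceil_lt_add_one (Pw.pos h0 _).le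
    have h4 : 1 ≤ lam ^ (-(134 * p + 21 : ℝ)) := Pw.one_le h0 h1 (by linarith)
    have h5 : 2 * lam ^ (-(134 * p + 21 : ℝ)) ≤ lam ^ (-(134 * p + 22 : ℝ)) := by
      have h6 : lam ^ (-(134 * p + 21 : ℝ)) = lam ^ (-(134 * p + 22 : ℝ)) * lam := by
        conv_rhs => rw [← Real.rpow_one lam, ← Real.rpow_mul h0.le, one_mul, Pw.mul h0]
        congr 1; ring
      rw [h6]
      have := Pw.pos h0 (-(134 * p + 22 : ℝ))
      calc 2 * (lam ^ (-(134 * p + 22 : ℝ)) * lam) = lam ^ (-(134 * p + 22 : ℝ)) * (2 * lam) := by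
            ring
        _ ≤ lam ^ (-(134 * p + 22 : ℝ)) * 1 := by gcongr; linarith
        _ = _ := mul_one _
    linarith
  have hL20 : lam ^ (-20 : ℝ) ≤ L := (Pw.anti h0 h1 (by norm_num)).trans hL1'
  have hLd' : 13 * d * γ / L ≤ lam ^ (20 : ℝ) := by
    rw [div_le_iff₀ hLpos]
    have p20 := Pw.pos h0 20
    calc 13 * d * γ ≤ lam ^ (-1 : ℝ) := by
          rw [Real.rpow_neg_one, le_inv_comm₀ (by positivity) h0]
          rw [inv_eq_one_div, le_div_iff₀ (by positivity)]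
          linarith
      _ = lam ^ (20 : ℝ) * lam ^ (-21 : ℝ) := by rw [Pw.mul h0]; norm_num
      _ ≤ lam ^ (20 : ℝ) * L := by gcongr
  -- the law
  have hgl : 0 < γ * lam := by positivity
  have hm2 : Measurable fun x : ℝ => (γ * lam) * x := by fun_prop
  have hbd : ∀ᵐ x ∂(ν.map fun x => (γ * lam) * x), |x| ≤ C₁ * lam := by
    refine (ae_map_iff (p := fun x => |x| ≤ C₁ * lam) hm2.aemeasurable
      (measurableSet_le measurable_id.abs measurable_const)).2 ?_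
    filter_upwards [hb] with x hx
    rw [abs_mul, abs_of_pos hgl]
    calc γ * lam * |x| ≤ γ * lam * (C₀ + 1) := by gcongr; linarith
      _ = C₁ * lam := by rw [hC₁]; ring
  have hmean : ∫ x, x ∂(ν.map fun x => (γ * lam) * x) = 0 := by
    rw [integral_map hm2.aemeasurable (by fun_prop), integral_const_mul, hm, mul_zero]
  have hsec : ∫ x, x ^ 2 ∂(ν.map fun x => (γ * lam) * x) = s₂ * (C₁ * lam) ^ 2 := by
    rw [integral_map hm2.aemeasurable (by fun_prop), hs₂, ← integral_mul_const]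
    congr 1
    funext x
    rw [hC₁]
    field_simp
  have hvr : 0 < vr (ν.map fun x => (γ * lam) * x) := by
    refine Pool.Agent.N457.KS.Gapg.vr_pos hCAY (α := 1) _ hmean ?_
    simp only [div_one]
    rw [hsec]
    positivity
  have hσ : 0 < 2 * η / (R + 1) ^ 2 := by positivity
  refine ⟨2 * η / (R + 1) ^ 2, hσ, ?_⟩
  intro ρ' _ hρ' z hz s hs0
  obtain ⟨zr1, zr2, zr3, zr4⟩ := hZR d R η hη0 hηR
  suffices h : s ∈ ZR d R η from (zr3 s h).1
  obtain ⟨hz1, hz2, hz3, hz4⟩ := hz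
  have hprob : IsProbabilityMeasure (lev ψ r) := lev_prob ψ _
  have hsupp : ((lev ψ r).conv ρ') (Set.Icc (-(r + r / 8)) (r + r / 8))ᶜ = 0 :=
    conv_supp _ _ (lev_supp hψ hr0) hρ'
  obtain ⟨K, hKd⟩ : ∃ K : C(UnitAddTorus (Fin d), ℝ),
    K = γ • (lap d - ContinuousMap.const _ a₁) := ⟨_, rfl⟩
  rw [← hKd] at hs0
  obtain ⟨q0, hq0, hq1, hq⟩ := hCX.2.2.1 (r + r / 8) (‖K‖ + ‖z‖) z.im hz3
  have hmain := (hFIX (ν.map fun x => (γ * lam) * x) d ((lev ψ r).conv ρ') (r + r / 8) q0 (wz K z)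
    hvr hsupp (hCX.2.2.2 d K z hz3.le) hq0 hq1 ?_).2.2
    (ZR d R η ∩ {s | HL (Lz cL η r D CK) (hz cL η r D CK) s})
    (zr1.inter (HL_closed _ _)) ?_ (fun s hs => hs.1.1) ?_ s hs0
  · exact hmain.1
  · intro k a ha
    refine hq _ a ?_ ?_ (abs_le.2 ha)
    · refine (norm_sub_le _ _).trans ?_
      rw [Complex.norm_real]
      linarith [K.norm_coe_le_norm k]
    · simp
  · -- nonempty
    have hS1 : (-(η : ℂ) * Complex.I).im = -η := by simp
    have hS2 : ‖(-(η : ℂ) * Complex.I)‖ = η := by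
      rw [norm_mul, norm_neg, Complex.norm_I, mul_one, Complex.norm_real, Real.norm_of_nonneg hη0.le]
    refine ⟨ContinuousMap.const _ (cayx (-(η : ℂ) * Complex.I) 0), ?_, ?_⟩
    · refine zr4 _ (ContinuousMap.const _ (-(η : ℂ) * Complex.I)) fun k => ⟨rfl, ?_, ?_⟩
      · rw [ContinuousMap.const_apply, hS2]; exact hηR
      · rw [ContinuousMap.const_apply, hS1]
    · exact HL_const (hCX.1 _ 0 (by rw [hS1]; linarith)).1
  · rintro s ⟨hsZ, hsH⟩
    -- the mean of the small law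
    have hmb8 : |∫ a, a ∂ρ'| ≤ r / 8 := mean_bd hρ'
    have hKk : ∀ k, K k = γ * (lap d k - a₁) := fun k => by rw [hKd]; rfl
    have hrl : γ * lam ≤ min a₁ (4 * d - a₂) := by
      have := mul_le_mul_of_nonneg_left g14 hmn.le
      calc γ * lam = min a₁ (4 * d - a₂) * (γ / min a₁ (4 * d - a₂) * lam) := by field_simp
        _ ≤ min a₁ (4 * d - a₂) * 1 := this
        _ = _ := mul_one _
    have hrl2 : r ≤ γ * lam / 2 := by
      rw [hr]
      have : lam ^ (2 + κ) ≤ lam := by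
        calc lam ^ (2 + κ) ≤ lam ^ (1 : ℝ) := Pw.anti h0 h1 (by linarith)
          _ = lam := Real.rpow_one _
      calc γ * (lam ^ (2 + κ) / 2) ≤ γ * (lam / 2) := by gcongr
        _ = _ := by ring
    have hmg : |(∫ a, a ∂ρ') / γ| ≤ r := by
      rw [abs_div, abs_of_pos hγ, div_le_iff₀ hγ]
      calc |∫ a, a ∂ρ'| ≤ r / 8 := hmb8
        _ ≤ r * 1 := by linarith
        _ ≤ r * γ := by gcongr
    have hm1 := min_le_left a₁ (4 * d - a₂)
    have hm3 := min_le_right a₁ (4 * d - a₂)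
    have hzg0 : 0 ≤ z.re / γ := by positivity
    have hzg1 : z.re / γ ≤ a₂ - a₁ := by
      rw [div_le_iff₀ hγ, hγdef]
      field_simp
      linarith
    have habs := abs_le.1 hmg
    have hst := step hXB hCYL hZR hUX hCX hPSI hcL hψ L (ν.map fun x => (γ * lam) * x)
      (a₁ := a₁) (γ := γ) (r := r) (η := η) (R := R) (D := D) (CK := CK)
      (eX := CE * lam ^ (2 + 2 * κ)) (A := cA * lam ^ (6 + 2 * κ)) (τ := η / 20)
      (Λ' := 8 * D * Lz cL η r D CK + 2 / hz cL η r D CK)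
      hγ1 hr0 h100 hηR hR4 hD1 hCK1 ρ' hρ' ?_ z hz3 ?_ ?_ ?_ ?_ ?_ ?_ ?_ ?_ ?_ ?_ ?_ N3 N2.le s hsZ hsH
    · rw [← hKd] at hst
      exact hst
    · -- Lipschitz
      intro h k
      rw [← hKd, hKk, hKk, ← mul_sub, abs_mul, abs_of_pos hγ, hCKd]
      have h3 := lap_lip h k
      have h4 : lap d (sft h k) - a₁ - (lap d k - a₁) = lap d (sft h k) - lap d k := by ring
      rw [h4]
      calc γ * |lap d (sft h k) - lap d k| ≤ γ * (4 * Real.pi * n1 h) := by gcongr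
        _ = _ := by ring
    · -- size
      intro k
      rw [← hKd]
      have h3 := lap_mem d k
      have h4 : ‖((K k : ℝ) : ℂ) - z‖ ≤ |K k| + (|z.re| + |z.im|) := by
        refine (norm_sub_le _ _).trans ?_
        rw [Complex.norm_real, Real.norm_eq_abs]
        gcongr
        exact Complex.norm_le_abs_re_add_abs_im z
      rw [abs_of_nonneg hz1, abs_of_pos hz3] at h4
      have h5 : |K k| ≤ γ * (4 * d) := by
        rw [hKk, abs_mul, abs_of_pos hγ]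
        gcongr
        rw [abs_le]
        constructor <;> linarith [h3.1, h3.2]
      have h6 : (4 : ℝ) * d ≤ γ * (4 * d) := le_mul_of_one_le_left (by positivity) hγ1
      rw [hDd]
      linarith
    · -- torus
      intro X hX1 hX2 hX3
      have hres := hT2 lam h0 g2 L hL20 (by
          refine hL2.trans (le_of_eq ?_)
          congr 1) (ν.map fun x => (γ * lam) * x) hbd hmean hsec
        (a₁ + z.re / γ - (∫ a, a ∂ρ') / γ) z.im X (by linarith [habs.2]) (by linarith [habs.1])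
        hz3.le hz4 hX1 hX2 (by rw [← hR]; exact hX3)
      intro k
      obtain ⟨r1, r2⟩ := hres k
      refine ⟨?_, ?_⟩
      · rw [hη]; linarith
      · rw [hR]; exact r2
    · -- transfer
      intro m k₀ j hmn' hml
      have hw : 0 < 2 * (η * r ^ 2 / (16 * D ^ 2)) / (D + 1) ^ 2 := by positivity
      have hq01 : 0 ≤ 1 - 2 * (η * r ^ 2 / (16 * D ^ 2)) / (D + 1) ^ 2 := (norm_nonneg _).trans hmn'
      have hL0' : 0 ≤ 8 * D * Lz cL η r D CK + 2 / hz cL η r D CK := by positivity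
      refine htra L (ν.map fun x => (γ * lam) * x) m _ _ (η / 20) k₀ j hq01 (by linarith) hmn' hL0'
        (by positivity) (by linarith) hml ?_
      rw [sub_sub_cancel]
      calc C * ((1 + (8 * D * Lz cL η r D CK + 2 / hz cL η r D CK)) /
          (η / 20 * (2 * (η * r ^ 2 / (16 * D ^ 2)) / (D + 1) ^ 2))) ^ p
          ≤ C * (lam⁻¹ ^ 134) ^ p := by
            have h3 : 0 ≤ (1 + (8 * D * Lz cL η r D CK + 2 / hz cL η r D CK)) /
              (η / 20 * (2 * (η * r ^ 2 / (16 * D ^ 2)) / (D + 1) ^ 2)) := by positivity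
            have := pow_le_pow_left₀ h3 N4 p
            gcongr
        _ = C * lam ^ (-(134 * p : ℝ)) := by
            congr 1
            rw [← pow_mul, Real.rpow_neg h0.le, inv_pow]
            congr 1
            rw [← Real.rpow_natCast]
            push_cast
            rfl
        _ = (C * lam) * lam ^ (-(134 * p + 1 : ℝ)) := by
            rw [mul_assoc]
            congr 1
            conv_rhs => rw [← Real.rpow_one lam, ← Real.rpow_mul h0.le, one_mul, Pw.mul h0]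
            congr 1; ring
        _ ≤ 1 * lam ^ (-(134 * p + 1 : ℝ)) := by
            have := Pw.pos h0 (-(134 * p + 1 : ℝ))
            gcongr
        _ ≤ lam ^ (-(134 * p + 21 : ℝ)) := by
            rw [one_mul]
            exact Pw.anti h0 h1 (by linarith)
        _ ≤ L := hL1
    · -- e1
      have h3 : 50 * r ^ 2 / η = 25 * γ ^ 2 / c₁ * lam ^ (2 + 2 * κ) := by
        have h4 : (lam ^ (2 + κ)) ^ 2 = lam ^ (2 + 2 * κ) * lam ^ 2 := by
          rw [Pw.pow h0, e2, Pw.mul h0]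
          congr 1
          push_cast
          ring
        rw [hr, hη, mul_pow, div_pow, h4]
        field_simp
        norm_num
      have h4 : 13 * d * γ / L ≤ lam ^ (2 + 2 * κ) :=
        hLd'.trans (Pw.anti h0 h1 (by linarith))
      rw [h3, hCEd, add_mul, one_mul]
      linarith
    · -- e2
      rw [hcAd, hη, hr]
      have h4 : (lam ^ (2 + κ)) ^ 2 * lam ^ 2 = lam ^ (6 + 2 * κ) := by
        rw [Pw.pow h0, e2, Pw.mul h0]
        congr 1
        push_cast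
        ring
      rw [← h4]
      apply le_of_eq
      ring
    · exact mul_nonneg hcA.le (Pw.pos h0 _).le
    · -- e3
      rw [hR, Pw.pow h0]
      calc cA * lam ^ (6 + 2 * κ) = (cA * lam ^ κ) * lam ^ (6 + κ) := by
            rw [mul_assoc, Pw.mul h0]; congr 2; ring
        _ ≤ 1 * lam ^ (6 + κ) := by
            have := Pw.pos h0 (6 + κ)
            gcongr
        _ ≤ lam ^ ((3 : ℕ) * (2 - u)) := by
            rw [one_mul]
            refine Pw.anti h0 h1 ?_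
            push_cast
            linarith
    · -- e4
      have h3 : 13 * d * γ / L ≤ R / 2 := by
        refine hLd'.trans ?_
        rw [hR]
        calc lam ^ (20 : ℝ) ≤ lam ^ (3 - u) := Pw.anti h0 h1 (by linarith)
          _ = lam ^ (2 - u) * lam := by
            conv_rhs => rw [← Real.rpow_one lam, ← Real.rpow_mul h0.le, one_mul, Pw.mul h0]
            congr 1; ring
          _ ≤ lam ^ (2 - u) * (1 / 2) := by
            have := Pw.pos h0 (2 - u)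
            gcongr
          _ = _ := by ring
      linarith
    · linarith
    · have : 0 ≤ 2 / hz cL η r D CK := by positivity
      linarith
    · have : 0 ≤ 8 * D * Lz cL η r D CK := by positivity
      linarith

end

end Pool.Agent.Run7.h442.BA
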