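import Pool.Agent.Run7.h442.BA.Stm

/-! Project BA: the gap, preparations. -/

set_option autoImplicit false

namespace Pool.Agent.Run7.h442.BA

open MeasureTheory Filter Pool.Agent.W792.LL Pool.Agent.W792.WA Pool.Agent.N659.HB
open Pool.Agent.W788.MFP.Four (T e NN adj)
open Pool.Agent.W788.BK (PP nsq)
open scoped Topology Matrix

noncomputable section

theorem cay_sub {S : ℂ} (hS : S.im < 1) :
    S - Complex.I ≠ 0 ∧ cayx S 0 - 1 = 2 * Complex.I / (S - Complex.I) ∧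
    cayx S 0 + 1 = 2 * S / (S - Complex.I) := by
  have h1 : S - Complex.I ≠ 0 := by
    intro h
    have := congrArg Complex.im h
    simp at this
    linarith
  refine ⟨h1, ?_, ?_⟩
  · unfold cayx
    rw [Complex.ofReal_zero, add_zero, div_sub_one h1]
    congr 1
    ring
  · unfold cayx
    rw [Complex.ofReal_zero, add_zero, div_add_one h1]
    congr 1
    ring

theorem cay_facts {S : ℂ} (hS : S.im < 1) :
    ‖cayx S 0 - 1‖ = 2 / ‖S - Complex.I‖ ∧ ‖cayx S 0 + 1‖ = ‖S‖ * ‖cayx S 0 - 1‖ ∧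
    1 - ‖cayx S 0‖ ^ 2 = -S.im * ‖cayx S 0 - 1‖ ^ 2 := by
  obtain ⟨h1, h2, h3⟩ := cay_sub hS
  have hn : 0 < ‖S - Complex.I‖ := norm_pos_iff.2 h1
  have e1 : ‖cayx S 0 - 1‖ = 2 / ‖S - Complex.I‖ := by
    rw [h2, norm_div, norm_mul, Complex.norm_I, mul_one]
    norm_num
  have e2 : ‖cayx S 0 + 1‖ = ‖S‖ * ‖cayx S 0 - 1‖ := by
    rw [e1, h3, norm_div, norm_mul]
    norm_num
    ring
  refine ⟨e1, e2, ?_⟩
  rw [e1]
  have e3 : ‖cayx S 0‖ ^ 2 = ‖S + Complex.I‖ ^ 2 / ‖S - Complex.I‖ ^ 2 := by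
    unfold cayx
    rw [Complex.ofReal_zero, add_zero, norm_div, div_pow]
  rw [e3, div_pow]
  field_simp
  rw [← Complex.normSq_eq_norm_sq, ← Complex.normSq_eq_norm_sq, Complex.normSq_apply,
    Complex.normSq_apply]
  simp
  ring

/-- transfer of the conditions -/
theorem zr_close {s Sg : ℂ} {τ R η : ℝ} (h1 : ‖Sg‖ ≤ R / 2) (h2 : Sg.im ≤ -(2 * η)) (hη : 0 < η)
    (hηR : η ≤ R) (hR : R ≤ 1 / 4) (hs : ‖s‖ ≤ 1) (hτ : ‖s - cayx Sg 0‖ ≤ τ)
    (hτη : 20 * τ ≤ η) : ‖s + 1‖ ≤ R * ‖s - 1‖ ∧ η * ‖s - 1‖ ^ 2 ≤ 1 - ‖s‖ ^ 2 := by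
  obtain ⟨e1, e2, e3⟩ := cay_facts (S := Sg) (by linarith)
  obtain ⟨h3, -, -⟩ := cay_sub (S := Sg) (by linarith)
  have hτ0 : 0 ≤ τ := (norm_nonneg _).trans hτ
  have hn : 0 < ‖Sg - Complex.I‖ := norm_pos_iff.2 h3
  have hn1 : ‖Sg - Complex.I‖ ≤ 9 / 8 := by
    refine (norm_sub_le _ _).trans ?_
    rw [Complex.norm_I]
    linarith
  have hb : 16 / 9 ≤ ‖cayx Sg 0 - 1‖ := by
    rw [e1, le_div_iff₀ hn]
    linarith
  have t1 : ‖s - 1‖ ≤ ‖cayx Sg 0 - 1‖ + τ := by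
    have : s - 1 = (s - cayx Sg 0) + (cayx Sg 0 - 1) := by ring
    rw [this]
    exact (norm_add_le _ _).trans (by linarith)
  have t2 : ‖cayx Sg 0 - 1‖ ≤ ‖s - 1‖ + τ := by
    have : cayx Sg 0 - 1 = (s - 1) - (s - cayx Sg 0) := by ring
    rw [this]
    exact (norm_sub_le _ _).trans (by linarith)
  have t3 : ‖s + 1‖ ≤ ‖cayx Sg 0 + 1‖ + τ := by
    have : s + 1 = (s - cayx Sg 0) + (cayx Sg 0 + 1) := by ring
    rw [this]
    exact (norm_add_le _ _).trans (by linarith)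
  have hs2 : ‖s - 1‖ ≤ 2 := by
    refine (norm_sub_le _ _).trans ?_
    rw [norm_one]; linarith
  have hc1 : ‖cayx Sg 0‖ ≤ 1 := by
    have h4 : 0 ≤ -Sg.im * ‖cayx Sg 0 - 1‖ ^ 2 := mul_nonneg (by linarith) (sq_nonneg _)
    rw [← e3] at h4
    nlinarith [norm_nonneg (cayx Sg 0)]
  have hτ1 : τ ≤ 1 / 80 := by linarith
  set a := ‖s - 1‖ with ha
  set b := ‖cayx Sg 0 - 1‖ with hbd
  have ha0 : 0 ≤ a := norm_nonneg _
  constructor
  · have h5 : ‖Sg‖ * b ≤ R / 2 * (a + τ) :=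
      mul_le_mul h1 t2 (norm_nonneg _) (by linarith)
    rw [e2] at t3
    have h6 : R / 2 * τ ≤ τ := by nlinarith
    nlinarith
  · have h5 : ‖s‖ ≤ ‖cayx Sg 0‖ + τ := by
      have := norm_add_le (s - cayx Sg 0) (cayx Sg 0)
      rw [sub_add_cancel] at this
      linarith
    have h6 : ‖s‖ ^ 2 ≤ ‖cayx Sg 0‖ ^ 2 + 2 * τ := by
      have h7 := norm_nonneg s
      have h8 := norm_nonneg (cayx Sg 0)
      have h9 : ‖s‖ ^ 2 - ‖cayx Sg 0‖ ^ 2 = (‖s‖ - ‖cayx Sg 0‖) * (‖s‖ + ‖cayx Sg 0‖) := by ring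
      have h10 : (‖s‖ - ‖cayx Sg 0‖) * (‖s‖ + ‖cayx Sg 0‖) ≤ τ * 2 := by
        rcases le_total (‖s‖ - ‖cayx Sg 0‖) 0 with h | h
        · have : (‖s‖ - ‖cayx Sg 0‖) * (‖s‖ + ‖cayx Sg 0‖) ≤ 0 :=
            mul_nonpos_of_nonpos_of_nonneg h (by linarith)
          linarith
        · exact mul_le_mul (by linarith) (by linarith) (by linarith) hτ0
      linarith
    have h7 : 2 * η * b ^ 2 ≤ 1 - ‖cayx Sg 0‖ ^ 2 := by
      rw [e3]
      exact mul_le_mul_of_nonneg_right (by linarith) (sq_nonneg _)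
    have h8 : a ^ 2 - 4 * τ ≤ b ^ 2 := by
      have h9 : a - τ ≤ b := by linarith
      have h10 : 0 ≤ a - τ := by linarith
      have h11 := pow_le_pow_left₀ h10 h9 2
      nlinarith
    have h9 : 8 / 5 ≤ a := by linarith
    have h10 : (8 / 5) ^ 2 ≤ a ^ 2 := pow_le_pow_left₀ (by norm_num) h9 2
    have h11 : 2 * η * (a ^ 2 - 4 * τ) ≤ 2 * η * b ^ 2 := by gcongr
    have h12 : η * τ ≤ η * (1 / 80) := by gcongr
    have h13 : η * (8 / 5) ^ 2 ≤ η * a ^ 2 := by gcongr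
    nlinarith

/-- distance from the circle -/
theorem cay_q {X : ℂ} {cX D : ℝ} (h0 : 0 < cX) (h1 : X.im ≤ -cX) (h2 : ‖X‖ ≤ D) :
    ‖cayx X 0‖ ≤ 1 - 2 * cX / (D + 1) ^ 2 := by
  obtain ⟨e1, e2, e3⟩ := cay_facts (S := X) (by linarith)
  obtain ⟨h3, -, -⟩ := cay_sub (S := X) (by linarith)
  have hn : 0 < ‖X - Complex.I‖ := norm_pos_iff.2 h3
  have hn1 : ‖X - Complex.I‖ ≤ D + 1 := by
    refine (norm_sub_le _ _).trans ?_
    rw [Complex.norm_I]
    linarith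
  have hD : 0 < D + 1 := hn.trans_le hn1
  have h4 : 4 * cX / (D + 1) ^ 2 ≤ 1 - ‖cayx X 0‖ ^ 2 := by
    rw [e3, e1, div_pow]
    have h5 : ‖X - Complex.I‖ ^ 2 ≤ (D + 1) ^ 2 := pow_le_pow_left₀ hn.le hn1 2
    calc 4 * cX / (D + 1) ^ 2 ≤ 4 * cX / ‖X - Complex.I‖ ^ 2 :=
          div_le_div_of_nonneg_left (by positivity) (by positivity) h5
      _ = cX * (2 ^ 2 / ‖X - Complex.I‖ ^ 2) := by ring
      _ ≤ -X.im * (2 ^ 2 / ‖X - Complex.I‖ ^ 2) :=
          mul_le_mul_of_nonneg_right (by linarith) (by positivity)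
  have h5 : 4 * cX / (D + 1) ^ 2 = 2 * (2 * cX / (D + 1) ^ 2) := by ring
  rw [h5] at h4
  have h6 := norm_nonneg (cayx X 0)
  set t := 2 * cX / (D + 1) ^ 2 with ht
  have ht0 : 0 < t := by positivity
  by_contra hcon
  push Not at hcon
  have h7 : 0 ≤ 1 - t := by nlinarith
  nlinarith

theorem n1_nonneg {d : ℕ} (h : Fin d → ℝ) : 0 ≤ n1 h := Finset.sum_nonneg fun i _ => abs_nonneg _

theorem cont_sft {d : ℕ} (h : Fin d → ℝ) : Continuous (sft h) := by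
  unfold sft
  exact continuous_pi fun i => (continuous_apply i).add continuous_const

/-- the Lipschitz condition is closed -/
theorem HL_closed {d : ℕ} (Λ h₀ : ℝ) : IsClosed {s : C(UnitAddTorus (Fin d), ℂ) | HL Λ h₀ s} := by
  unfold HL
  simp only [Set.ofPred_forall]
  refine isClosed_iInter fun h => isClosed_iInter fun hh => isClosed_iInter fun k => ?_
  have c1 : Continuous fun s : C(UnitAddTorus (Fin d), ℂ) => s (sft h k) :=
    continuous_eval_const _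
  have c2 : Continuous fun s : C(UnitAddTorus (Fin d), ℂ) => s k := continuous_eval_const _
  exact isClosed_le ((c1.sub c2).norm.pow 2)
    (continuous_const.mul ((continuous_const.sub (c1.norm.pow 2)).mul
      (continuous_const.sub (c2.norm.pow 2))))

end

end Pool.Agent.Run7.h442.BA
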