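import Mathlib

/-! Project BA: powers of a small number. -/

set_option autoImplicit false

open Filter Topology

namespace Pool.Agent.Run7.h442.BA.Pw

theorem ev_mul (K x : ℝ) (hx : 0 < x) : ∀ᶠ lam in 𝓝[>] (0 : ℝ), K * lam ^ x ≤ 1 := by
  have h1 : Tendsto (fun lam : ℝ => K * lam ^ x) (𝓝[>] 0) (𝓝 (K * (0 : ℝ) ^ x)) := by
    refine Tendsto.const_mul K ?_
    exact ((Real.continuousAt_rpow_const 0 x (Or.inr hx.le)).tendsto).mono_left nhdsWithin_le_nhds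
  rw [Real.zero_rpow hx.ne', mul_zero] at h1
  have h2 := h1.eventually (gt_mem_nhds (zero_lt_one' ℝ))
  filter_upwards [h2] with lam h
  exact h.le

theorem ev_one : ∀ᶠ lam in 𝓝[>] (0 : ℝ), 0 < lam ∧ lam ≤ 1 / 2 := by
  have h : Set.Ioc (0 : ℝ) (1 / 2) ∈ 𝓝[>] (0 : ℝ) := Ioc_mem_nhdsGT (by norm_num)
  filter_upwards [h] with lam hl
  exact hl

theorem log_le (lam x : ℝ) (h0 : 0 < lam) (hx : 0 < x) :
    Real.log (1 / lam) ≤ 1 / x * lam ^ (-x) := by
  have h1 := Real.log_le_rpow_div (x := 1 / lam) (by positivity) hx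
  rw [one_div, Real.inv_rpow h0.le, ← Real.rpow_neg h0.le] at h1
  rw [one_div]
  calc Real.log lam⁻¹ ≤ lam ^ (-x) / x := h1
    _ = _ := by ring

theorem ev_log (K x : ℝ) (hx : 0 < x) (hK : 0 ≤ K) :
    ∀ᶠ lam in 𝓝[>] (0 : ℝ), K * Real.log (1 / lam) * lam ^ x ≤ 1 := by
  filter_upwards [ev_mul (K * (2 / x)) (x / 2) (by positivity), ev_one] with lam h1 h2
  have h3 := log_le lam (x / 2) h2.1 (by positivity)
  calc K * Real.log (1 / lam) * lam ^ x ≤ K * (1 / (x / 2) * lam ^ (-(x / 2))) * lam ^ x := by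
        have := Real.rpow_nonneg h2.1.le x
        gcongr
    _ = K * (2 / x) * (lam ^ (-(x / 2)) * lam ^ x) := by
        have : 1 / (x / 2) = 2 / x := by field_simp
        rw [this]; ring
    _ = K * (2 / x) * lam ^ (x / 2) := by
        rw [← Real.rpow_add h2.1]; congr 2; ring
    _ ≤ 1 := h1

theorem ev_log2 (K x : ℝ) (hx : 0 < x) (hK : 0 ≤ K) :
    ∀ᶠ lam in 𝓝[>] (0 : ℝ), K * Real.log (1 / lam) ^ 2 * lam ^ x ≤ 1 := by
  filter_upwards [ev_mul (K * (4 / x) ^ 2) (x / 2) (by positivity), ev_one] with lam h1 h2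
  have h3 := log_le lam (x / 4) h2.1 (by positivity)
  have h0 : 0 ≤ Real.log (1 / lam) := Real.log_nonneg (by
    rw [le_div_iff₀ h2.1]; linarith [h2.2])
  have h4 := pow_le_pow_left₀ h0 h3 2
  calc K * Real.log (1 / lam) ^ 2 * lam ^ x ≤ K * (1 / (x / 4) * lam ^ (-(x / 4))) ^ 2 * lam ^ x := by
        have := Real.rpow_nonneg h2.1.le x
        gcongr
    _ = K * (4 / x) ^ 2 * (lam ^ (-(x / 4)) * lam ^ (-(x / 4)) * lam ^ x) := by
        have : 1 / (x / 4) = 4 / x := by field_simp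
        rw [this]; ring
    _ = K * (4 / x) ^ 2 * lam ^ (x / 2) := by
        rw [← Real.rpow_add h2.1, ← Real.rpow_add h2.1]; congr 2; ring
    _ ≤ 1 := h1

/-- from eventually to an interval -/
theorem ex_lam {p : ℝ → Prop} (h : ∀ᶠ lam in 𝓝[>] (0 : ℝ), p lam) :
    ∃ lam₀ : ℝ, 0 < lam₀ ∧ lam₀ < 1 ∧ ∀ lam : ℝ, 0 < lam → lam ≤ lam₀ → p lam := by
  obtain ⟨b, hb, hs⟩ := (mem_nhdsGT_iff_exists_Ioc_subset).1 h
  refine ⟨min b (1 / 2), lt_min hb (by norm_num), (min_le_right _ _).trans_lt (by norm_num),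
    fun lam h0 h1 => hs ⟨h0, h1.trans (min_le_left _ _)⟩⟩

section pw

variable {lam : ℝ} (h0 : 0 < lam) (h1 : lam ≤ 1)

include h0 in
theorem pos (x : ℝ) : 0 < lam ^ x := Real.rpow_pos_of_pos h0 x

include h0 in
theorem mul (x y : ℝ) : lam ^ x * lam ^ y = lam ^ (x + y) := (Real.rpow_add h0 x y).symm

include h0 in
theorem div (x y : ℝ) : lam ^ x / lam ^ y = lam ^ (x - y) := (Real.rpow_sub h0 x y).symm

include h0 in
theorem inv (x : ℝ) : (lam ^ x)⁻¹ = lam ^ (-x) := (Real.rpow_neg h0.le x).symm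

include h0 in
theorem pow (x : ℝ) (n : ℕ) : (lam ^ x) ^ n = lam ^ (n * x) := by
  rw [← Real.rpow_natCast, ← Real.rpow_mul h0.le]; congr 1; ring

include h0 in
theorem sqrt (x : ℝ) : Real.sqrt (lam ^ x) = lam ^ (x / 2) := by
  rw [Real.sqrt_eq_rpow, ← Real.rpow_mul h0.le]; congr 1; ring

include h0 h1 in
theorem anti {x y : ℝ} (h : y ≤ x) : lam ^ x ≤ lam ^ y :=
  Real.rpow_le_rpow_of_exponent_ge h0 h1 h

include h0 h1 in
theorem le_one {x : ℝ} (h : 0 ≤ x) : lam ^ x ≤ 1 := Real.rpow_le_one h0.le h1 h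

include h0 h1 in
theorem one_le {x : ℝ} (h : x ≤ 0) : 1 ≤ lam ^ x := Real.one_le_rpow_of_pos_of_le_one_of_nonpos h0 h1 h

include h0 in
/-- absorbing a constant -/
theorem abs {K u C x : ℝ} (hK : K * lam ^ u ≤ 1) (hC : C ≤ K) : C * lam ^ x ≤ lam ^ (x - u) := by
  have h2 := pos h0 (x - u)
  calc C * lam ^ x ≤ K * lam ^ x := mul_le_mul_of_nonneg_right hC (pos h0 x).le
    _ = (K * lam ^ u) * lam ^ (x - u) := by
      rw [mul_assoc, mul h0]; congr 2; ring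
    _ ≤ 1 * lam ^ (x - u) := mul_le_mul_of_nonneg_right hK h2.le
    _ = _ := one_mul _

include h0 h1 in
theorem absl {K u C x y : ℝ} (hK : K * lam ^ u ≤ 1) (hC : C ≤ K) (hy : y ≤ x - u) :
    C * lam ^ x ≤ lam ^ y := (abs h0 hK hC).trans (anti h0 h1 hy)

end pw

end Pool.Agent.Run7.h442.BA.Pw
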