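import Pool.Agent.Run7.h442.BA.GappA
import Pool.Agent.Run7.h442.BA.Pw
import Pool.Agent.Run7.h308.BA_N

/-! Project BA: the gap, one application of the self-energy. -/

set_option autoImplicit false

namespace Pool.Agent.Run7.h442.BA

open MeasureTheory Filter Pool.Agent.W792.LL Pool.Agent.W792.WA Pool.Agent.N659.HB
open Pool.Agent.W788.MFP.Four (T e NN adj)
open Pool.Agent.W788.BK (PP nsq)
open Pool.Agent.Run7.h308.BAN (g g_lip lap_eq adj_eq)
open scoped Topology Matrix

noncomputable section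

variable {d L : ℕ} [NeZero L]

theorem decomp1 (x : UnitAddCircle) : ∃ (j : ZMod L) (t : ℝ), |t| ≤ 1 / (L : ℝ) ∧
    x = (t : UnitAddCircle) + ZMod.toAddCircle j := by
  have hL : (0 : ℝ) < L := by exact_mod_cast Nat.pos_of_ne_zero (NeZero.ne L)
  induction x using QuotientAddGroup.induction_on with
  | H a =>
  refine ⟨((round (a * L) : ℤ) : ZMod L), a - round (a * L) / L, ?_, ?_⟩
  · have h2 : a - ((round (a * L) : ℤ) : ℝ) / L = (a * L - round (a * L)) / L := by
      field_simp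
    rw [h2, abs_div, abs_of_pos hL]
    have h3 := abs_sub_round (a * L)
    rw [div_le_div_iff₀ hL hL]
    nlinarith
  · rw [ZMod.toAddCircle_intCast]
    change (a : UnitAddCircle) = ((a - ((round (a * L) : ℤ) : ℝ) / L : ℝ) : UnitAddCircle) +
      (((((round (a * L) : ℤ) : ℝ) / (L : ℝ) : ℝ)) : UnitAddCircle)
    rw [← AddCircle.coe_add]
    congr 1
    ring

theorem decomp (k : UnitAddTorus (Fin d)) : ∃ (j : T d L) (t : Fin d → ℝ),
    (∀ i, |t i| ≤ 1 / (L : ℝ)) ∧
    k = fun i => ((t i : ℝ) : UnitAddCircle) + ZMod.toAddCircle (j i) := by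
  choose j t h1 h2 using fun i => decomp1 (L := L) (k i)
  exact ⟨j, t, h1, funext h2⟩

theorem norm_coe_le (t : ℝ) : ‖(t : UnitAddCircle)‖ ≤ |t| := by
  rw [UnitAddCircle.norm_eq]
  have := round_le t 0
  simpa using this

theorem lap_lip (h : Fin d → ℝ) (k : UnitAddTorus (Fin d)) :
    |lap d (sft h k) - lap d k| ≤ 4 * Real.pi * n1 h := by
  rw [lap_eq, lap_eq, ← Finset.sum_sub_distrib]
  refine (Finset.abs_sum_le_sum_abs _ _).trans ?_
  unfold n1
  rw [Finset.mul_sum]
  refine Finset.sum_le_sum fun i _ => ?_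
  refine (g_lip _ _).trans ?_
  have h1 : dist (sft h k i) (k i) ≤ |h i| := by
    unfold sft
    rw [dist_eq_norm, add_sub_cancel_left]
    exact norm_coe_le _
  have := Real.pi_pos
  gcongr

theorem lap_grid (t : Fin d → ℝ) (ht : ∀ i, |t i| ≤ 1 / (L : ℝ)) (p : T d L) :
    |lap d (fun i => ((t i : ℝ) : UnitAddCircle) + ZMod.toAddCircle (p i)) - (2 * d - adj p)| ≤
      13 * d / L := by
  have hL : (0 : ℝ) < L := by exact_mod_cast Nat.pos_of_ne_zero (NeZero.ne L)
  rw [lap_eq, adj_eq, ← Finset.sum_sub_distrib]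
  refine (Finset.abs_sum_le_sum_abs _ _).trans ?_
  have h1 : ∀ i, |g (((t i : ℝ) : UnitAddCircle) + ZMod.toAddCircle (p i)) -
      g (ZMod.toAddCircle (p i))| ≤ 13 / L := by
    intro i
    refine (g_lip _ _).trans ?_
    rw [dist_eq_norm, add_sub_cancel_right]
    have h2 := (norm_coe_le (t i)).trans (ht i)
    have h3 := Real.pi_lt_d2
    have h4 := Real.pi_pos
    calc 4 * Real.pi * ‖((t i : ℝ) : UnitAddCircle)‖ ≤ 4 * Real.pi * (1 / L) := by gcongr
      _ ≤ 13 * (1 / L) := by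
        have : 0 < 1 / (L : ℝ) := by positivity
        nlinarith
      _ = _ := by ring
  calc ∑ i, |g (((t i : ℝ) : UnitAddCircle) + ZMod.toAddCircle (p i)) -
      g (ZMod.toAddCircle (p i))| ≤ ∑ _i : Fin d, 13 / (L : ℝ) := Finset.sum_le_sum fun i _ => h1 i
    _ = _ := by
      rw [Finset.sum_const, Finset.card_univ, Fintype.card_fin, nsmul_eq_mul]; ring

theorem mean_bd {ρ' : Measure ℝ} [IsProbabilityMeasure ρ'] {c : ℝ}
    (h : ρ' (Set.Icc (-c) c)ᶜ = 0) : |∫ a, a ∂ρ'| ≤ c := by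
  have h1 : ∀ᵐ a ∂ρ', ‖a‖ ≤ c := by
    rw [ae_iff]
    refine measure_mono_null ?_ h
    intro a ha
    simp only [Set.mem_ofPred_eq, Real.norm_eq_abs] at ha
    simp only [Set.mem_compl_iff, Set.mem_Icc, ← abs_le]
    exact ha
  have := norm_integral_le_of_norm_le_const h1
  simpa using this

end

end Pool.Agent.Run7.h442.BA
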