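import Pool.Agent.Run7.h442.BA.Form
import Pool.Agent.Run7.h442.BA.Cov

/-! Project BA: consequences of the form bounds. -/

set_option autoImplicit false
set_option linter.unusedSectionVars false

open scoped BigOperators Matrix
open MeasureTheory

namespace Pool.Agent.Run7.h442.BA

open Pool.Agent.W788.BK (PP nsq nsq_nonneg nsq_eq nsq_smul cs_star cs_norm adjoint nsq_eq_zero
  nsq_star instPP nsq_single Low hi)
open Pool.Agent.W788.MFP.Four (T e NN adj e_comm e_add_left e_add e_zero e_neg e_neg_left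
  e_normSq sum_e NN_pos card_T ft q)

variable {d L : ℕ} [NeZero L]

/-- good potentials -/
structure Gd (J : T d L → ℝ) (W : ℝ) (Q : T d L → Prop) (V : T d L → ℝ) : Prop where
  h1 : ∀ u : T d L → ℂ, |vq V u| ≤ W * jn J u
  h2 : ∀ u : T d L → ℂ, (∀ k, ¬ Q k → u k = 0) → |vq V u| ≤ 1 / 8 * jn J u

/-- the data -/
structure Dat (J : T d L → ℝ) (X : T d L → ℂ) (c W a₀ g : ℝ) (Q : T d L → Prop) : Prop where
  hJ : ∀ k, 0 < J k
  hc : 0 < c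
  hX : ∀ k, (X k).im ≤ -c
  hW : 1 ≤ W
  ha : 0 < a₀
  ha1 : a₀ ≤ 1
  hQ : ∀ k, Q k → J k / 2 ≤ |(X k).re|
  hP : ∀ k, ¬ Q k → a₀ * J k ≤ -(X k).im
  hg : (NN d L)⁻¹ * ∑ k, (J k)⁻¹ ≤ g

/-- the bound of the resolvent -/
noncomputable def rh (W a₀ : ℝ) : ℝ := 20 * W ^ 2 / a₀

theorem jn_av (J : T d L → ℝ) (y : T d L) :
    jn (fun k => (J k)⁻¹) (av y) = (NN d L)⁻¹ * ∑ k, (J k)⁻¹ := by
  unfold jn av
  rw [Finset.mul_sum]
  refine Finset.sum_congr rfl fun k _ => ?_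
  rw [norm_mul, e_norm, mul_one, Complex.norm_real, Real.norm_eq_abs, sq_abs, inv_pow,
    Real.sq_sqrt NN_pos.le]
  ring

/-- the adjoint -/
theorem MX_adj (X : T d L → ℂ) (V : T d L → ℝ) :
    (MX X V)ᴴ = MX (fun k => (starRingEnd ℂ) (X k)) V := by
  unfold MX
  rw [Matrix.conjTranspose_add, Matrix.diagonal_conjTranspose, Matrix.conjTranspose_sum]
  congr 1
  refine Finset.sum_congr rfl fun y _ => ?_
  rw [Matrix.conjTranspose_smul, RCLike.star_def, Complex.conj_ofReal]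
  congr 1
  ext k p
  rw [Matrix.conjTranspose_apply]
  unfold AY
  rw [Matrix.of_apply, Matrix.of_apply, star_mul', Complex.star_def,
    Complex.conj_ofReal, ← e_neg_left, neg_sub]

section dat

variable {J : T d L → ℝ} {X : T d L → ℂ} {c W a₀ g : ℝ} {Q : T d L → Prop} {V : T d L → ℝ}

theorem Dat.g0 (D : Dat J X c W a₀ g Q) : 0 ≤ g :=
  (mul_nonneg (inv_nonneg.2 NN_pos.le) (Finset.sum_nonneg fun k _ => (inv_pos.2 (D.hJ k)).le)).trans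
    D.hg

theorem Dat.rh_pos (D : Dat J X c W a₀ g Q) : 0 < rh W a₀ := by
  unfold rh
  have := D.hW
  have := D.ha
  positivity

theorem Dat.res1 (D : Dat J X c W a₀ g Q) (hV : Gd J W Q V) (u f : T d L → ℂ)
    (hf : MX X V *ᵥ u = f) :
    Real.sqrt (jn J u) ≤ rh W a₀ * Real.sqrt (jn (fun k => (J k)⁻¹) f) := by
  refine resN (α := fun k => -(X k).im) D.hJ D.hW D.ha D.ha1 hV.h1 hV.h2 D.hQ (s := -1)
    (by simp) (fun k => by linarith) (fun k => ?_) D.hP u f hf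
  have := D.hX k
  have := D.hc
  linarith

theorem Dat.res2 (D : Dat J X c W a₀ g Q) (hV : Gd J W Q V) (u f : T d L → ℂ)
    (hf : MX (fun k => (starRingEnd ℂ) (X k)) V *ᵥ u = f) :
    Real.sqrt (jn J u) ≤ rh W a₀ * Real.sqrt (jn (fun k => (J k)⁻¹) f) := by
  refine resN (α := fun k => -(X k).im) (X := fun k => (starRingEnd ℂ) (X k)) D.hJ D.hW D.ha D.ha1
    hV.h1 hV.h2 (fun k hk => by rw [Complex.conj_re]; exact D.hQ k hk) (s := 1)
    (by simp) (fun k => by rw [Complex.conj_im]; linarith) (fun k => ?_) D.hP u f hf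
  have := D.hX k
  have := D.hc
  linarith

theorem Dat.jn_res (D : Dat J X c W a₀ g Q) {u : T d L → ℂ} {y : T d L}
    (h : Real.sqrt (jn J u) ≤ rh W a₀ * Real.sqrt (jn (fun k => (J k)⁻¹) (av y))) :
    jn J u ≤ rh W a₀ ^ 2 * g := by
  have h0 := jn_nonneg D.hJ u
  have h1 := pow_le_pow_left₀ (Real.sqrt_nonneg _) h 2
  have h2 : 0 ≤ jn (fun k => (J k)⁻¹) (av y) := jn_nonneg (fun k => inv_pos.2 (D.hJ k)) _
  rw [mul_pow, Real.sq_sqrt h0, Real.sq_sqrt h2, jn_av] at h1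
  exact h1.trans (mul_le_mul_of_nonneg_left D.hg (sq_nonneg _))

/-- the resolvent applied to a site vector -/
theorem Dat.jn_site (D : Dat J X c W a₀ g Q) (hV : Gd J W Q V) (y : T d L) :
    jn J (GX X V *ᵥ av y) ≤ rh W a₀ ^ 2 * g := by
  refine D.jn_res (D.res1 hV _ (av y) ?_)
  rw [Matrix.mulVec_mulVec, mul_GX D.hc D.hX, Matrix.one_mulVec]

/-- matrix elements of the resolvent -/
theorem Dat.site (D : Dat J X c W a₀ g Q) (hV : Gd J W Q V) (x y : T d L) :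
    ‖pv (GX X V *ᵥ av y) x‖ ≤ rh W a₀ * g := by
  have h1 := pv_jn D.hJ D.hg (GX X V *ᵥ av y) x
  have h2 := mul_le_mul_of_nonneg_left (D.jn_site hV y) D.g0
  have h3 : 0 ≤ rh W a₀ * g := mul_nonneg D.rh_pos.le D.g0
  refine le_of_sq_le_sq' (h1.trans (h2.trans (le_of_eq ?_))) h3
  ring
where
  le_of_sq_le_sq' {a b : ℝ} (h : a ^ 2 ≤ b ^ 2) (hb : 0 ≤ b) : a ≤ b :=
    (le_abs_self a).trans (by simpa [abs_of_nonneg hb] using sq_le_sq.1 h)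

/-- the adjoint resolvent -/
theorem Dat.adj_el (D : Dat J X c W a₀ g Q) (V : T d L → ℝ) (x y : T d L) :
    pv (GX X V *ᵥ av x) y = (starRingEnd ℂ) (pv ((GX X V)ᴴ *ᵥ av y) x) := by
  unfold pv
  have h1 : (starRingEnd ℂ) (star (av x) ⬝ᵥ ((GX X V)ᴴ *ᵥ av y)) =
      star (star (av x) ⬝ᵥ ((GX X V)ᴴ *ᵥ av y)) := rfl
  rw [h1, ← Matrix.star_dotProduct_star, star_star, Matrix.star_mulVec,
    Matrix.conjTranspose_conjTranspose, ← Matrix.dotProduct_mulVec]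

theorem Dat.jn_site' (D : Dat J X c W a₀ g Q) (hV : Gd J W Q V) (y : T d L) :
    jn J ((GX X V)ᴴ *ᵥ av y) ≤ rh W a₀ ^ 2 * g := by
  refine D.jn_res (D.res2 hV _ (av y) ?_)
  rw [← MX_adj, Matrix.mulVec_mulVec, ← Matrix.conjTranspose_mul, GX_mul D.hc D.hX,
    Matrix.conjTranspose_one, Matrix.one_mulVec]

/-- fourth moments -/
theorem Dat.four1 (D : Dat J X c W a₀ g Q) (hV : Gd J W Q V) {δ θ Qθ Cl : ℝ} (hδ : 0 < δ)
    (hQ0 : 0 ≤ Qθ) (hC0 : 0 ≤ Cl) (hJδ : ∀ k, δ ≤ J k)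
    (hQ : ∀ P : T d L, ¬ Low θ P → ∑ k, (J k * J (k + P))⁻¹ ≤ Qθ * NN d L)
    (hl : ∑ P : T d L, (1 - hi θ P) ≤ Cl * NN d L) (y : T d L) :
    ∑ x, ‖pv (GX X V *ᵥ av y) x‖ ^ 4 ≤ (Qθ + Cl / δ ^ 2) * (rh W a₀ ^ 2 * g) ^ 2 ∧
    ∑ x, ‖pv (GX X V *ᵥ av x) y‖ ^ 4 ≤ (Qθ + Cl / δ ^ 2) * (rh W a₀ ^ 2 * g) ^ 2 := by
  have h0 : 0 ≤ Qθ + Cl / δ ^ 2 := by positivity
  constructor
  · refine (four D.hJ hδ hQ0 hJδ hQ hl _).trans (mul_le_mul_of_nonneg_left ?_ h0)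
    exact pow_le_pow_left₀ (jn_nonneg D.hJ _) (D.jn_site hV y) 2
  · have h1 : ∀ x, ‖pv (GX X V *ᵥ av x) y‖ ^ 4 = ‖pv ((GX X V)ᴴ *ᵥ av y) x‖ ^ 4 := fun x => by
      rw [D.adj_el, RCLike.norm_conj]
    simp only [h1]
    refine (four D.hJ hδ hQ0 hJδ hQ hl _).trans (mul_le_mul_of_nonneg_left ?_ h0)
    exact pow_le_pow_left₀ (jn_nonneg D.hJ _) (D.jn_site' hV y) 2

end dat

end Pool.Agent.Run7.h442.BA
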