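import Pool.Agent.Run7.h442.BA.Var
import Pool.Agent.W540.BK.Fac

/-! Project BA: the expansion of the self-energy. -/

set_option autoImplicit false
set_option linter.unusedSectionVars false

open scoped BigOperators Matrix
open MeasureTheory

namespace Pool.Agent.Run7.h442.BA

open Pool.Agent.W788.BK (PP nsq nsq_nonneg nsq_eq nsq_smul cs_star cs_norm adjoint nsq_eq_zero
  nsq_star instPP nsq_single)
open Pool.Agent.W788.MFP.Four (T e NN adj e_comm e_add_left e_add e_zero e_neg e_neg_left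
  e_normSq sum_e NN_pos card_T ft q)

variable {d L : ℕ} [NeZero L]

/-- Cauchy-Schwarz for bounded functions -/
theorem cs_int {Ω : Type*} [MeasurableSpace Ω] {P : Measure Ω} [IsProbabilityMeasure P]
    {f g : Ω → ℝ} (hf : AEStronglyMeasurable f P) (hg : AEStronglyMeasurable g P) {C : ℝ}
    (bf : ∀ᵐ w ∂P, |f w| ≤ C) (bg : ∀ᵐ w ∂P, |g w| ≤ C) :
    (∫ w, f w * g w ∂P) ^ 2 ≤ (∫ w, f w ^ 2 ∂P) * ∫ w, g w ^ 2 ∂P := by
  have i1 : Integrable (fun w => f w ^ 2) P :=
    Integrable.of_bound (C := C ^ 2) (hf.pow 2) (by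
      filter_upwards [bf] with w hw
      rw [Real.norm_eq_abs, abs_pow]
      exact pow_le_pow_left₀ (abs_nonneg _) hw 2)
  have i2 : Integrable (fun w => g w ^ 2) P :=
    Integrable.of_bound (C := C ^ 2) (hg.pow 2) (by
      filter_upwards [bg] with w hw
      rw [Real.norm_eq_abs, abs_pow]
      exact pow_le_pow_left₀ (abs_nonneg _) hw 2)
  have i3 : Integrable (fun w => f w * g w) P :=
    Integrable.of_bound (C := C * C) (hf.mul hg) (by
      filter_upwards [bf, bg] with w hw hw'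
      rw [Real.norm_eq_abs, abs_mul]
      exact mul_le_mul hw hw' (abs_nonneg _) ((abs_nonneg _).trans hw))
  have h : ∀ t : ℝ, 0 ≤ (∫ w, f w ^ 2 ∂P) * (t * t) + (-2 * ∫ w, f w * g w ∂P) * t +
      ∫ w, g w ^ 2 ∂P := by
    intro t
    have h1 : 0 ≤ ∫ w, (t * f w - g w) ^ 2 ∂P := integral_nonneg fun w => sq_nonneg _
    have h2 : ∀ w, (t * f w - g w) ^ 2 = t ^ 2 * f w ^ 2 + (-2 * t) * (f w * g w) + g w ^ 2 := by
      intro w; ring
    simp only [h2] at h1
    have i4 : Integrable (fun w => t ^ 2 * f w ^ 2 + (-2 * t) * (f w * g w)) P :=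
      (i1.const_mul _).add (i3.const_mul _)
    rw [integral_add i4 i2,
      integral_add (i1.const_mul _) (i3.const_mul _), integral_const_mul, integral_const_mul] at h1
    nlinarith
  have h3 := discrim_le_zero h
  unfold discrim at h3
  nlinarith

theorem ae_all {ν : Measure ℝ} [IsProbabilityMeasure ν] {β : ℝ} (h : ∀ᵐ x ∂ν, |x| ≤ β) :
    ∀ᵐ V ∂(PP (T d L) ν), ∀ y, |V y| ≤ β := by
  rw [ae_all_iff]
  intro y
  unfold PP
  exact (measurePreserving_eval (fun _ : T d L => ν) y).quasiMeasurePreserving.ae h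

theorem av_norm (y k : T d L) : ‖av y k‖ = (Real.sqrt (NN d L))⁻¹ := by
  unfold av
  rw [norm_mul, e_norm, mul_one, Complex.norm_real, Real.norm_eq_abs, abs_of_nonneg
    (inv_nonneg.2 (Real.sqrt_nonneg _))]

section inv

variable {X : T d L → ℂ} {c : ℝ}

/-- the second moment of `G e_k` -/
noncomputable def Mk (ν : Measure ℝ) (X : T d L → ℂ) (k : T d L) : ℝ :=
  ∫ V, nsq (GX X V *ᵥ Pi.single k 1) ∂(PP (T d L) ν)

theorem cont_nsq (hc : 0 < c) (hX : ∀ k, (X k).im ≤ -c) (w : T d L → ℂ) :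
    Continuous fun V : T d L → ℝ => nsq (GX X V *ᵥ w) := by
  unfold nsq
  exact continuous_finsetSum _ fun p _ => (cont_vec hc hX w p).norm.pow 2

theorem int_sum_pv (hc : 0 < c) (hX : ∀ k, (X k).im ≤ -c) (ν : Measure ℝ)
    [IsProbabilityMeasure ν] (k : T d L) :
    ∑ y, ∫ V, ‖pv (GX X V *ᵥ Pi.single k 1) y‖ ^ 2 ∂(PP (T d L) ν) = Mk ν X k := by
  unfold Mk
  rw [← integral_finsetSum]
  · refine integral_congr_ae (Filter.Eventually.of_forall fun V => ?_)
    exact parseval_sq _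
  · intro y _
    refine Integrable.of_bound (C := (c⁻¹) ^ 2)
      ((cont_pv hc hX _ y).norm.pow 2).aestronglyMeasurable
      (Filter.Eventually.of_forall fun V => ?_)
    have h := pv_bd hc hX V (Pi.single k 1) y
    rw [nsq_single, Real.sqrt_one, mul_one] at h
    rw [Real.norm_eq_abs, abs_of_nonneg (by positivity)]
    exact pow_le_pow_left₀ (norm_nonneg _) h 2

theorem Mk_nonneg (ν : Measure ℝ) (k : T d L) : 0 ≤ Mk ν X k :=
  integral_nonneg fun _ => nsq_nonneg _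

/-- `∑ y, E |a_y| ≤ √N √M` -/
theorem sum_abs_pv (hc : 0 < c) (hX : ∀ k, (X k).im ≤ -c) (ν : Measure ℝ)
    [IsProbabilityMeasure ν] (k : T d L) :
    ∑ y, ∫ V, ‖pv (GX X V *ᵥ Pi.single k 1) y‖ ∂(PP (T d L) ν) ≤
      Real.sqrt (NN d L) * Real.sqrt (Mk ν X k) := by
  have hb : ∀ y V, ‖pv (GX X V *ᵥ Pi.single k 1) y‖ ≤ c⁻¹ := fun y V => by
    have h := pv_bd hc hX V (Pi.single k 1) y
    rwa [nsq_single, Real.sqrt_one, mul_one] at h
  have h1 : ∀ y, (∫ V, ‖pv (GX X V *ᵥ Pi.single k 1) y‖ ∂(PP (T d L) ν)) ^ 2 ≤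
      ∫ V, ‖pv (GX X V *ᵥ Pi.single k 1) y‖ ^ 2 ∂(PP (T d L) ν) := by
    intro y
    have h2 := cs_int (P := PP (T d L) ν) (f := fun V => ‖pv (GX X V *ᵥ Pi.single k 1) y‖)
      (g := fun _ => (1 : ℝ)) (C := max c⁻¹ 1)
      (cont_pv hc hX _ y).norm.aestronglyMeasurable aestronglyMeasurable_const
      (Filter.Eventually.of_forall fun V => by
        rw [abs_of_nonneg (norm_nonneg _)]; exact (hb y V).trans (le_max_left _ _))
      (Filter.Eventually.of_forall fun V => by rw [abs_one]; exact le_max_right _ _)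
    simpa using h2
  have h3 := Finset.sum_mul_sq_le_sq_mul_sq (Finset.univ : Finset (T d L)) (fun _ => (1 : ℝ))
    (fun y => ∫ V, ‖pv (GX X V *ᵥ Pi.single k 1) y‖ ∂(PP (T d L) ν))
  simp only [one_mul, one_pow, Finset.sum_const, Finset.card_univ, nsmul_eq_mul, mul_one, card_T]
    at h3
  have h4 : (∑ y, ∫ V, ‖pv (GX X V *ᵥ Pi.single k 1) y‖ ∂(PP (T d L) ν)) ^ 2 ≤
      NN d L * Mk ν X k := by
    refine h3.trans (mul_le_mul_of_nonneg_left ?_ NN_pos.le)
    rw [← int_sum_pv hc hX]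
    exact Finset.sum_le_sum fun y _ => h1 y
  rw [← Real.sqrt_mul NN_pos.le]
  exact Real.le_sqrt_of_sq_le h4

/-- sums of expectations -/
theorem gen (hc : 0 < c) (hX : ∀ k, (X k).im ≤ -c) (ν : Measure ℝ)
    [IsProbabilityMeasure ν] (k : T d L) {G₀ : Set (T d L → ℝ)} (hG : MeasurableSet G₀)
    (f : T d L → (T d L → ℝ) → ℂ) (hf : ∀ y, AEStronglyMeasurable (f y) (PP (T d L) ν))
    {C C' : ℝ} (hC : 0 ≤ C)
    (h1 : ∀ V ∈ G₀, ∀ y, ‖f y V‖ ≤ C * ‖pv (GX X V *ᵥ Pi.single k 1) y‖)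
    (h2 : ∀ᵐ V ∂(PP (T d L) ν), ∀ y, ‖f y V‖ ≤ C') :
    ‖∑ y, av y k * ∫ V, f y V ∂(PP (T d L) ν)‖ ≤ C * Real.sqrt (Mk ν X k) +
      Real.sqrt (NN d L) * (C' * (PP (T d L) ν).real G₀ᶜ) := by
  have hs := sqrt_pos' (d := d) (L := L)
  have hi1 : Integrable ((G₀ᶜ).indicator (1 : (T d L → ℝ) → ℝ)) (PP (T d L) ν) :=
    (integrable_const (1 : ℝ)).indicator hG.compl
  have hb : ∀ y V, ‖pv (GX X V *ᵥ Pi.single k 1) y‖ ≤ c⁻¹ := fun y V => by
    have h := pv_bd hc hX V (Pi.single k 1) y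
    rwa [nsq_single, Real.sqrt_one, mul_one] at h
  have hia : ∀ y, Integrable (fun V => ‖pv (GX X V *ᵥ Pi.single k 1) y‖) (PP (T d L) ν) :=
    fun y => Integrable.of_bound (C := c⁻¹) (cont_pv hc hX _ y).norm.aestronglyMeasurable
      (Filter.Eventually.of_forall fun V => by
        rw [Real.norm_eq_abs, abs_of_nonneg (norm_nonneg _)]; exact hb y V)
  have h3 : ∀ y, ‖∫ V, f y V ∂(PP (T d L) ν)‖ ≤
      C * ∫ V, ‖pv (GX X V *ᵥ Pi.single k 1) y‖ ∂(PP (T d L) ν) +
        C' * (PP (T d L) ν).real G₀ᶜ := by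
    intro y
    refine (norm_integral_le_integral_norm _).trans ?_
    have h4 : ∀ᵐ V ∂(PP (T d L) ν), ‖f y V‖ ≤ C * ‖pv (GX X V *ᵥ Pi.single k 1) y‖ +
        C' * (G₀ᶜ).indicator 1 V := by
      filter_upwards [h2] with V hV
      by_cases hVG : V ∈ G₀
      · rw [Set.indicator_of_notMem (by simpa using hVG), mul_zero, add_zero]
        exact h1 V hVG y
      · rw [Set.indicator_of_mem (by simpa using hVG), Pi.one_apply, mul_one]
        have := mul_nonneg hC (norm_nonneg (pv (GX X V *ᵥ Pi.single k 1) y))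
        linarith [hV y]
    have h5 : Integrable (fun V => ‖f y V‖) (PP (T d L) ν) := by
      refine Integrable.of_bound (C := C') (hf y).norm ?_
      filter_upwards [h2] with V hV
      rw [norm_norm]; exact hV y
    calc ∫ V, ‖f y V‖ ∂(PP (T d L) ν)
        ≤ ∫ V, (C * ‖pv (GX X V *ᵥ Pi.single k 1) y‖ + C' * (G₀ᶜ).indicator 1 V)
          ∂(PP (T d L) ν) :=
          integral_mono_ae h5 (((hia y).const_mul _).add (hi1.const_mul _)) h4
      _ = _ := by
        rw [integral_add ((hia y).const_mul _) (hi1.const_mul _), integral_const_mul,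
          integral_const_mul, integral_indicator_one hG.compl]
  calc ‖∑ y, av y k * ∫ V, f y V ∂(PP (T d L) ν)‖
      ≤ ∑ y, (Real.sqrt (NN d L))⁻¹ *
        (C * ∫ V, ‖pv (GX X V *ᵥ Pi.single k 1) y‖ ∂(PP (T d L) ν) +
          C' * (PP (T d L) ν).real G₀ᶜ) := by
        refine (norm_sum_le _ _).trans (Finset.sum_le_sum fun y _ => ?_)
        rw [norm_mul, av_norm]
        exact mul_le_mul_of_nonneg_left (h3 y) (inv_nonneg.2 hs.le)
    _ = (Real.sqrt (NN d L))⁻¹ * (C * ∑ y, ∫ V, ‖pv (GX X V *ᵥ Pi.single k 1) y‖ ∂(PP (T d L) ν))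
        + (Real.sqrt (NN d L))⁻¹ * (NN d L * (C' * (PP (T d L) ν).real G₀ᶜ)) := by
      rw [← Finset.mul_sum, Finset.sum_add_distrib, ← Finset.mul_sum, Finset.sum_const,
        Finset.card_univ, nsmul_eq_mul, card_T]
      ring
    _ ≤ (Real.sqrt (NN d L))⁻¹ * (C * (Real.sqrt (NN d L) * Real.sqrt (Mk ν X k)))
        + (Real.sqrt (NN d L))⁻¹ * (NN d L * (C' * (PP (T d L) ν).real G₀ᶜ)) := by
      have := sum_abs_pv hc hX ν k
      have h6 := inv_nonneg.2 hs.le
      gcongr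
    _ = _ := by
      have h7 : (Real.sqrt (NN d L))⁻¹ * NN d L = Real.sqrt (NN d L) := by
        rw [inv_mul_eq_div, div_eq_iff hs.ne', Real.mul_self_sqrt NN_pos.le]
      have h8 : (Real.sqrt (NN d L))⁻¹ * Real.sqrt (NN d L) = 1 := inv_mul_cancel₀ hs.ne'
      calc _ = ((Real.sqrt (NN d L))⁻¹ * Real.sqrt (NN d L)) * (C * Real.sqrt (Mk ν X k)) +
          ((Real.sqrt (NN d L))⁻¹ * NN d L) * (C' * (PP (T d L) ν).real G₀ᶜ) := by ring
        _ = _ := by rw [h7, h8, one_mul]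
where
  sqrt_pos' {d L : ℕ} [NeZero L] : 0 < Real.sqrt (NN d L) := Real.sqrt_pos.2 NN_pos

/-- the vector without the potential at `y` -/
theorem b_eq (hc : 0 < c) (hX : ∀ k, (X k).im ≤ -c) (V : T d L → ℝ) (w : T d L → ℂ)
    (y : T d L) : pv (GX X V *ᵥ w) y = pv (GX X (Function.update V y 0) *ᵥ w) y -
      V y * (Ga X y V * pv (GX X V *ᵥ w) y) :=
  (pv_update hc hX V y y w).2

/-- the first identity -/
theorem idn0 (hc : 0 < c) (hX : ∀ k, (X k).im ≤ -c) (ν : Measure ℝ)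
    [IsProbabilityMeasure ν] {β : ℝ} (hβ : ∀ᵐ x ∂ν, |x| ≤ β) (k : T d L) :
    1 - X k * gm ν X k =
      ∑ y, av y k * ∫ V, (V y : ℂ) * pv (GX X V *ᵥ Pi.single k 1) y ∂(PP (T d L) ν) := by
  have hae := ae_all (d := d) (L := L) hβ
  have hb : ∀ y V, ‖pv (GX X V *ᵥ Pi.single k 1) y‖ ≤ c⁻¹ := fun y V => by
    have h := pv_bd hc hX V (Pi.single k 1) y
    rwa [nsq_single, Real.sqrt_one, mul_one] at h
  have hi : ∀ y, Integrable (fun V : T d L → ℝ => (V y : ℂ) * pv (GX X V *ᵥ Pi.single k 1) y)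
      (PP (T d L) ν) := by
    intro y
    refine Integrable.of_bound (C := β * c⁻¹) ((Complex.continuous_ofReal.comp
      (continuous_apply y)).mul (cont_pv hc hX _ y)).aestronglyMeasurable ?_
    filter_upwards [hae] with V hV
    rw [norm_mul, Complex.norm_real, Real.norm_eq_abs]
    exact mul_le_mul (hV y) (hb y V) (norm_nonneg _) ((abs_nonneg _).trans (hV y))
  have h1 : ∀ V : T d L → ℝ, ∑ y, av y k * ((V y : ℂ) * pv (GX X V *ᵥ Pi.single k 1) y) =
      1 - X k * GX X V k k := by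
    intro V
    have h2 : MX X V *ᵥ (GX X V *ᵥ Pi.single k 1) = Pi.single k 1 := by
      rw [Matrix.mulVec_mulVec, mul_GX hc hX, Matrix.one_mulVec]
    have h3 := congrFun h2 k
    rw [MX_mulVec, Pi.single_eq_same, mulVec_single_one, VM_mulVec, Finset.sum_apply] at h3
    have h5 : 1 - X k * GX X V k k =
        ∑ y, (((V y : ℂ) * pv (GX X V *ᵥ Pi.single k 1) y) • av y) k := by
      linear_combination -h3
    rw [h5]
    refine Finset.sum_congr rfl fun y _ => ?_
    rw [Pi.smul_apply, smul_eq_mul]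
    ring
  have h4 : ∑ y, av y k * ∫ V, (V y : ℂ) * pv (GX X V *ᵥ Pi.single k 1) y ∂(PP (T d L) ν) =
      ∫ V, ∑ y, av y k * ((V y : ℂ) * pv (GX X V *ᵥ Pi.single k 1) y) ∂(PP (T d L) ν) := by
    rw [integral_finsetSum _ fun y _ => (hi y).const_mul _]
    exact Finset.sum_congr rfl fun y _ => (integral_const_mul _ _).symm
  rw [h4]
  simp only [h1]
  rw [integral_sub (integrable_const _) ((integrable_entry hc hX ν k k).const_mul _),
    integral_const_mul, integral_const]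
  simp [gm]

/-- the second identity -/
theorem idn1 (hc : 0 < c) (hX : ∀ k, (X k).im ≤ -c) (ν : Measure ℝ)
    [IsProbabilityMeasure ν] {β v2 : ℝ} (hβ : ∀ᵐ x ∂ν, |x| ≤ β) (h0 : ∫ x, x ∂ν = 0)
    (h2 : ∫ x, x ^ 2 ∂ν = v2) (k y : T d L) :
    ∫ V, (V y : ℂ) * pv (GX X V *ᵥ Pi.single k 1) y ∂(PP (T d L) ν) =
      -(v2 : ℂ) * ∫ V, Ga X y V * pv (GX X (Function.update V y 0) *ᵥ Pi.single k 1) y
        ∂(PP (T d L) ν) +
      ∫ V, (V y : ℂ) ^ 3 * (Ga X y V ^ 2 * pv (GX X V *ᵥ Pi.single k 1) y) ∂(PP (T d L) ν) := by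
  have hae := ae_all (d := d) (L := L) hβ
  set b : (T d L → ℝ) → ℂ := fun V => pv (GX X (Function.update V y 0) *ᵥ Pi.single k 1) y with hbd
  have hcb : Continuous b := (cont_pv hc hX (Pi.single k 1) y).comp (cont_upd y 0)
  have hib : ∀ (V : T d L → ℝ) (t : ℝ), b (Function.update V y t) = b V := fun V t => by
    simp only [hbd, Function.update_idem]
  have hcG := cont_Ga hc hX y
  have hb : ∀ V, ‖pv (GX X V *ᵥ Pi.single k 1) y‖ ≤ c⁻¹ := fun V => by
    have h := pv_bd hc hX V (Pi.single k 1) y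
    rwa [nsq_single, Real.sqrt_one, mul_one] at h
  have hbb : ∀ V, ‖b V‖ ≤ c⁻¹ := fun V => hb _
  have hGb := Ga_bd hc hX y
  have hc0 : 0 ≤ c⁻¹ := (inv_pos.2 hc).le
  have hVc : Continuous fun V : T d L → ℝ => (V y : ℂ) :=
    Complex.continuous_ofReal.comp (continuous_apply y)
  have i1 : Integrable (fun V : T d L → ℝ => (V y : ℂ) * b V) (PP (T d L) ν) := by
    refine Integrable.of_bound (C := β * c⁻¹) (hVc.mul hcb).aestronglyMeasurable ?_
    filter_upwards [hae] with V hV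
    rw [norm_mul, Complex.norm_real, Real.norm_eq_abs]
    exact mul_le_mul (hV y) (hbb V) (norm_nonneg _) ((abs_nonneg _).trans (hV y))
  have i2 : Integrable (fun V : T d L → ℝ => (((V y) ^ 2 : ℝ) : ℂ) * (Ga X y V * b V))
      (PP (T d L) ν) := by
    refine Integrable.of_bound (C := β ^ 2 * (c⁻¹ * c⁻¹)) ((Complex.continuous_ofReal.comp
      ((continuous_apply y).pow 2)).mul (hcG.mul hcb)).aestronglyMeasurable ?_
    filter_upwards [hae] with V hV
    rw [norm_mul, Complex.norm_real, Real.norm_eq_abs, abs_pow, norm_mul]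
    exact mul_le_mul (pow_le_pow_left₀ (abs_nonneg _) (hV y) 2)
      (mul_le_mul (hGb V) (hbb V) (norm_nonneg _) hc0) (by positivity) (by positivity)
  have i3 : Integrable (fun V : T d L → ℝ =>
      (V y : ℂ) ^ 3 * (Ga X y V ^ 2 * pv (GX X V *ᵥ Pi.single k 1) y)) (PP (T d L) ν) := by
    refine Integrable.of_bound (C := β ^ 3 * ((c⁻¹) ^ 2 * c⁻¹)) ((hVc.pow 3).mul
      ((hcG.pow 2).mul (cont_pv hc hX _ y))).aestronglyMeasurable ?_
    filter_upwards [hae] with V hV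
    rw [norm_mul, norm_pow, Complex.norm_real, Real.norm_eq_abs, norm_mul, norm_pow]
    have h9 : 0 ≤ β := (abs_nonneg _).trans (hV y)
    exact mul_le_mul (pow_le_pow_left₀ (abs_nonneg _) (hV y) 3)
      (mul_le_mul (pow_le_pow_left₀ (norm_nonneg _) (hGb V) 2) (hb V) (norm_nonneg _)
        (by positivity)) (by positivity) (by positivity)
  have hpt : ∀ V : T d L → ℝ, (V y : ℂ) * pv (GX X V *ᵥ Pi.single k 1) y =
      (V y : ℂ) * b V - (((V y) ^ 2 : ℝ) : ℂ) * (Ga X y V * b V) +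
        (V y : ℂ) ^ 3 * (Ga X y V ^ 2 * pv (GX X V *ᵥ Pi.single k 1) y) := by
    intro V
    have h3 := b_eq hc hX V (Pi.single k 1) y
    simp only [hbd]
    push_cast
    linear_combination ((V y : ℂ) - (V y : ℂ) ^ 2 * Ga X y V) * h3
  have f1 := Pool.Agent.W540.BK.fac (T d L) ν y (fun x => x) b continuous_id hcb hib
  have f2 := Pool.Agent.W540.BK.fac (T d L) ν y (fun x => x ^ 2) (fun V => Ga X y V * b V)
    (continuous_pow 2) (hcG.mul hcb) (fun V t => by rw [indep_Ga, hib])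
  rw [h0] at f1
  rw [h2] at f2
  simp only [Complex.ofReal_zero, zero_mul] at f1
  have i12 : Integrable (fun V : T d L → ℝ =>
      (V y : ℂ) * b V - (((V y) ^ 2 : ℝ) : ℂ) * (Ga X y V * b V)) (PP (T d L) ν) := i1.sub i2
  calc ∫ V, (V y : ℂ) * pv (GX X V *ᵥ Pi.single k 1) y ∂(PP (T d L) ν)
      = ∫ V, ((V y : ℂ) * b V - (((V y) ^ 2 : ℝ) : ℂ) * (Ga X y V * b V) +
        (V y : ℂ) ^ 3 * (Ga X y V ^ 2 * pv (GX X V *ᵥ Pi.single k 1) y)) ∂(PP (T d L) ν) :=
        integral_congr_ae (Filter.Eventually.of_forall hpt)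
    _ = _ := by
      rw [integral_add i12 i3, integral_sub i1 i2, f1, f2]
      ring

/-- the mean of the Green functions -/
noncomputable def gb (ν : Measure ℝ) (X : T d L → ℂ) : ℂ :=
  (((NN d L)⁻¹ : ℝ) : ℂ) * ∑ k, gm ν X k

/-- the expansion -/
theorem idn2 (hc : 0 < c) (hX : ∀ k, (X k).im ≤ -c) (ν : Measure ℝ)
    [IsProbabilityMeasure ν] {β v2 : ℝ} (hβ : ∀ᵐ x ∂ν, |x| ≤ β) (h0 : ∫ x, x ∂ν = 0)
    (h2 : ∫ x, x ^ 2 ∂ν = v2) (g : ℂ) (k : T d L) :
    1 - X k * gm ν X k + v2 * g * gm ν X k =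
      -(v2 : ℂ) * g * (∑ y, av y k * ∫ V, (V y : ℂ) * (Ga X y V *
        pv (GX X V *ᵥ Pi.single k 1) y) ∂(PP (T d L) ν)) -
      v2 * (∑ y, av y k * ∫ V, (Ga X y V - g) *
        pv (GX X (Function.update V y 0) *ᵥ Pi.single k 1) y ∂(PP (T d L) ν)) +
      ∑ y, av y k * ∫ V, (V y : ℂ) ^ 3 * (Ga X y V ^ 2 * pv (GX X V *ᵥ Pi.single k 1) y)
        ∂(PP (T d L) ν) := by
  have hae := ae_all (d := d) (L := L) hβ
  have hb : ∀ y V, ‖pv (GX X V *ᵥ Pi.single k 1) y‖ ≤ c⁻¹ := fun y V => by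
    have h := pv_bd hc hX V (Pi.single k 1) y
    rwa [nsq_single, Real.sqrt_one, mul_one] at h
  have hc0 : 0 ≤ c⁻¹ := (inv_pos.2 hc).le
  have e0 := idn0 hc hX ν hβ k
  simp only [idn1 hc hX ν hβ h0 h2 k] at e0
  -- the middle term
  have e1 : ∀ y, ∫ V, Ga X y V * pv (GX X (Function.update V y 0) *ᵥ Pi.single k 1) y
        ∂(PP (T d L) ν) =
      (∫ V, (Ga X y V - g) * pv (GX X (Function.update V y 0) *ᵥ Pi.single k 1) y
        ∂(PP (T d L) ν)) + g * (pv (fun p => gm ν X p * Pi.single (M := fun _ => ℂ) k 1 p) y +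
        ∫ V, (V y : ℂ) * (Ga X y V * pv (GX X V *ᵥ Pi.single k 1) y) ∂(PP (T d L) ν)) := by
    intro y
    have hcb : Continuous fun V : T d L → ℝ =>
        pv (GX X (Function.update V y 0) *ᵥ Pi.single k 1) y :=
      (cont_pv hc hX (Pi.single k 1) y).comp (cont_upd y 0)
    have i1 : Integrable (fun V : T d L → ℝ => (Ga X y V - g) *
        pv (GX X (Function.update V y 0) *ᵥ Pi.single k 1) y) (PP (T d L) ν) := by
      refine Integrable.of_bound (C := (c⁻¹ + ‖g‖) * c⁻¹)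
        (((cont_Ga hc hX y).sub continuous_const).mul hcb).aestronglyMeasurable
        (Filter.Eventually.of_forall fun V => ?_)
      rw [norm_mul]
      exact mul_le_mul ((norm_sub_le _ _).trans (by linarith [Ga_bd hc hX y V])) (hb y _)
        (norm_nonneg _) (by positivity)
    have i2 : Integrable (fun V : T d L → ℝ => pv (GX X V *ᵥ Pi.single k 1) y) (PP (T d L) ν) :=
      Integrable.of_bound (C := c⁻¹) (cont_pv hc hX _ y).aestronglyMeasurable
        (Filter.Eventually.of_forall (hb y))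
    have i3 : Integrable (fun V : T d L → ℝ => (V y : ℂ) * (Ga X y V *
        pv (GX X V *ᵥ Pi.single k 1) y)) (PP (T d L) ν) := by
      refine Integrable.of_bound (C := β * (c⁻¹ * c⁻¹)) ((Complex.continuous_ofReal.comp
        (continuous_apply y)).mul ((cont_Ga hc hX y).mul
          (cont_pv hc hX _ y))).aestronglyMeasurable ?_
      filter_upwards [hae] with V hV
      rw [norm_mul, Complex.norm_real, Real.norm_eq_abs, norm_mul]
      exact mul_le_mul (hV y) (mul_le_mul (Ga_bd hc hX y V) (hb y V) (norm_nonneg _) hc0)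
        (by positivity) ((abs_nonneg _).trans (hV y))
    have i4 : Integrable (fun V : T d L → ℝ => pv (GX X V *ᵥ Pi.single k 1) y + (V y : ℂ) *
        (Ga X y V * pv (GX X V *ᵥ Pi.single k 1) y)) (PP (T d L) ν) := i2.add i3
    rw [← int_pv hc hX ν, ← integral_add i2 i3, ← integral_const_mul,
      ← integral_add i1 (i4.const_mul g)]
    refine integral_congr_ae (Filter.Eventually.of_forall fun V => ?_)
    have h3 := b_eq hc hX V (Pi.single k 1) y
    linear_combination -g * h3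
  have e2 : ∑ y, av y k * pv (fun p => gm ν X p * Pi.single (M := fun _ => ℂ) k 1 p) y =
      gm ν X k := by
    have h4 := expand (fun p => gm ν X p * Pi.single (M := fun _ => ℂ) k 1 p) k
    rw [Pi.single_eq_same, mul_one] at h4
    rw [← h4]
    exact Finset.sum_congr rfl fun y _ => mul_comm _ _
  simp only [e1] at e0
  have e3 : ∀ y, av y k * (-(v2 : ℂ) * ((∫ V, (Ga X y V - g) *
        pv (GX X (Function.update V y 0) *ᵥ Pi.single k 1) y ∂(PP (T d L) ν)) +
        g * (pv (fun p => gm ν X p * Pi.single (M := fun _ => ℂ) k 1 p) y +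
        ∫ V, (V y : ℂ) * (Ga X y V * pv (GX X V *ᵥ Pi.single k 1) y) ∂(PP (T d L) ν))) +
        ∫ V, (V y : ℂ) ^ 3 * (Ga X y V ^ 2 * pv (GX X V *ᵥ Pi.single k 1) y)
        ∂(PP (T d L) ν)) =
      -(v2 : ℂ) * (av y k * ∫ V, (Ga X y V - g) *
        pv (GX X (Function.update V y 0) *ᵥ Pi.single k 1) y ∂(PP (T d L) ν)) +
      -(v2 : ℂ) * g * (av y k * pv (fun p => gm ν X p * Pi.single (M := fun _ => ℂ) k 1 p) y) +
      -(v2 : ℂ) * g * (av y k *
        ∫ V, (V y : ℂ) * (Ga X y V * pv (GX X V *ᵥ Pi.single k 1) y) ∂(PP (T d L) ν)) +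
      av y k * ∫ V, (V y : ℂ) ^ 3 * (Ga X y V ^ 2 * pv (GX X V *ᵥ Pi.single k 1) y)
        ∂(PP (T d L) ν) := fun y => by ring
  simp only [e3, Finset.sum_add_distrib, ← Finset.mul_sum] at e0
  rw [e2] at e0
  rw [e0]
  ring

/-- the bound for the self-energy -/
theorem sig (hc : 0 < c) (hX : ∀ k, (X k).im ≤ -c) (ν : Measure ℝ)
    [IsProbabilityMeasure ν] {β v2 r₁ sd : ℝ} (hβ : ∀ᵐ x ∂ν, |x| ≤ β) (h0 : ∫ x, x ∂ν = 0)
    (h2 : ∫ x, x ^ 2 ∂ν = v2) (hβ0 : 0 ≤ β) (hr0 : 0 ≤ r₁) (hr : β * r₁ ≤ 1) (hsd : 0 ≤ sd)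
    {G₀ : Set (T d L → ℝ)} (hG : MeasurableSet G₀) (hV : ∀ V ∈ G₀, ∀ z, |V z| ≤ β)
    (h1 : ∀ V ∈ G₀, ∀ y, ‖Ga X y V‖ ≤ r₁) (g : ℂ)
    (hs : ∀ y, ∫ V, ‖Ga X y V - g‖ ^ 2 ∂(PP (T d L) ν) ≤ sd ^ 2) (k : T d L) :
    ‖1 - X k * gm ν X k + v2 * g * gm ν X k‖ ≤
      v2 * ‖g‖ * (β * r₁ * Real.sqrt (Mk ν X k) +
        Real.sqrt (NN d L) * (β * (c⁻¹) ^ 2 * (PP (T d L) ν).real G₀ᶜ)) +
      v2 * (sd * Real.sqrt (4 * Mk ν X k + NN d L * ((c⁻¹) ^ 2 * (PP (T d L) ν).real G₀ᶜ))) +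
      (β ^ 3 * r₁ ^ 2 * Real.sqrt (Mk ν X k) +
        Real.sqrt (NN d L) * (β ^ 3 * (c⁻¹) ^ 3 * (PP (T d L) ν).real G₀ᶜ)) := by
  have hae := ae_all (d := d) (L := L) hβ
  have hb : ∀ y V, ‖pv (GX X V *ᵥ Pi.single k 1) y‖ ≤ c⁻¹ := fun y V => by
    have h := pv_bd hc hX V (Pi.single k 1) y
    rwa [nsq_single, Real.sqrt_one, mul_one] at h
  have hc0 : 0 ≤ c⁻¹ := (inv_pos.2 hc).le
  have hv2 : 0 ≤ v2 := by
    rw [← h2]; exact integral_nonneg fun x => sq_nonneg x
  rw [idn2 hc hX ν hβ h0 h2 g k]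
  have t1 := gen hc hX ν k hG (fun y V => (V y : ℂ) * (Ga X y V *
        pv (GX X V *ᵥ Pi.single k 1) y)) (fun y => ((Complex.continuous_ofReal.comp
        (continuous_apply y)).mul ((cont_Ga hc hX y).mul
          (cont_pv hc hX _ y))).aestronglyMeasurable) (C := β * r₁) (C' := β * (c⁻¹) ^ 2)
    (by positivity) (fun V hVG y => by
      rw [norm_mul, Complex.norm_real, Real.norm_eq_abs, norm_mul]
      have := hV V hVG y
      have := h1 V hVG y
      calc |V y| * (‖Ga X y V‖ * ‖pv (GX X V *ᵥ Pi.single k 1) y‖) ≤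
          β * (r₁ * ‖pv (GX X V *ᵥ Pi.single k 1) y‖) := by gcongr
        _ = _ := by ring) (by
      filter_upwards [hae] with V hV' y
      rw [norm_mul, Complex.norm_real, Real.norm_eq_abs, norm_mul]
      have := hV' y
      have := Ga_bd hc hX y V
      have := hb y V
      calc |V y| * (‖Ga X y V‖ * ‖pv (GX X V *ᵥ Pi.single k 1) y‖) ≤
          β * (c⁻¹ * c⁻¹) := by gcongr
        _ = _ := by ring)
  have t3 := gen hc hX ν k hG (fun y V => (V y : ℂ) ^ 3 * (Ga X y V ^ 2 *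
        pv (GX X V *ᵥ Pi.single k 1) y)) (fun y => (((Complex.continuous_ofReal.comp
        (continuous_apply y)).pow 3).mul (((cont_Ga hc hX y).pow 2).mul
          (cont_pv hc hX _ y))).aestronglyMeasurable) (C := β ^ 3 * r₁ ^ 2)
          (C' := β ^ 3 * (c⁻¹) ^ 3)
    (by positivity) (fun V hVG y => by
      rw [norm_mul, norm_pow, Complex.norm_real, Real.norm_eq_abs, norm_mul, norm_pow]
      have := hV V hVG y
      have := h1 V hVG y
      calc |V y| ^ 3 * (‖Ga X y V‖ ^ 2 * ‖pv (GX X V *ᵥ Pi.single k 1) y‖) ≤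
          β ^ 3 * (r₁ ^ 2 * ‖pv (GX X V *ᵥ Pi.single k 1) y‖) := by gcongr
        _ = _ := by ring) (by
      filter_upwards [hae] with V hV' y
      rw [norm_mul, norm_pow, Complex.norm_real, Real.norm_eq_abs, norm_mul, norm_pow]
      have := hV' y
      have := Ga_bd hc hX y V
      have := hb y V
      calc |V y| ^ 3 * (‖Ga X y V‖ ^ 2 * ‖pv (GX X V *ᵥ Pi.single k 1) y‖) ≤
          β ^ 3 * ((c⁻¹) ^ 2 * c⁻¹) := by gcongr
        _ = _ := by ring)
  -- the middle term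
  have t2 : ‖∑ y, av y k * ∫ V, (Ga X y V - g) *
        pv (GX X (Function.update V y 0) *ᵥ Pi.single k 1) y ∂(PP (T d L) ν)‖ ≤
      sd * Real.sqrt (4 * Mk ν X k + NN d L * ((c⁻¹) ^ 2 * (PP (T d L) ν).real G₀ᶜ)) := by
    have hi1 : Integrable ((G₀ᶜ).indicator (1 : (T d L → ℝ) → ℝ)) (PP (T d L) ν) :=
      (integrable_const (1 : ℝ)).indicator hG.compl
    have hcb : ∀ y, Continuous fun V : T d L → ℝ =>
        pv (GX X (Function.update V y 0) *ᵥ Pi.single k 1) y := fun y =>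
      (cont_pv hc hX (Pi.single k 1) y).comp (cont_upd y 0)
    set B : T d L → ℝ := fun y => ∫ V, ‖pv (GX X (Function.update V y 0) *ᵥ Pi.single k 1) y‖ ^ 2
      ∂(PP (T d L) ν) with hB
    have hB0 : ∀ y, 0 ≤ B y := fun y => integral_nonneg fun V => by positivity
    have hint : ∀ y, ‖∫ V, (Ga X y V - g) *
        pv (GX X (Function.update V y 0) *ᵥ Pi.single k 1) y ∂(PP (T d L) ν)‖ ≤
        sd * Real.sqrt (B y) := by
      intro y
      refine (norm_integral_le_integral_norm _).trans ?_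
      simp only [norm_mul]
      have h5 := cs_int (P := PP (T d L) ν) (f := fun V => ‖Ga X y V - g‖)
        (g := fun V => ‖pv (GX X (Function.update V y 0) *ᵥ Pi.single k 1) y‖)
        (C := c⁻¹ + ‖g‖)
        ((cont_Ga hc hX y).sub continuous_const).norm.aestronglyMeasurable
        (hcb y).norm.aestronglyMeasurable
        (Filter.Eventually.of_forall fun V => by
          rw [abs_of_nonneg (norm_nonneg _)]
          exact (norm_sub_le _ _).trans (by linarith [Ga_bd hc hX y V]))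
        (Filter.Eventually.of_forall fun V => by
          rw [abs_of_nonneg (norm_nonneg _)]
          exact (hb y _).trans (by linarith [norm_nonneg g]))
      refine Real.le_sqrt_of_sq_le (h5.trans (mul_le_mul_of_nonneg_right (hs y) (hB0 y))) |>.trans ?_
      rw [Real.sqrt_mul (sq_nonneg _), Real.sqrt_sq hsd]
    have hBs : ∑ y, B y ≤ 4 * Mk ν X k + NN d L * ((c⁻¹) ^ 2 * (PP (T d L) ν).real G₀ᶜ) := by
      have h6 : ∀ y, B y ≤ 4 * (∫ V, ‖pv (GX X V *ᵥ Pi.single k 1) y‖ ^ 2 ∂(PP (T d L) ν)) +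
          (c⁻¹) ^ 2 * (PP (T d L) ν).real G₀ᶜ := by
        intro y
        have j1 : Integrable (fun V => ‖pv (GX X V *ᵥ Pi.single k 1) y‖ ^ 2) (PP (T d L) ν) :=
          Integrable.of_bound (C := (c⁻¹) ^ 2) ((cont_pv hc hX _ y).norm.pow 2).aestronglyMeasurable
            (Filter.Eventually.of_forall fun V => by
              rw [Real.norm_eq_abs, abs_of_nonneg (by positivity)]
              exact pow_le_pow_left₀ (norm_nonneg _) (hb y V) 2)
        have j2 : Integrable (fun V => ‖pv (GX X (Function.update V y 0) *ᵥ Pi.single k 1) y‖ ^ 2)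
            (PP (T d L) ν) :=
          Integrable.of_bound (C := (c⁻¹) ^ 2) ((hcb y).norm.pow 2).aestronglyMeasurable
            (Filter.Eventually.of_forall fun V => by
              rw [Real.norm_eq_abs, abs_of_nonneg (by positivity)]
              exact pow_le_pow_left₀ (norm_nonneg _) (hb y _) 2)
        have hpt : ∀ V, ‖pv (GX X (Function.update V y 0) *ᵥ Pi.single k 1) y‖ ^ 2 ≤
            4 * ‖pv (GX X V *ᵥ Pi.single k 1) y‖ ^ 2 + (c⁻¹) ^ 2 * (G₀ᶜ).indicator 1 V := by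
          intro V
          by_cases hVG : V ∈ G₀
          · rw [Set.indicator_of_notMem (by simpa using hVG), mul_zero, add_zero]
            have h7 : pv (GX X (Function.update V y 0) *ᵥ Pi.single k 1) y =
                (1 + V y * Ga X y V) * pv (GX X V *ᵥ Pi.single k 1) y := by
              linear_combination -(b_eq hc hX V (Pi.single k 1) y)
            have h8 : ‖(1 : ℂ) + V y * Ga X y V‖ ≤ 2 := by
              refine (norm_add_le _ _).trans ?_
              rw [norm_one, norm_mul, Complex.norm_real, Real.norm_eq_abs]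
              have := mul_le_mul (hV V hVG y) (h1 V hVG y) (norm_nonneg _) hβ0
              linarith
            rw [h7, norm_mul, mul_pow]
            have h9 : ‖(1 : ℂ) + V y * Ga X y V‖ ^ 2 ≤ 4 := by
              calc _ ≤ (2 : ℝ) ^ 2 := pow_le_pow_left₀ (norm_nonneg _) h8 2
                _ = 4 := by norm_num
            exact mul_le_mul_of_nonneg_right h9 (by positivity)
          · rw [Set.indicator_of_mem (by simpa using hVG), Pi.one_apply, mul_one]
            have := pow_le_pow_left₀ (norm_nonneg _) (hb y (Function.update V y 0)) 2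
            have h10 : 0 ≤ 4 * ‖pv (GX X V *ᵥ Pi.single k 1) y‖ ^ 2 := by positivity
            linarith
        calc B y ≤ ∫ V, (4 * ‖pv (GX X V *ᵥ Pi.single k 1) y‖ ^ 2 +
              (c⁻¹) ^ 2 * (G₀ᶜ).indicator 1 V) ∂(PP (T d L) ν) :=
              integral_mono j2 ((j1.const_mul _).add (hi1.const_mul _)) hpt
          _ = _ := by
            rw [integral_add (j1.const_mul _) (hi1.const_mul _), integral_const_mul,
              integral_const_mul, integral_indicator_one hG.compl]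
      calc ∑ y, B y ≤ ∑ y, (4 * (∫ V, ‖pv (GX X V *ᵥ Pi.single k 1) y‖ ^ 2 ∂(PP (T d L) ν)) +
          (c⁻¹) ^ 2 * (PP (T d L) ν).real G₀ᶜ) := Finset.sum_le_sum fun y _ => h6 y
        _ = _ := by
          rw [Finset.sum_add_distrib, ← Finset.mul_sum, int_sum_pv hc hX, Finset.sum_const,
            Finset.card_univ, nsmul_eq_mul, card_T]
    have h11 : ∑ y : T d L, Real.sqrt (B y) ≤ Real.sqrt (NN d L) * Real.sqrt (∑ y, B y) := by
      have h12 := Finset.sum_mul_sq_le_sq_mul_sq (Finset.univ : Finset (T d L)) (fun _ => (1 : ℝ))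
        (fun y => Real.sqrt (B y))
      simp only [one_mul, one_pow, Finset.sum_const, Finset.card_univ, nsmul_eq_mul, mul_one,
        card_T, Real.sq_sqrt (hB0 _)] at h12
      rw [← Real.sqrt_mul NN_pos.le]
      exact Real.le_sqrt_of_sq_le h12
    have hs' := Real.sqrt_pos.2 (NN_pos (d := d) (L := L))
    calc ‖∑ y, av y k * ∫ V, (Ga X y V - g) *
        pv (GX X (Function.update V y 0) *ᵥ Pi.single k 1) y ∂(PP (T d L) ν)‖
        ≤ ∑ y, (Real.sqrt (NN d L))⁻¹ * (sd * Real.sqrt (B y)) := by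
          refine (norm_sum_le _ _).trans (Finset.sum_le_sum fun y _ => ?_)
          rw [norm_mul, av_norm]
          exact mul_le_mul_of_nonneg_left (hint y) (inv_nonneg.2 hs'.le)
      _ = (Real.sqrt (NN d L))⁻¹ * (sd * ∑ y, Real.sqrt (B y)) := by
        rw [← Finset.mul_sum, ← Finset.mul_sum]
      _ ≤ (Real.sqrt (NN d L))⁻¹ * (sd * (Real.sqrt (NN d L) * Real.sqrt (∑ y, B y))) := by
        have := inv_nonneg.2 hs'.le
        gcongr
      _ = sd * Real.sqrt (∑ y, B y) := by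
        have : (Real.sqrt (NN d L))⁻¹ * Real.sqrt (NN d L) = 1 := inv_mul_cancel₀ hs'.ne'
        calc _ = ((Real.sqrt (NN d L))⁻¹ * Real.sqrt (NN d L)) * (sd * Real.sqrt (∑ y, B y)) := by
              ring
          _ = _ := by rw [this, one_mul]
      _ ≤ _ := mul_le_mul_of_nonneg_left (Real.sqrt_le_sqrt hBs) hsd
  -- sum up
  refine (norm_add_le _ _).trans (add_le_add ((norm_sub_le _ _).trans (add_le_add ?_ ?_)) t3)
  · rw [norm_mul, norm_mul, norm_neg, Complex.norm_real, Real.norm_eq_abs, abs_of_nonneg hv2]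
    exact mul_le_mul_of_nonneg_left t1 (by positivity)
  · rw [norm_mul, Complex.norm_real, Real.norm_eq_abs, abs_of_nonneg hv2]
    exact mul_le_mul_of_nonneg_left t2 hv2

end inv

end Pool.Agent.Run7.h442.BA
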