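import Pool.Agent.Run7.h442.BA.Idn
import Pool.Agent.Run7.h442.BA.Good

/-! Project BA: the second moment of `G e_k`. -/

set_option autoImplicit false
set_option linter.unusedSectionVars false

open scoped BigOperators Matrix
open MeasureTheory

namespace Pool.Agent.Run7.h442.BA

open Pool.Agent.W788.BK (PP nsq nsq_nonneg nsq_eq nsq_smul cs_star cs_norm adjoint nsq_eq_zero
  nsq_star instPP nsq_single star_single)
open Pool.Agent.W788.MFP.Four (T e NN adj e_comm e_add_left e_add e_zero e_neg e_neg_left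
  e_normSq sum_e NN_pos card_T ft q)

variable {d L : ℕ} [NeZero L]

theorem mom2 (ν : Measure ℝ) [IsProbabilityMeasure ν] {v2 : ℝ} (h0 : ∫ x, x ∂ν = 0)
    (h2 : ∫ x, x ^ 2 ∂ν = v2) (y z : T d L) :
    ∫ V : T d L → ℝ, (V y : ℂ) * (V z : ℂ) ∂(PP (T d L) ν) = if y = z then (v2 : ℂ) else 0 := by
  by_cases h : y = z
  · subst h
    rw [if_pos rfl]
    have f := Pool.Agent.W540.BK.fac (T d L) ν y (fun x => x ^ 2) (fun _ => (1 : ℂ))
      (continuous_pow 2) continuous_const (fun _ _ => rfl)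
    rw [h2] at f
    simp only [mul_one, integral_const] at f
    have e1 : ∀ V : T d L → ℝ, (V y : ℂ) * (V y : ℂ) = (((V y) ^ 2 : ℝ) : ℂ) := fun V => by
      push_cast; ring
    simp only [e1]
    rw [f]
    simp
  · rw [if_neg h]
    have f := Pool.Agent.W540.BK.fac (T d L) ν y (fun x => x) (fun V => (V z : ℂ))
      continuous_id (Complex.continuous_ofReal.comp (continuous_apply z))
      (fun V t => by rw [Function.update_of_ne (Ne.symm h)])
    rw [h0] at f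
    simpa using f

/-- orthogonality -/
theorem orth (ν : Measure ℝ) [IsProbabilityMeasure ν] {β v2 : ℝ} (hβ : ∀ᵐ x ∂ν, |x| ≤ β)
    (h0 : ∫ x, x ∂ν = 0) (h2 : ∫ x, x ^ 2 ∂ν = v2) (ζ : T d L → ℂ) :
    ∫ V : T d L → ℝ, ‖∑ y, (V y : ℂ) * ζ y‖ ^ 2 ∂(PP (T d L) ν) = v2 * ∑ y, ‖ζ y‖ ^ 2 := by
  have hae := ae_all (d := d) (L := L) hβ
  have e1 : ∀ V : T d L → ℝ, ((‖∑ y, (V y : ℂ) * ζ y‖ ^ 2 : ℝ) : ℂ) =
      ∑ y, ∑ z, (ζ y * (starRingEnd ℂ) (ζ z)) * ((V y : ℂ) * (V z : ℂ)) := by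
    intro V
    rw [← Complex.normSq_eq_norm_sq, ← Complex.mul_conj, map_sum, Finset.sum_mul_sum]
    refine Finset.sum_congr rfl fun y _ => Finset.sum_congr rfl fun z _ => ?_
    rw [map_mul, Complex.conj_ofReal]
    ring
  have hi : ∀ y z, Integrable (fun V : T d L → ℝ => (ζ y * (starRingEnd ℂ) (ζ z)) *
      ((V y : ℂ) * (V z : ℂ))) (PP (T d L) ν) := by
    intro y z
    refine Integrable.const_mul ?_ _
    refine Integrable.of_bound (C := β * β) ((Complex.continuous_ofReal.comp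
      (continuous_apply y)).mul (Complex.continuous_ofReal.comp
      (continuous_apply z))).aestronglyMeasurable ?_
    filter_upwards [hae] with V hV
    rw [norm_mul, Complex.norm_real, Real.norm_eq_abs, Complex.norm_real, Real.norm_eq_abs]
    exact mul_le_mul (hV y) (hV z) (abs_nonneg _) ((abs_nonneg _).trans (hV y))
  have e2 : ((∫ V : T d L → ℝ, ‖∑ y, (V y : ℂ) * ζ y‖ ^ 2 ∂(PP (T d L) ν) : ℝ) : ℂ) =
      ((v2 * ∑ y, ‖ζ y‖ ^ 2 : ℝ) : ℂ) := by
    rw [← integral_complex_ofReal]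
    simp only [e1]
    rw [integral_finsetSum _ fun y _ => integrable_finsetSum _ fun z _ => hi y z]
    push_cast
    rw [Finset.mul_sum]
    refine Finset.sum_congr rfl fun y _ => ?_
    rw [integral_finsetSum _ fun z _ => hi y z, Finset.sum_eq_single y]
    · rw [integral_const_mul, mom2 ν h0 h2, if_pos rfl, Complex.mul_conj,
        Complex.normSq_eq_norm_sq]
      push_cast
      ring
    · intro z _ hz
      rw [integral_const_mul, mom2 ν h0 h2, if_neg (Ne.symm hz), mul_zero]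
    · intro h
      exact absurd (Finset.mem_univ y) h
  exact_mod_cast e2

theorem pv_single (k y : T d L) : pv (Pi.single k 1) y = (starRingEnd ℂ) (av y k) := by
  unfold pv
  rw [dotProduct_single, mul_one, Pi.star_apply]
  rfl

/-- the potential applied to a plane wave -/
theorem orth_VM (ν : Measure ℝ) [IsProbabilityMeasure ν] {β v2 : ℝ} (hβ : ∀ᵐ x ∂ν, |x| ≤ β)
    (h0 : ∫ x, x ∂ν = 0) (h2 : ∫ x, x ^ 2 ∂ν = v2) (k p : T d L) :
    ∫ V : T d L → ℝ, ‖(VM V *ᵥ Pi.single k 1) p‖ ^ 2 ∂(PP (T d L) ν) = v2 * (NN d L)⁻¹ := by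
  have e1 : ∀ V : T d L → ℝ, (VM V *ᵥ Pi.single k 1) p =
      ∑ y, (V y : ℂ) * ((starRingEnd ℂ) (av y k) * av y p) := by
    intro V
    rw [VM_mulVec, Finset.sum_apply]
    refine Finset.sum_congr rfl fun y _ => ?_
    rw [Pi.smul_apply, smul_eq_mul, pv_single, mul_assoc]
  simp only [e1]
  rw [orth ν hβ h0 h2]
  congr 1
  have e2 : ∀ y : T d L, ‖(starRingEnd ℂ) (av y k) * av y p‖ ^ 2 = ((NN d L)⁻¹) ^ 2 := by
    intro y
    rw [norm_mul, RCLike.norm_conj, av_norm, av_norm, ← mul_inv, Real.mul_self_sqrt NN_pos.le]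
  simp only [e2]
  rw [Finset.sum_const, Finset.card_univ, nsmul_eq_mul, card_T]
  have := (NN_pos (d := d) (L := L)).ne'
  field_simp

section dat

variable {J : T d L → ℝ} {X : T d L → ℂ} {c W a₀ g : ℝ} {Q : T d L → Prop}

theorem jn_add_le (J : T d L → ℝ) (hJ : ∀ k, 0 ≤ J k) (u w : T d L → ℂ) :
    jn J (u - w) ≤ 2 * jn J u + 2 * jn J w := by
  unfold jn
  rw [Finset.mul_sum, Finset.mul_sum, ← Finset.sum_add_distrib]
  refine Finset.sum_le_sum fun k _ => ?_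
  have h1 : ‖u k - w k‖ ^ 2 ≤ 2 * ‖u k‖ ^ 2 + 2 * ‖w k‖ ^ 2 := by
    have h2 := norm_sub_le (u k) (w k)
    have h3 := norm_nonneg (u k - w k)
    nlinarith [sq_nonneg (‖u k‖ - ‖w k‖)]
  calc J k * ‖(u - w) k‖ ^ 2 ≤ J k * (2 * ‖u k‖ ^ 2 + 2 * ‖w k‖ ^ 2) :=
        mul_le_mul_of_nonneg_left h1 (hJ k)
    _ = _ := by ring

theorem rst_sub (Q : T d L → Prop) (u w : T d L → ℂ) : rst Q (u - w) = rst Q u - rst Q w := by
  funext k
  unfold rst
  simp only [Pi.sub_apply]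
  split_ifs <;> simp

theorem jn_rst_le {J : T d L → ℝ} (hJ : ∀ k, 0 ≤ J k) (Q : T d L → Prop) (u : T d L → ℂ) :
    jn J (rst Q u) ≤ jn J u := by
  unfold jn
  refine Finset.sum_le_sum fun k _ => ?_
  unfold rst
  split_ifs with h
  · exact le_rfl
  · rw [norm_zero, zero_pow two_ne_zero, mul_zero]
    exact mul_nonneg (hJ k) (sq_nonneg _)

/-- pointwise estimate on the good set -/
theorem Dat.wpt (D : Dat J X c W a₀ g Q) {V : T d L → ℝ} (hV : Gd J W Q V) {S' αP : ℝ}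
    (hS0 : 0 < S') (hα0 : 0 < αP) (hS : ∀ k, Q k → S' ≤ J k) (hS2 : ∀ k, ¬ Q k → J k ≤ 2 * S')
    (hα : ∀ k, ¬ Q k → αP ≤ -(X k).im) (w f : T d L → ℂ)
    (hf : ∀ k, X k * w k + (VM V *ᵥ w) k = f k) :
    nsq w ≤ 31 * W ^ 2 / αP * (∑ p, -(X p).im * ‖w p‖ ^ 2) +
      15 / S' * jn (fun k => (J k)⁻¹) (rst Q f) := by
  classical
  have hW0 : 0 ≤ W := by linarith [D.hW]
  have hJi : ∀ k, 0 < (J k)⁻¹ := fun k => inv_pos.2 (D.hJ k)
  have hfar := far D.hJ hW0 hV.h1 hV.h2 D.hQ w f (fun k _ => hf k)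
  set F := jn (fun k => (J k)⁻¹) (rst Q f) with hF
  set A := jn J (rst (fun k => ¬ Q k) w) with hA
  have hF0 : 0 ≤ F := jn_nonneg hJi _
  have hA0 : 0 ≤ A := jn_nonneg D.hJ _
  have h1 : jn J (rst Q w) ≤ 128 / 9 * F + 128 / 9 * (W ^ 2 * A) := by
    have h2 := pow_le_pow_left₀ (Real.sqrt_nonneg _) hfar 2
    rw [Real.sq_sqrt (jn_nonneg D.hJ _)] at h2
    have h3 := Real.sq_sqrt hF0
    have h4 := Real.sq_sqrt hA0
    nlinarith [sq_nonneg (Real.sqrt F - W * Real.sqrt A)]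
  -- the near part
  set B := ∑ p, (if Q p then 0 else ‖w p‖ ^ 2) with hB
  have hB0 : 0 ≤ B := Finset.sum_nonneg fun p _ => by split_ifs <;> positivity
  have hAB : A ≤ 2 * S' * B := by
    rw [hA, hB, Finset.mul_sum]
    unfold jn
    refine Finset.sum_le_sum fun p _ => ?_
    unfold rst
    by_cases hp : Q p
    · rw [if_pos hp, if_neg (not_not.2 hp)]; simp
    · rw [if_neg hp, if_pos hp]
      exact mul_le_mul_of_nonneg_right (hS2 p hp) (sq_nonneg _)
  have hBα : αP * B ≤ ∑ p, -(X p).im * ‖w p‖ ^ 2 := by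
    rw [hB, Finset.mul_sum]
    refine Finset.sum_le_sum fun p _ => ?_
    by_cases hp : Q p
    · rw [if_pos hp, mul_zero]
      have := D.hX p
      have := D.hc
      exact mul_nonneg (by linarith) (sq_nonneg _)
    · rw [if_neg hp]
      exact mul_le_mul_of_nonneg_right (hα p hp) (sq_nonneg _)
  have hns : nsq w ≤ B + jn J (rst Q w) / S' := by
    rw [hB]
    unfold nsq jn
    rw [Finset.sum_div, ← Finset.sum_add_distrib]
    refine Finset.sum_le_sum fun p _ => ?_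
    unfold rst
    by_cases hp : Q p
    · rw [if_pos hp, if_pos hp, zero_add, le_div_iff₀ hS0]
      have := mul_le_mul_of_nonneg_right (hS p hp) (sq_nonneg ‖w p‖)
      linarith
    · rw [if_neg hp, if_neg hp]; simp
  have h5 : jn J (rst Q w) / S' ≤ 15 / S' * F + 30 * W ^ 2 * B := by
    rw [div_le_iff₀ hS0]
    have h6 : (15 / S' * F + 30 * W ^ 2 * B) * S' = 15 * F + 15 * (W ^ 2 * (2 * S' * B)) := by
      field_simp
      ring
    rw [h6]
    have h7 : W ^ 2 * A ≤ W ^ 2 * (2 * S' * B) := mul_le_mul_of_nonneg_left hAB (sq_nonneg _)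
    have h8 : 0 ≤ W ^ 2 * (2 * S' * B) := by positivity
    linarith
  have hW1 : 1 ≤ W ^ 2 := by nlinarith [D.hW]
  have h9 : nsq w ≤ 31 * W ^ 2 * B + 15 / S' * F := by nlinarith
  have h10 : 31 * W ^ 2 * B ≤ 31 * W ^ 2 / αP * (∑ p, -(X p).im * ‖w p‖ ^ 2) := by
    calc 31 * W ^ 2 * B = 31 * W ^ 2 / αP * (αP * B) := by field_simp
      _ ≤ _ := mul_le_mul_of_nonneg_left hBα (by positivity)
  linarith

/-- sums which differ in one term -/
theorem sum_single_change (α : T d L → ℝ) (u : T d L → ℂ) (γ : ℂ) (k : T d L) :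
    ∑ p, α p * ‖(u - γ • (Pi.single k (1 : ℂ) : T d L → ℂ)) p‖ ^ 2 =
      ∑ p, α p * ‖u p‖ ^ 2 + α k * (‖γ‖ ^ 2 - 2 * ((starRingEnd ℂ) γ * u k).re) := by
  classical
  rw [← Finset.add_sum_erase _ _ (Finset.mem_univ k),
    ← Finset.add_sum_erase Finset.univ (fun p => α p * ‖u p‖ ^ 2) (Finset.mem_univ k)]
  have h1 : ∑ p ∈ Finset.univ.erase k, α p * ‖(u - γ • (Pi.single k (1 : ℂ) : T d L → ℂ)) p‖ ^ 2 =
      ∑ p ∈ Finset.univ.erase k, α p * ‖u p‖ ^ 2 := by
    refine Finset.sum_congr rfl fun p hp => ?_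
    rw [Pi.sub_apply, Pi.smul_apply, Pi.single_eq_of_ne (Finset.ne_of_mem_erase hp), smul_zero,
      sub_zero]
  rw [h1]
  have h2 : ‖(u - γ • (Pi.single k (1 : ℂ) : T d L → ℂ)) k‖ ^ 2 =
      ‖u k‖ ^ 2 + (‖γ‖ ^ 2 - 2 * ((starRingEnd ℂ) γ * u k).re) := by
    rw [Pi.sub_apply, Pi.smul_apply, Pi.single_eq_same, smul_eq_mul, mul_one,
      ← Complex.normSq_eq_norm_sq, ← Complex.normSq_eq_norm_sq, ← Complex.normSq_eq_norm_sq,
      Complex.normSq_apply, Complex.normSq_apply, Complex.normSq_apply]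
    simp only [Complex.sub_re, Complex.sub_im, Complex.mul_re, Complex.conj_re, Complex.conj_im]
    ring
  rw [h2]
  ring

theorem Dat.Mk_le (D : Dat J X c W a₀ g Q) (ν : Measure ℝ) [IsProbabilityMeasure ν] {β v2 : ℝ}
    (hβ : ∀ᵐ x ∂ν, |x| ≤ β) (h0 : ∫ x, x ∂ν = 0) (h2 : ∫ x, x ^ 2 ∂ν = v2)
    {G₀ : Set (T d L → ℝ)} (hG : MeasurableSet G₀) (hGd : ∀ V ∈ G₀, Gd J W Q V) {S' αP : ℝ}
    (hS0 : 0 < S') (hα0 : 0 < αP) (hS : ∀ k, Q k → S' ≤ J k) (hS2 : ∀ k, ¬ Q k → J k ≤ 2 * S')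
    (hα : ∀ k, ¬ Q k → αP ≤ -(X k).im) (k : T d L) :
    Mk ν X k ≤ ‖gm ν X k‖ ^ 2 * (1 + 30 * v2 * g / S') +
      31 * W ^ 2 / αP * (‖gm ν X k‖ * ‖1 - X k * gm ν X k‖) +
      30 / S' ^ 2 * ‖1 - X k * gm ν X k‖ ^ 2 + 4 * (c⁻¹) ^ 2 * (PP (T d L) ν).real G₀ᶜ := by
  classical
  have hc := D.hc
  have hX := D.hX
  have hae := ae_all (d := d) (L := L) hβ
  have hJi : ∀ p, 0 < (J p)⁻¹ := fun p => inv_pos.2 (D.hJ p)
  have hc0 : 0 ≤ c⁻¹ := (inv_pos.2 hc).le
  have hv2 : 0 ≤ v2 := by rw [← h2]; exact integral_nonneg fun x => sq_nonneg x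
  set γ := gm ν X k with hγ
  set ek : T d L → ℂ := Pi.single k 1 with hek
  set w : (T d L → ℝ) → T d L → ℂ := fun V => GX X V *ᵥ ek - γ • ek with hw
  set f : (T d L → ℝ) → T d L → ℂ := fun V => (1 - X k * γ) • ek - γ • (VM V *ᵥ ek) with hfd
  have hf : ∀ V p, X p * w V p + (VM V *ᵥ w V) p = f V p := by
    intro V p
    rw [← MX_mulVec]
    simp only [hw, hfd]
    rw [Matrix.mulVec_sub, Matrix.mulVec_mulVec, mul_GX hc hX, Matrix.one_mulVec,
      Matrix.mulVec_smul, Pi.sub_apply, Pi.smul_apply, MX_mulVec, Pi.sub_apply, Pi.smul_apply,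
      Pi.smul_apply, smul_eq_mul, smul_eq_mul, smul_eq_mul]
    by_cases hp : p = k
    · subst hp; rw [hek, Pi.single_eq_same]; ring
    · rw [hek, Pi.single_eq_of_ne hp]; ring
  have hGk : ∀ V, (GX X V *ᵥ ek) k = GX X V k k := fun V => mulVec_single_one _ _ _
  have hgb : |γ.re| ≤ c⁻¹ ∧ ‖γ‖ ≤ c⁻¹ := by
    have h3 : ‖γ‖ ≤ c⁻¹ := by
      rw [hγ]
      unfold gm
      refine (norm_integral_le_of_norm_le_const
        (Filter.Eventually.of_forall fun V => entry_bd hc hX V k k)).trans ?_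
      simp
    exact ⟨(Complex.abs_re_le_norm _).trans h3, h3⟩
  -- integrals
  have iG : Integrable (fun V => GX X V k k) (PP (T d L) ν) := integrable_entry hc hX ν k k
  have iGre : Integrable (fun V => ((starRingEnd ℂ) γ * GX X V k k).re) (PP (T d L) ν) :=
    (iG.const_mul ((starRingEnd ℂ) γ)).re
  have eGre : ∫ V, ((starRingEnd ℂ) γ * GX X V k k).re ∂(PP (T d L) ν) = ‖γ‖ ^ 2 := by
    have h3 : ∫ V, ((starRingEnd ℂ) γ * GX X V k k).re ∂(PP (T d L) ν) =
        (∫ V, (starRingEnd ℂ) γ * GX X V k k ∂(PP (T d L) ν)).re :=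
      integral_re (iG.const_mul ((starRingEnd ℂ) γ))
    rw [h3, integral_const_mul]
    have h4 : ∫ V, GX X V k k ∂(PP (T d L) ν) = γ := rfl
    rw [h4, mul_comm, Complex.mul_conj, Complex.ofReal_re, Complex.normSq_eq_norm_sq]
  have iGim : Integrable (fun V => (GX X V k k).im) (PP (T d L) ν) := iG.im
  have iS : Integrable (fun V => ‖γ‖ ^ 2 - 2 * ((starRingEnd ℂ) γ * GX X V k k).re)
      (PP (T d L) ν) := (integrable_const _).sub (iGre.const_mul 2)
  have iS2 : Integrable (fun V => -(X k).im *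
      (‖γ‖ ^ 2 - 2 * ((starRingEnd ℂ) γ * GX X V k k).re)) (PP (T d L) ν) := iS.const_mul _
  have eGim : ∫ V, (GX X V k k).im ∂(PP (T d L) ν) = γ.im := integral_im iG
  -- the norm of w
  have hnw : ∀ V, nsq (w V) = nsq (GX X V *ᵥ ek) +
      (‖γ‖ ^ 2 - 2 * ((starRingEnd ℂ) γ * GX X V k k).re) := by
    intro V
    have h3 := sum_single_change (fun _ => (1 : ℝ)) (GX X V *ᵥ ek) γ k
    simp only [one_mul] at h3
    rw [hGk] at h3
    exact h3
  have hαw : ∀ V, ∑ p, -(X p).im * ‖w V p‖ ^ 2 = (GX X V k k).im +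
      -(X k).im * (‖γ‖ ^ 2 - 2 * ((starRingEnd ℂ) γ * GX X V k k).re) := by
    intro V
    have h3 := sum_single_change (fun p => -(X p).im) (GX X V *ᵥ ek) γ k
    rw [hGk] at h3
    rw [h3, ← ward hc hX V ek, hek, star_single, single_dotProduct, one_mul, mulVec_single_one]
  have inG : Integrable (fun V => nsq (GX X V *ᵥ ek)) (PP (T d L) ν) :=
    Integrable.of_bound (C := (c ^ 2)⁻¹) (cont_nsq hc hX ek).aestronglyMeasurable
      (Filter.Eventually.of_forall fun V => by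
        rw [Real.norm_eq_abs, abs_of_nonneg (nsq_nonneg _)]
        have := GX_bd hc hX V ek
        rwa [hek, nsq_single, mul_one] at this)
  have inw : Integrable (fun V => nsq (w V)) (PP (T d L) ν) := by
    simp only [hnw]
    exact inG.add iS
  have e1 : ∫ V, nsq (w V) ∂(PP (T d L) ν) = Mk ν X k - ‖γ‖ ^ 2 := by
    simp only [hnw]
    rw [integral_add inG iS,
      integral_sub (integrable_const _) (iGre.const_mul 2), integral_const_mul, eGre,
      integral_const]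
    simp only [probReal_univ, one_smul, smul_eq_mul, one_mul]
    unfold Mk
    ring
  have iα : Integrable (fun V => ∑ p, -(X p).im * ‖w V p‖ ^ 2) (PP (T d L) ν) := by
    simp only [hαw]
    exact iGim.add iS2
  have e2 : ∫ V, (∑ p, -(X p).im * ‖w V p‖ ^ 2) ∂(PP (T d L) ν) ≤ ‖γ‖ * ‖1 - X k * γ‖ := by
    simp only [hαw]
    rw [integral_add iGim iS2,
      integral_const_mul, integral_sub (integrable_const _) (iGre.const_mul 2),
      integral_const_mul, eGre, eGim, integral_const]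
    simp only [probReal_univ, one_smul, smul_eq_mul, one_mul]
    have h3 : γ.im + -(X k).im * (‖γ‖ ^ 2 - 2 * ‖γ‖ ^ 2) =
        -((starRingEnd ℂ) γ * (1 - X k * γ)).im := by
      rw [← Complex.normSq_eq_norm_sq, Complex.normSq_apply]
      simp only [Complex.mul_im, Complex.sub_re, Complex.sub_im, Complex.one_re, Complex.one_im,
        Complex.mul_re, Complex.conj_re, Complex.conj_im]
      ring
    rw [h3]
    refine (neg_le_abs _).trans ((Complex.abs_im_le_norm _).trans ?_)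
    rw [norm_mul, RCLike.norm_conj]
  -- the potential
  have iV : ∀ p, Integrable (fun V : T d L → ℝ => ‖(VM V *ᵥ ek) p‖ ^ 2) (PP (T d L) ν) := by
    intro p
    have e3 : ∀ V : T d L → ℝ, (VM V *ᵥ ek) p =
        ∑ y, (V y : ℂ) * ((starRingEnd ℂ) (av y k) * av y p) := by
      intro V
      rw [VM_mulVec, Finset.sum_apply]
      refine Finset.sum_congr rfl fun y _ => ?_
      rw [Pi.smul_apply, smul_eq_mul, hek, pv_single, mul_assoc]
    simp only [e3]
    refine Integrable.of_bound (C := (∑ y : T d L, β * ‖(starRingEnd ℂ) (av y k) * av y p‖) ^ 2)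
      ((continuous_finsetSum _ fun y _ => (Complex.continuous_ofReal.comp
        (continuous_apply y)).mul continuous_const).norm.pow 2).aestronglyMeasurable ?_
    filter_upwards [hae] with V hV
    rw [Real.norm_eq_abs, abs_of_nonneg (by positivity)]
    refine pow_le_pow_left₀ (norm_nonneg _) ((norm_sum_le _ _).trans
      (Finset.sum_le_sum fun y _ => ?_)) 2
    rw [norm_mul, Complex.norm_real, Real.norm_eq_abs]
    exact mul_le_mul_of_nonneg_right (hV y) (norm_nonneg _)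
  have iJV : Integrable (fun V : T d L → ℝ => jn (fun p => (J p)⁻¹) (VM V *ᵥ ek))
      (PP (T d L) ν) := by
    unfold jn
    exact integrable_finsetSum _ fun p _ => (iV p).const_mul _
  have e4 : ∫ V : T d L → ℝ, jn (fun p => (J p)⁻¹) (VM V *ᵥ ek) ∂(PP (T d L) ν) ≤ v2 * g := by
    unfold jn
    rw [integral_finsetSum _ fun p _ => (iV p).const_mul _]
    have h3 : ∀ p, ∫ V : T d L → ℝ, (J p)⁻¹ * ‖(VM V *ᵥ ek) p‖ ^ 2 ∂(PP (T d L) ν) =
        v2 * ((NN d L)⁻¹ * (J p)⁻¹) := fun p => by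
      rw [integral_const_mul, hek, orth_VM ν hβ h0 h2]; ring
    simp only [h3]
    rw [← Finset.mul_sum, ← Finset.mul_sum]
    exact mul_le_mul_of_nonneg_left D.hg hv2
  -- the right-hand side
  have hF : ∀ V : T d L → ℝ, jn (fun p => (J p)⁻¹) (rst Q (f V)) ≤
      2 / S' * ‖1 - X k * γ‖ ^ 2 + 2 * ‖γ‖ ^ 2 * jn (fun p => (J p)⁻¹) (VM V *ᵥ ek) := by
    intro V
    simp only [hfd]
    rw [rst_sub]
    refine (jn_add_le _ (fun p => (hJi p).le) _ _).trans (add_le_add ?_ ?_)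
    · have h3 : jn (fun p => (J p)⁻¹) (rst Q ((1 - X k * γ) • ek)) ≤ ‖1 - X k * γ‖ ^ 2 / S' := by
        unfold jn
        rw [Finset.sum_eq_single k]
        · unfold rst
          split_ifs with hk
          · rw [Pi.smul_apply, hek, Pi.single_eq_same, smul_eq_mul, mul_one, inv_mul_eq_div]
            exact div_le_div_of_nonneg_left (by positivity) hS0 (hS k hk)
          · rw [norm_zero, zero_pow two_ne_zero, mul_zero]; positivity
        · intro p _ hp
          unfold rst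
          rw [Pi.smul_apply, hek, Pi.single_eq_of_ne hp, smul_zero]
          simp
        · intro h; exact absurd (Finset.mem_univ k) h
      calc 2 * jn (fun p => (J p)⁻¹) (rst Q ((1 - X k * γ) • ek)) ≤
            2 * (‖1 - X k * γ‖ ^ 2 / S') := by linarith
        _ = _ := by ring
    · have h3 := jn_rst_le (fun p => (hJi p).le) Q (γ • (VM V *ᵥ ek))
      rw [jn_smul] at h3
      linarith
  -- pointwise
  have hi1 : Integrable ((G₀ᶜ).indicator (1 : (T d L → ℝ) → ℝ)) (PP (T d L) ν) :=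
    (integrable_const (1 : ℝ)).indicator hG.compl
  have hW0 : 0 ≤ W := by linarith [D.hW]
  have hα' : ∀ V, 0 ≤ ∑ p, -(X p).im * ‖w V p‖ ^ 2 := fun V =>
    Finset.sum_nonneg fun p _ => mul_nonneg (by linarith [hX p]) (sq_nonneg _)
  have hpt : ∀ V, nsq (w V) ≤ 31 * W ^ 2 / αP * (∑ p, -(X p).im * ‖w V p‖ ^ 2) +
      (15 / S' * (2 / S' * ‖1 - X k * γ‖ ^ 2) +
        15 / S' * (2 * ‖γ‖ ^ 2) * jn (fun p => (J p)⁻¹) (VM V *ᵥ ek)) +
      4 * (c⁻¹) ^ 2 * (G₀ᶜ).indicator 1 V := by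
    intro V
    have h7 : 0 ≤ jn (fun p => (J p)⁻¹) (VM V *ᵥ ek) := jn_nonneg hJi _
    by_cases hVG : V ∈ G₀
    · rw [Set.indicator_of_notMem (by simpa using hVG), mul_zero, add_zero]
      refine (D.wpt (hGd V hVG) hS0 hα0 hS hS2 hα (w V) (f V) (hf V)).trans
        (add_le_add le_rfl ?_)
      calc 15 / S' * jn (fun p => (J p)⁻¹) (rst Q (f V)) ≤
          15 / S' * (2 / S' * ‖1 - X k * γ‖ ^ 2 + 2 * ‖γ‖ ^ 2 *
            jn (fun p => (J p)⁻¹) (VM V *ᵥ ek)) := mul_le_mul_of_nonneg_left (hF V) (by positivity)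
        _ = _ := by ring
    · rw [Set.indicator_of_mem (by simpa using hVG), Pi.one_apply, mul_one]
      have h8 : nsq (w V) ≤ 4 * (c⁻¹) ^ 2 := by
        have h9 := jn_add_le (fun _ : T d L => (1 : ℝ)) (fun _ => zero_le_one)
          (GX X V *ᵥ ek) (γ • ek)
        have h10 : ∀ u : T d L → ℂ, jn (fun _ => (1 : ℝ)) u = nsq u := fun u => by
          unfold jn nsq; simp
        rw [h10, h10, h10] at h9
        have h11 := GX_bd hc hX V ek
        have h12 : nsq (γ • ek) = ‖γ‖ ^ 2 * nsq ek := by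
          rw [← h10, ← h10, jn_smul]
        rw [hek, nsq_single, mul_one] at h11
        rw [h12, hek, nsq_single, mul_one] at h9
        have h13 := pow_le_pow_left₀ (norm_nonneg _) hgb.2 2
        have h14 : (c ^ 2)⁻¹ = (c⁻¹) ^ 2 := by rw [inv_pow]
        rw [h14] at h11
        linarith
      have h15 := hα' V
      have h16 : 0 ≤ 31 * W ^ 2 / αP * (∑ p, -(X p).im * ‖w V p‖ ^ 2) := by positivity
      have h17 : 0 ≤ 15 / S' * (2 / S' * ‖1 - X k * γ‖ ^ 2) +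
        15 / S' * (2 * ‖γ‖ ^ 2) * jn (fun p => (J p)⁻¹) (VM V *ᵥ ek) := by positivity
      linarith
  have ir0 : Integrable (fun V : T d L → ℝ => 15 / S' * (2 / S' * ‖1 - X k * γ‖ ^ 2) +
        15 / S' * (2 * ‖γ‖ ^ 2) * jn (fun p => (J p)⁻¹) (VM V *ᵥ ek)) (PP (T d L) ν) :=
    (integrable_const _).add (iJV.const_mul _)
  have irhs1 : Integrable (fun V => 31 * W ^ 2 / αP * (∑ p, -(X p).im * ‖w V p‖ ^ 2) +
      (15 / S' * (2 / S' * ‖1 - X k * γ‖ ^ 2) +
        15 / S' * (2 * ‖γ‖ ^ 2) * jn (fun p => (J p)⁻¹) (VM V *ᵥ ek))) (PP (T d L) ν) :=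
    (iα.const_mul _).add ir0
  have hfin := integral_mono inw (irhs1.add (hi1.const_mul (4 * (c⁻¹) ^ 2))) hpt
  have e5 : ∫ V, ((31 * W ^ 2 / αP * (∑ p, -(X p).im * ‖w V p‖ ^ 2) +
      (15 / S' * (2 / S' * ‖1 - X k * γ‖ ^ 2) +
        15 / S' * (2 * ‖γ‖ ^ 2) * jn (fun p => (J p)⁻¹) (VM V *ᵥ ek))) +
      4 * (c⁻¹) ^ 2 * (G₀ᶜ).indicator 1 V) ∂(PP (T d L) ν) =
      31 * W ^ 2 / αP * (∫ V, (∑ p, -(X p).im * ‖w V p‖ ^ 2) ∂(PP (T d L) ν)) +
      (15 / S' * (2 / S' * ‖1 - X k * γ‖ ^ 2) +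
        15 / S' * (2 * ‖γ‖ ^ 2) * ∫ V, jn (fun p => (J p)⁻¹) (VM V *ᵥ ek) ∂(PP (T d L) ν)) +
      4 * (c⁻¹) ^ 2 * (PP (T d L) ν).real G₀ᶜ := by
    rw [integral_add irhs1 (hi1.const_mul _), integral_const_mul, integral_indicator_one hG.compl,
      integral_add (iα.const_mul _) ir0,
      integral_const_mul, integral_add (integrable_const _) (iJV.const_mul _), integral_const_mul,
      integral_const]
    simp only [probReal_univ, smul_eq_mul, one_mul]
    rw [integral_const_mul]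
  have hfin' : Mk ν X k - ‖γ‖ ^ 2 ≤ 31 * W ^ 2 / αP * (‖γ‖ * ‖1 - X k * γ‖) +
      (15 / S' * (2 / S' * ‖1 - X k * γ‖ ^ 2) + 15 / S' * (2 * ‖γ‖ ^ 2) * (v2 * g)) +
      4 * (c⁻¹) ^ 2 * (PP (T d L) ν).real G₀ᶜ := by
    rw [← e1]
    refine (hfin.trans (le_of_eq e5)).trans ?_
    gcongr
  calc Mk ν X k ≤ ‖γ‖ ^ 2 + (31 * W ^ 2 / αP * (‖γ‖ * ‖1 - X k * γ‖) +
      (15 / S' * (2 / S' * ‖1 - X k * γ‖ ^ 2) + 15 / S' * (2 * ‖γ‖ ^ 2) * (v2 * g)) +
      4 * (c⁻¹) ^ 2 * (PP (T d L) ν).real G₀ᶜ) := by linarith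
    _ = _ := by
      field_simp
      ring

end dat

end Pool.Agent.Run7.h442.BA
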