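import Pool.Agent.Run7.h442.BA.Ev
import Pool.Agent.Run7.h442.BA.Pw
import Pool.Agent.W465.BK.QB
import Pool.Agent.W240.BK.Two
import Pool.Agent.W918.BK.Osc
import Pool.Agent.W475.BK.Low

/-! Project BA: the torus theorem, first part: the numbers. -/

set_option autoImplicit false
set_option linter.unusedSectionVars false

open scoped BigOperators Matrix Topology
open MeasureTheory Filter

namespace Pool.Agent.Run7.h442.BA

open Pool.Agent.W788.BK (PP nsq Low hi S_QB S_LOW JJ)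
open Pool.Agent.W788.MFP.Four (T e NN adj NN_pos card_T)
open Pool.Agent.W788.MFP.Form (J_neg J_pos J_ge J_ge' adj_abs)
open Pool.Agent.W788.MF2.FormG (GB form1)
open Pool.Agent.W788.MF2.Dom (DomBy dom_bdd m1 m1_pos)


theorem qbound : S_QB := Pool.Agent.W465.BK.qb (Pool.Agent.W240.BK.two Pool.Agent.W918.BK.Osc.osc)

theorem lbound : S_LOW := Pool.Agent.W475.BK.low

theorem J_le {d L : ℕ} [NeZero L] (E δ : ℝ) (hδ : 0 ≤ δ) (k : T d L) :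
    Pool.Agent.W788.MFP.Form.J E δ k ≤ |adj k - E| + δ := by
  unfold Pool.Agent.W788.MFP.Form.J
  rw [Real.sqrt_le_left (by positivity)]
  nlinarith [sq_abs (adj k - E), abs_nonneg (adj k - E)]

/-- the bad event has a tiny probability -/
theorem pbad {lam u B C₁ K2 : ℝ} {d p : ℕ} (h0 : 0 < lam) (h1 : lam ≤ 1 / 2) (hu : 0 < u)
    (hK2 : K2 * lam ^ (u / 2) ≤ 1)
    (c1 : 8 * p * C₁ ^ 2 / m1 ^ 2 ≤ K2) (c2 : 2048 * p * C₁ ^ 2 / m1 ^ 2 ≤ K2)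
    (hp : 2 * (B * d) + 86 ≤ p * (u / 2)) {N : ℝ} (hN0 : 0 ≤ N) (hN : N ≤ lam ^ (-(B * d)))
    {P : ℝ} (hP0 : 0 ≤ P)
    (hP : P ≤ ((2 * p * lam ^ (-u) * (lam ^ (2 : ℝ))⁻¹ * ((C₁ * lam) / m1) ^ 2 /
        (lam ^ (-u) / 2) ^ 2) ^ p +
      (2 * p * lam ^ (-u) * (lam ^ (2 - 3 * u))⁻¹ * ((C₁ * lam) / m1) ^ 2 /
        (1 / 32) ^ 2) ^ p) * N) :
    N * ((lam ^ (8 : ℝ))⁻¹) ^ 3 * P ≤ lam ^ (60 : ℝ) := by
  have h1' : lam ≤ 1 := h1.trans (by norm_num)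
  have hm := m1_pos
  have hl : lam = lam ^ (1 : ℝ) := (Real.rpow_one lam).symm
  have e1 : 2 * p * lam ^ (-u) * (lam ^ (2 : ℝ))⁻¹ * ((C₁ * lam) / m1) ^ 2 /
        (lam ^ (-u) / 2) ^ 2 = 8 * p * C₁ ^ 2 / m1 ^ 2 * lam ^ u := by
    have h2 := (Pw.pos h0 (-u)).ne'
    have h3 : lam ^ u = (lam ^ (-u))⁻¹ := by rw [Pw.inv h0, neg_neg]
    have h4 : lam ^ (2 : ℝ) = lam ^ 2 := Real.rpow_two lam
    rw [h3, h4]
    field_simp
    ring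
  have e2 : 2 * p * lam ^ (-u) * (lam ^ (2 - 3 * u))⁻¹ * ((C₁ * lam) / m1) ^ 2 /
        (1 / 32) ^ 2 = 2048 * p * C₁ ^ 2 / m1 ^ 2 * lam ^ (2 * u) := by
    have h3 : lam ^ (2 * u) = lam ^ (-u) * (lam ^ (2 - 3 * u))⁻¹ * lam ^ (2 : ℝ) := by
      rw [Pw.inv h0, Pw.mul h0, Pw.mul h0]; congr 1; ring
    have h4 : lam ^ (2 : ℝ) = lam ^ 2 := Real.rpow_two lam
    rw [h3, h4]
    field_simp
    ring
  have b1 : 8 * p * C₁ ^ 2 / m1 ^ 2 * lam ^ u ≤ lam ^ (u / 2) :=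
    Pw.absl h0 h1' hK2 c1 (by linarith)
  have b2 : 2048 * p * C₁ ^ 2 / m1 ^ 2 * lam ^ (2 * u) ≤ lam ^ (u / 2) :=
    Pw.absl h0 h1' hK2 c2 (by linarith)
  rw [e1, e2] at hP
  have p1 : 0 ≤ 8 * p * C₁ ^ 2 / m1 ^ 2 * lam ^ u := by
    have := Pw.pos h0 u; positivity
  have p2 : 0 ≤ 2048 * p * C₁ ^ 2 / m1 ^ 2 * lam ^ (2 * u) := by
    have := Pw.pos h0 (2 * u); positivity
  have q1 := pow_le_pow_left₀ p1 b1 p
  have q2 := pow_le_pow_left₀ p2 b2 p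
  rw [Pw.pow h0] at q1 q2
  have hPP : P ≤ (2 * lam ^ (p * (u / 2))) * lam ^ (-(B * d)) := by
    refine hP.trans ?_
    have := Pw.pos h0 (p * (u / 2))
    have := Pw.pos h0 (-(B * d))
    gcongr
    linarith
  have h5 : ((lam ^ (8 : ℝ))⁻¹) ^ 3 = lam ^ (-24 : ℝ) := by
    rw [Pw.inv h0, Pw.pow h0]; congr 1; norm_num
  rw [h5]
  calc N * lam ^ (-24 : ℝ) * P ≤ lam ^ (-(B * d)) * lam ^ (-24 : ℝ) *
        ((2 * lam ^ (p * (u / 2))) * lam ^ (-(B * d))) := by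
        have := Pw.pos h0 (-24)
        have := Pw.pos h0 (-(B * d))
        gcongr
    _ = 2 * (lam ^ (-(B * d)) * lam ^ (-24 : ℝ) * lam ^ (p * (u / 2)) * lam ^ (-(B * d))) := by
        ring
    _ = 2 * lam ^ (p * (u / 2) - 2 * (B * d) - 24) := by
        rw [Pw.mul h0, Pw.mul h0, Pw.mul h0]; congr 2; ring
    _ ≤ 2 * lam ^ (61 + 1 : ℝ) := by
        have := Pw.anti h0 h1' (x := p * (u / 2) - 2 * (B * d) - 24) (y := 61 + 1) (by linarith)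
        linarith
    _ = 2 * lam ^ (1 : ℝ) * lam ^ (61 : ℝ) := by
        rw [← Pw.mul h0]; ring
    _ ≤ 1 * lam ^ (61 : ℝ) := by
        have := Pw.pos h0 61
        have h6 : 2 * lam ^ (1 : ℝ) ≤ 1 := by rw [Real.rpow_one]; linarith
        gcongr
    _ ≤ lam ^ (60 : ℝ) := by rw [one_mul]; exact Pw.anti h0 h1' (by norm_num)

/-- the first part of the torus theorem -/
theorem tor1 {d : ℕ} (hd : 3 ≤ d) {CQ : ℝ}
    (hCQ : ∀ (L : ℕ) [NeZero L], ∀ θ δ E : ℝ, 0 < θ →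
      θ ≤ 1 → 0 < δ → δ ≤ 1 / 2 → (1 + 4 / δ) ^ 3 ≤ (L : ℝ) ^ 2 → ∀ Q : T d L, ¬ Low θ Q →
      ∑ k : T d L, (JJ E δ k * JJ E δ (k + Q))⁻¹ ≤
        CQ * Real.log (1 / δ) ^ 2 / Real.sqrt (δ * θ) * NN d L)
    {γ C₁ s₂ κ u CE cA B : ℝ} (hγ : 1 ≤ γ) (hC₁ : 0 < C₁) (hs₂ : 0 < s₂) (hs₂1 : s₂ ≤ 1)
    (hκ : 1 / 50 ≤ κ) (hκ1 : κ < 1 / 28) (hu : 0 < u) (huκ : u ≤ κ / 100) (hCE : 0 < CE)
    (hcA : 0 < cA) (hB : 0 ≤ B) {K K2 lam : ℝ} {p : ℕ} (hp0 : p ≠ 0)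
    (hp : 2 * (B * d) + 86 ≤ p * (u / 2)) (h0 : 0 < lam) (h1 : lam ≤ 1 / 2)
    (hK : K * lam ^ u ≤ 1) (k1 : 32 * C₁ ≤ K) (k2 : 30 * C₁ ^ 2 ≤ K)
    (k3 : (γ + 1) ^ 2 / cA ≤ K) (k4 : 160000 ≤ K) (k5 : CE ≤ K)
    (k6 : (8 * d * γ + 1) ^ 2 / cA ≤ K) (k7 : 2 * ((8 * d * γ + 3) ^ 2 + 1) ≤ K)
    (hl2 : 4 * CQ * Real.log (1 / lam) ^ 2 * lam ^ u ≤ 1)
    (hl1 : (2 * (2 + 8 * Pool.Agent.W788.MFP.Dos.C3)) * Real.log (1 / lam) * lam ^ u ≤ 1)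
    (hK2 : K2 * lam ^ (u / 2) ≤ 1)
    (c1 : 8 * p * C₁ ^ 2 / m1 ^ 2 ≤ K2) (c2 : 2048 * p * C₁ ^ 2 / m1 ^ 2 ≤ K2)
    (L : ℕ) [NeZero L] (hL : lam ^ (-20 : ℝ) ≤ L) (hLB : (L : ℝ) ≤ lam ^ (-B))
    (ν : Measure ℝ) [IsProbabilityMeasure ν] (hν : ∀ᵐ x ∂ν, |x| ≤ C₁ * lam)
    (hν0 : ∫ x, x ∂ν = 0) (hν2 : ∫ x, x ^ 2 ∂ν = s₂ * (C₁ * lam) ^ 2)
    (E y : ℝ) (X : T d L → ℂ) (hE : 0 ≤ E) (hE4 : E ≤ 4 * d) (hy : 0 ≤ y) (hy1 : y ≤ 1)
    (hX1 : ∀ k, ‖X k - (((γ * (2 * d - adj k - E) : ℝ) : ℂ) - y * Complex.I)‖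
        ≤ CE * lam ^ (2 + 2 * κ))
    (hX3 : ∀ k, cA * lam ^ (6 + 2 * κ) / (|γ * (2 * d - adj k - E)| + lam ^ (2 - u)) ^ 2
        ≤ -(X k).im) :
    s₂ * (C₁ * lam) ^ 2 * ‖gb ν X‖ ≤ lam ^ (2 - 2 * κ - 16 * u) ∧ ∀ k, gm ν X k ≠ 0 ∧
      ‖sm ν X k + ((s₂ * (C₁ * lam) ^ 2 : ℝ) : ℂ) * gb ν X‖ ≤ lam ^ (16 / 7 - 6 * κ - 49 * u) := by
  have h1' : lam ≤ 1 := h1.trans (by norm_num)
  have hpos := fun x => Pw.pos h0 x
  have hmul := fun x y => Pw.mul h0 x y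
  have hP1 : lam ^ (1 : ℝ) = lam := Real.rpow_one lam
  have hab : ∀ {C x y : ℝ}, C ≤ K → y ≤ x - u → C * lam ^ x ≤ lam ^ y :=
    fun hC hy => Pw.absl h0 h1' hK hC hy
  have hK0 : 0 ≤ K := by linarith
  set E' : ℝ := 2 * d - E with hE'
  have hKk : ∀ k : T d L, |γ * (2 * d - adj k - E)| = γ * |adj k - E'| := by
    intro k
    rw [abs_mul, abs_of_nonneg (by linarith : (0 : ℝ) ≤ γ)]
    congr 1
    rw [hE', ← abs_neg]
    congr 1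
    ring
  have hd0 : (0 : ℝ) ≤ d := by positivity
  have hadj : ∀ k : T d L, |adj k - E'| ≤ 8 * d := by
    intro k
    have := adj_abs k
    rw [abs_le] at this ⊢
    rw [hE']
    constructor <;> linarith [this.1, this.2]
  -- the size of the torus
  have hL0 : (0 : ℝ) < L := (hpos (-20)).trans_le hL
  have hLi : ∀ x : ℝ, x ≤ 20 → 1 / (L : ℝ) ≤ lam ^ x := by
    intro x hx
    rw [div_le_iff₀ hL0]
    calc (1 : ℝ) = lam ^ (0 : ℝ) := (Real.rpow_zero lam).symm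
      _ ≤ lam ^ (x + -20) := Pw.anti h0 h1' (by linarith)
      _ = lam ^ x * lam ^ (-20 : ℝ) := (hmul _ _).symm
      _ ≤ lam ^ x * L := mul_le_mul_of_nonneg_left hL (hpos x).le
  have hδ2 : lam ^ (2 : ℝ) ≤ 1 / 2 := by
    have : lam ^ (2 : ℝ) ≤ lam ^ (1 : ℝ) := Pw.anti h0 h1' (by norm_num)
    rw [hP1] at this
    linarith
  have hlog : Real.log (1 / lam ^ (2 : ℝ)) = 2 * Real.log (1 / lam) := by
    rw [one_div, one_div, Real.log_inv, Real.log_inv, Real.log_rpow h0]; ring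
  have hlog0 : 0 ≤ Real.log (1 / lam) := Real.log_nonneg (by
    rw [le_div_iff₀ h0]; linarith)
  -- the diagonal of the free resolvent
  have hg : GB d L (lam ^ (2 : ℝ)) (lam ^ (-u)) := by
    intro E₁
    refine (Pool.Agent.W788.MFP.Dos.green d hd E₁ (lam ^ (2 : ℝ)) (hLi 2 (by norm_num)) hδ2).trans ?_
    rw [hlog]
    have h2 := hpos (-u)
    have h3 : lam ^ u * lam ^ (-u) = 1 := by rw [hmul, add_neg_cancel, Real.rpow_zero]
    calc (2 + 8 * Pool.Agent.W788.MFP.Dos.C3) * (2 * Real.log (1 / lam))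
        = ((2 * (2 + 8 * Pool.Agent.W788.MFP.Dos.C3)) * Real.log (1 / lam) * lam ^ u) *
          lam ^ (-u) := by
          rw [mul_assoc _ (lam ^ u), h3]; ring
      _ ≤ 1 * lam ^ (-u) := mul_le_mul_of_nonneg_right hl1 h2.le
      _ = _ := one_mul _
  -- the good event
  have hβ0 : 0 < C₁ * lam := by positivity
  have hβg : C₁ * lam * lam ^ (-u) ≤ 1 / 32 := by
    have h2 : 32 * C₁ * lam ^ (1 - u) ≤ lam ^ (0 : ℝ) := hab k1 (by linarith)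
    rw [Real.rpow_zero] at h2
    have h3 : lam * lam ^ (-u) = lam ^ (1 - u) := by
      nth_rewrite 1 [← hP1]
      rw [hmul]; congr 1
    calc C₁ * lam * lam ^ (-u) = C₁ * lam ^ (1 - u) := by rw [mul_assoc, h3]
      _ ≤ 1 / 32 := by linarith
  have hδS : lam ^ (2 : ℝ) ≤ lam ^ (2 - 3 * u) := Pw.anti h0 h1' (by linarith)
  have hW1 : 1 ≤ lam ^ (-u) := Pw.one_le h0 h1' (by linarith)
  obtain ⟨G₀, hG, hPb, hgood⟩ := good_event (d := d) (L := L) ν hβ0 hν hν0 (E := E')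
    (δ := lam ^ (2 : ℝ)) (S := lam ^ (2 - 3 * u)) (g := lam ^ (-u)) (W := lam ^ (-u))
    (hpos 2) hδS hg hW1 hβg p hp0
  have hNB : NN d L ≤ lam ^ (-(B * d)) := by
    unfold Pool.Agent.W788.MFP.Four.NN
    calc (L : ℝ) ^ d ≤ (lam ^ (-B)) ^ d := pow_le_pow_left₀ hL0.le hLB d
      _ = _ := by rw [Pw.pow h0]; congr 1; ring
  have hbad := pbad (B := B) (d := d) h0 h1 hu hK2 c1 c2 hp (NN_pos (d := d) (L := L)).le hNB
    (P := (Pool.Agent.W788.BK.PP (T d L) ν).real G₀ᶜ) measureReal_nonneg hPb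
  -- the bounds of X
  have hX8 : ∀ k, (X k).im ≤ -lam ^ (8 : ℝ) := by
    intro k
    have h2 := hX3 k
    rw [hKk] at h2
    have h3 : γ * |adj k - E'| + lam ^ (2 - u) ≤ 8 * d * γ + 1 := by
      have := hadj k
      have h4 : lam ^ (2 - u) ≤ 1 := Pw.le_one h0 h1' (by linarith)
      have h5 : γ * |adj k - E'| ≤ γ * (8 * d) := by gcongr
      linarith
    have h4 : 0 < γ * |adj k - E'| + lam ^ (2 - u) := by
      have := hpos (2 - u)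
      positivity
    have h5 : lam ^ (8 : ℝ) ≤ cA * lam ^ (6 + 2 * κ) / (γ * |adj k - E'| + lam ^ (2 - u)) ^ 2 := by
      rw [le_div_iff₀ (by positivity)]
      have h6 : (γ * |adj k - E'| + lam ^ (2 - u)) ^ 2 ≤ (8 * d * γ + 1) ^ 2 :=
        pow_le_pow_left₀ h4.le h3 2
      have h7 : (8 * d * γ + 1) ^ 2 / cA * lam ^ (8 : ℝ) ≤ lam ^ (6 + 2 * κ) :=
        hab k6 (by linarith)
      calc lam ^ (8 : ℝ) * (γ * |adj k - E'| + lam ^ (2 - u)) ^ 2 ≤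
            lam ^ (8 : ℝ) * (8 * d * γ + 1) ^ 2 := mul_le_mul_of_nonneg_left h6 (hpos 8).le
        _ = cA * ((8 * d * γ + 1) ^ 2 / cA * lam ^ (8 : ℝ)) := by field_simp
        _ ≤ cA * lam ^ (6 + 2 * κ) := mul_le_mul_of_nonneg_left h7 hcA.le
    linarith
  have heX : CE * lam ^ (2 + 2 * κ) ≤ lam ^ (2 + 2 * κ - u) := hab k5 le_rfl
  have hXre : ∀ k, γ * |adj k - E'| - lam ^ (2 + 2 * κ - u) ≤ |(X k).re| := by
    intro k
    have h2 := (Complex.abs_re_le_norm _).trans ((hX1 k).trans heX)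
    have h3 : (X k - (((γ * (2 * d - adj k - E) : ℝ) : ℂ) - y * Complex.I)).re =
        (X k).re - γ * (2 * d - adj k - E) := by simp
    rw [h3] at h2
    have h4 := hKk k
    have h5 := abs_sub_abs_le_abs_sub (γ * (2 * d - adj k - E)) (X k).re
    rw [abs_sub_comm] at h5
    linarith
  have hXn : ∀ k, ‖X k‖ ≤ 8 * d * γ + 3 := by
    intro k
    have h2 := (hX1 k).trans heX
    have h3 : lam ^ (2 + 2 * κ - u) ≤ 1 := Pw.le_one h0 h1' (by linarith)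
    have h4 : ‖(((γ * (2 * d - adj k - E) : ℝ) : ℂ) - y * Complex.I)‖ ≤ γ * (8 * d) + 1 := by
      refine (norm_sub_le _ _).trans ?_
      rw [Complex.norm_real, Real.norm_eq_abs, hKk, norm_mul, Complex.norm_I, mul_one,
        Complex.norm_real, Real.norm_eq_abs, abs_of_nonneg hy]
      have := hadj k
      have h5 : γ * |adj k - E'| ≤ γ * (8 * d) := by gcongr
      linarith
    have h5 : ‖X k‖ ≤ ‖X k - (((γ * (2 * d - adj k - E) : ℝ) : ℂ) - y * Complex.I)‖ +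
        ‖(((γ * (2 * d - adj k - E) : ℝ) : ℂ) - y * Complex.I)‖ := by
      have := norm_add_le (X k - (((γ * (2 * d - adj k - E) : ℝ) : ℂ) - y * Complex.I))
        (((γ * (2 * d - adj k - E) : ℝ) : ℂ) - y * Complex.I)
      rwa [sub_add_cancel] at this
    linarith
  have h3S : 3 * lam ^ (2 : ℝ) ≤ lam ^ (2 - u) := hab (by linarith) (by linarith)
  have hQre : ∀ k : T d L, lam ^ (2 - 3 * u) < |adj k - E'| →
      Pool.Agent.W788.MFP.Form.J E' (lam ^ (2 : ℝ)) k / 2 ≤ |(X k).re| := by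
    intro k hk
    have h2 := J_le E' (lam ^ (2 : ℝ)) (hpos 2).le k
    have h3 := hXre k
    have h4 : lam ^ (2 + 2 * κ - u) ≤ lam ^ (2 : ℝ) := Pw.anti h0 h1' (by linarith)
    have h5 : lam ^ (2 - u) ≤ lam ^ (2 - 3 * u) := Pw.anti h0 h1' (by linarith)
    have h6 : |adj k - E'| ≤ γ * |adj k - E'| := le_mul_of_one_le_left (abs_nonneg _) hγ
    linarith
  have hS2 : ∀ k : T d L, ¬ lam ^ (2 - 3 * u) < |adj k - E'| →
      Pool.Agent.W788.MFP.Form.J E' (lam ^ (2 : ℝ)) k ≤ 2 * lam ^ (2 - 3 * u) := by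
    intro k hk
    have h2 := J_le E' (lam ^ (2 : ℝ)) (hpos 2).le k
    have h3 := not_lt.1 hk
    linarith
  have hα : ∀ k : T d L, ¬ lam ^ (2 - 3 * u) < |adj k - E'| →
      lam ^ (2 + 2 * κ + 7 * u) ≤ -(X k).im := by
    intro k hk
    have h2 := hX3 k
    rw [hKk] at h2
    have h3 := not_lt.1 hk
    have h4 : γ * |adj k - E'| + lam ^ (2 - u) ≤ (γ + 1) * lam ^ (2 - 3 * u) := by
      have h5 : lam ^ (2 - u) ≤ lam ^ (2 - 3 * u) := Pw.anti h0 h1' (by linarith)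
      have h6 : γ * |adj k - E'| ≤ γ * lam ^ (2 - 3 * u) := by gcongr
      linarith
    have h5 : 0 < γ * |adj k - E'| + lam ^ (2 - u) := by
      have := hpos (2 - u)
      positivity
    refine le_trans ?_ h2
    rw [le_div_iff₀ (by positivity)]
    have h6 : (γ * |adj k - E'| + lam ^ (2 - u)) ^ 2 ≤ ((γ + 1) * lam ^ (2 - 3 * u)) ^ 2 :=
      pow_le_pow_left₀ h5.le h4 2
    have h7 : (γ + 1) ^ 2 / cA * lam ^ (6 + 2 * κ + u) ≤ lam ^ (6 + 2 * κ) :=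
      hab k3 (by linarith)
    calc lam ^ (2 + 2 * κ + 7 * u) * (γ * |adj k - E'| + lam ^ (2 - u)) ^ 2 ≤
          lam ^ (2 + 2 * κ + 7 * u) * ((γ + 1) * lam ^ (2 - 3 * u)) ^ 2 :=
          mul_le_mul_of_nonneg_left h6 (hpos _).le
      _ = cA * ((γ + 1) ^ 2 / cA * lam ^ (6 + 2 * κ + u)) := by
        have h8 : lam ^ (6 + 2 * κ + u) = lam ^ (2 + 2 * κ + 7 * u) * (lam ^ (2 - 3 * u)) ^ 2 := by
          rw [Pw.pow h0, hmul]; congr 1; push_cast; ring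
        rw [h8]
        field_simp
      _ ≤ cA * lam ^ (6 + 2 * κ) := mul_le_mul_of_nonneg_left h7 hcA.le
  have hP : ∀ k : T d L, ¬ lam ^ (2 - 3 * u) < |adj k - E'| →
      lam ^ (2 * κ + 11 * u) * Pool.Agent.W788.MFP.Form.J E' (lam ^ (2 : ℝ)) k ≤ -(X k).im := by
    intro k hk
    refine le_trans ?_ (hα k hk)
    calc lam ^ (2 * κ + 11 * u) * Pool.Agent.W788.MFP.Form.J E' (lam ^ (2 : ℝ)) k ≤
          lam ^ (2 * κ + 11 * u) * (2 * lam ^ (2 - 3 * u)) :=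
          mul_le_mul_of_nonneg_left (hS2 k hk) (hpos _).le
      _ = 2 * lam ^ (2 + 2 * κ + 8 * u) := by
        have : lam ^ (2 * κ + 11 * u) * lam ^ (2 - 3 * u) = lam ^ (2 + 2 * κ + 8 * u) := by
          rw [hmul]; congr 1; ring
        rw [← this]; ring
      _ ≤ _ := hab (by linarith) (by linarith)
  have D : Dat (Pool.Agent.W788.MFP.Form.J E' (lam ^ (2 : ℝ))) X (lam ^ (8 : ℝ)) (lam ^ (-u)) (lam ^ (2 * κ + 11 * u))
      (lam ^ (-u)) (fun k => lam ^ (2 - 3 * u) < |adj k - E'|) :=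
    { hJ := J_pos E' _ (hpos 2)
      hc := hpos 8
      hX := hX8
      hW := hW1
      ha := hpos _
      ha1 := Pw.le_one h0 h1' (by linarith)
      hQ := hQre
      hP := hP
      hg := hg E' }
  -- numbers
  have hrh : rh (lam ^ (-u)) (lam ^ (2 * κ + 11 * u)) = 20 * lam ^ (-2 * κ - 13 * u) := by
    unfold rh
    have : (lam ^ (-u)) ^ 2 / lam ^ (2 * κ + 11 * u) = lam ^ (-2 * κ - 13 * u) := by
      rw [Pw.pow h0, Pw.div h0]; congr 1; push_cast; ring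
    rw [mul_div_assoc, this]
  have hrh1 : rh (lam ^ (-u)) (lam ^ (2 * κ + 11 * u)) ≤ lam ^ (-2 * κ - 14 * u) := by
    rw [hrh]; exact hab (by linarith) (by linarith)
  have hrh0 : 0 < rh (lam ^ (-u)) (lam ^ (2 * κ + 11 * u)) := D.rh_pos
  have hr1 : rh (lam ^ (-u)) (lam ^ (2 * κ + 11 * u)) * lam ^ (-u) ≤ lam ^ (-2 * κ - 15 * u) := by
    calc _ ≤ lam ^ (-2 * κ - 14 * u) * lam ^ (-u) := mul_le_mul_of_nonneg_right hrh1 (hpos _).le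
      _ = _ := by rw [hmul]; congr 1; ring
  have hr10 : 0 < rh (lam ^ (-u)) (lam ^ (2 * κ + 11 * u)) * lam ^ (-u) := mul_pos hrh0 (hpos _)
  have hβP : C₁ * lam ≤ lam ^ (1 - u) := by
    have : C₁ * lam ^ (1 : ℝ) ≤ lam ^ (1 - u) := hab (by linarith) le_rfl
    rwa [hP1] at this
  have hβ1 : C₁ * lam ≤ 1 := hβP.trans (Pw.le_one h0 h1' (by linarith))
  have hβr : C₁ * lam * (rh (lam ^ (-u)) (lam ^ (2 * κ + 11 * u)) * lam ^ (-u)) ≤ 1 := by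
    calc _ ≤ lam ^ (1 - u) * lam ^ (-2 * κ - 15 * u) :=
          mul_le_mul hβP hr1 hr10.le (hpos _).le
      _ = lam ^ (1 - 2 * κ - 16 * u) := by rw [hmul]; congr 1; ring
      _ ≤ 1 := Pw.le_one h0 h1' (by linarith)
  -- the fourth moments
  have hθ1 : lam ^ (6 / 7 : ℝ) ≤ 1 := Pw.le_one h0 h1' (by norm_num)
  have hQθ : ∀ P : T d L, ¬ Low (lam ^ (6 / 7 : ℝ)) P →
      ∑ k, (Pool.Agent.W788.MFP.Form.J E' (lam ^ (2 : ℝ)) k * Pool.Agent.W788.MFP.Form.J E' (lam ^ (2 : ℝ)) (k + P))⁻¹ ≤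
        lam ^ (-10 / 7 - u) * NN d L := by
    intro P hP'
    have h2 : (1 + 4 / lam ^ (2 : ℝ)) ^ 3 ≤ (L : ℝ) ^ 2 := by
      have h3 : 1 + 4 / lam ^ (2 : ℝ) ≤ 5 * lam ^ (-2 : ℝ) := by
        have h4 : 4 / lam ^ (2 : ℝ) = 4 * lam ^ (-2 : ℝ) := by
          rw [div_eq_mul_inv, Pw.inv h0]
        have h5 : 1 ≤ lam ^ (-2 : ℝ) := Pw.one_le h0 h1' (by norm_num)
        rw [h4]; linarith
      have h4 : 0 ≤ 1 + 4 / lam ^ (2 : ℝ) := by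
        have := hpos 2
        positivity
      calc (1 + 4 / lam ^ (2 : ℝ)) ^ 3 ≤ (5 * lam ^ (-2 : ℝ)) ^ 3 := pow_le_pow_left₀ h4 h3 3
        _ = 125 * lam ^ (-6 : ℝ) := by
          rw [mul_pow, Pw.pow h0]
          norm_num
        _ ≤ lam ^ (-40 : ℝ) := hab (by linarith) (by linarith)
        _ = (lam ^ (-20 : ℝ)) ^ 2 := by rw [Pw.pow h0]; congr 1; norm_num
        _ ≤ (L : ℝ) ^ 2 := pow_le_pow_left₀ (hpos _).le hL 2
    have h3 := hCQ L (lam ^ (6 / 7 : ℝ)) (lam ^ (2 : ℝ)) E' (hpos _) hθ1 (hpos 2) hδ2 h2 P hP'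
    refine h3.trans (mul_le_mul_of_nonneg_right ?_ NN_pos.le)
    rw [hlog, hmul, Pw.sqrt h0, div_le_iff₀ (hpos _), hmul]
    have h4 : lam ^ (-10 / 7 - u + (2 + 6 / 7) / 2) = lam ^ (-u) := by congr 1; ring
    rw [h4]
    have h5 : lam ^ u * lam ^ (-u) = 1 := by rw [hmul, add_neg_cancel, Real.rpow_zero]
    calc CQ * (2 * Real.log (1 / lam)) ^ 2 = (4 * CQ * Real.log (1 / lam) ^ 2 * lam ^ u) *
          lam ^ (-u) := by rw [mul_assoc _ (lam ^ u), h5]; ring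
      _ ≤ 1 * lam ^ (-u) := mul_le_mul_of_nonneg_right hl2 (hpos _).le
      _ = _ := one_mul _
  have hl : ∑ P : T d L, (1 - hi (lam ^ (6 / 7 : ℝ)) P) ≤ (16 * lam ^ (18 / 7 : ℝ)) * NN d L := by
    have h2 : 1 ≤ lam ^ (6 / 7 : ℝ) * L := by
      have h3 := hLi (6 / 7) (by norm_num)
      rwa [div_le_iff₀ hL0] at h3
    refine (lbound d L (lam ^ (6 / 7 : ℝ)) (hpos _).le hθ1 h2).trans
      (mul_le_mul_of_nonneg_right ?_ NN_pos.le)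
    have h3 : 2 * lam ^ (6 / 7 : ℝ) ≤ 1 := by
      have : 2 * lam ^ (6 / 7 : ℝ) ≤ lam ^ (0 : ℝ) := hab (by linarith) (by linarith)
      rwa [Real.rpow_zero] at this
    have h4 : (2 * lam ^ (6 / 7 : ℝ)) ^ d ≤ (2 * lam ^ (6 / 7 : ℝ)) ^ 3 :=
      pow_le_pow_of_le_one (by have := hpos (6 / 7); positivity) h3 hd
    calc 2 * (2 * lam ^ (6 / 7 : ℝ)) ^ d ≤ 2 * (2 * lam ^ (6 / 7 : ℝ)) ^ 3 := by linarith
      _ = 16 * lam ^ (18 / 7 : ℝ) := by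
        rw [mul_pow, Pw.pow h0]
        have : ((3 : ℕ) : ℝ) * (6 / 7) = 18 / 7 := by norm_num
        rw [this]; ring
  have hFb : (lam ^ (-10 / 7 - u) + 16 * lam ^ (18 / 7 : ℝ) / (lam ^ (2 : ℝ)) ^ 2) *
      (rh (lam ^ (-u)) (lam ^ (2 * κ + 11 * u)) ^ 2 * lam ^ (-u)) ^ 2 ≤
      lam ^ (-10 / 7 - 8 * κ - 60 * u) := by
    have h2 : lam ^ (-10 / 7 - u) + 16 * lam ^ (18 / 7 : ℝ) / (lam ^ (2 : ℝ)) ^ 2 ≤
        lam ^ (-10 / 7 - 2 * u) := by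
      have h3 : 16 * lam ^ (18 / 7 : ℝ) / (lam ^ (2 : ℝ)) ^ 2 = 16 * lam ^ (-10 / 7 : ℝ) := by
        rw [mul_div_assoc, Pw.pow h0, Pw.div h0]; congr 2; norm_num
      have h4 : lam ^ (-10 / 7 : ℝ) ≤ lam ^ (-10 / 7 - u) := Pw.anti h0 h1' (by linarith)
      have h5 : 17 * lam ^ (-10 / 7 - u) ≤ lam ^ (-10 / 7 - 2 * u) :=
        hab (by linarith) (by linarith)
      rw [h3]; linarith
    have h3 : rh (lam ^ (-u)) (lam ^ (2 * κ + 11 * u)) ^ 2 * lam ^ (-u) ≤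
        lam ^ (-4 * κ - 29 * u) := by
      calc _ ≤ (lam ^ (-2 * κ - 14 * u)) ^ 2 * lam ^ (-u) := by
            have := hpos (-u)
            gcongr
        _ = _ := by rw [Pw.pow h0, hmul]; congr 1; push_cast; ring
    calc _ ≤ lam ^ (-10 / 7 - 2 * u) * (lam ^ (-4 * κ - 29 * u)) ^ 2 := by
          have := hpos (-u)
          have := hpos (-10 / 7 - 2 * u)
          gcongr
      _ = _ := by rw [Pw.pow h0, hmul]; congr 1; push_cast; ring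
  have h2sq : (C₁ * lam) ^ 2 = C₁ ^ 2 * lam ^ (2 : ℝ) := by rw [Real.rpow_two]; ring
  have hv2 : s₂ * (C₁ * lam) ^ 2 ≤ C₁ ^ 2 * lam ^ (2 : ℝ) := by
    rw [h2sq]
    have : 0 ≤ C₁ ^ 2 * lam ^ (2 : ℝ) := by have := hpos 2; positivity
    exact mul_le_of_le_one_left this hs₂1
  have hv20 : 0 ≤ s₂ * (C₁ * lam) ^ 2 := by positivity
  set R := rh (lam ^ (-u)) (lam ^ (2 * κ + 11 * u)) * lam ^ (-u) with hRdef
  have hsd : 8 * (C₁ * lam) ^ 2 * lam ^ (-10 / 7 - 8 * κ - 60 * u) + 8 * lam ^ (60 : ℝ) +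
      4 * (C₁ * lam) ^ 2 * R ^ 4 + 16 * (lam ^ (60 : ℝ)) ^ 2 ≤
      (lam ^ (2 / 7 - 4 * κ - 31 * u)) ^ 2 := by
    have h2 : 8 * (C₁ * lam) ^ 2 * lam ^ (-10 / 7 - 8 * κ - 60 * u) ≤
        lam ^ (4 / 7 - 8 * κ - 61 * u) := by
      calc _ = (8 * C₁ ^ 2) * lam ^ (4 / 7 - 8 * κ - 60 * u) := by
            have : lam ^ (4 / 7 - 8 * κ - 60 * u) = lam ^ (2 : ℝ) *
                lam ^ (-10 / 7 - 8 * κ - 60 * u) := by rw [hmul]; congr 1; ring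
            rw [this, h2sq]; ring
        _ ≤ _ := hab (by linarith [sq_nonneg C₁]) (by linarith)
    have h3 : 4 * (C₁ * lam) ^ 2 * R ^ 4 ≤ lam ^ (4 / 7 - 8 * κ - 61 * u) := by
      calc _ ≤ 4 * (C₁ * lam) ^ 2 * (lam ^ (-2 * κ - 15 * u)) ^ 4 := by gcongr
        _ = (4 * C₁ ^ 2) * lam ^ (2 - 8 * κ - 60 * u) := by
            have : lam ^ (2 - 8 * κ - 60 * u) = lam ^ (2 : ℝ) *
                (lam ^ (-2 * κ - 15 * u)) ^ 4 := by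
              rw [Pw.pow h0, hmul]; congr 1; push_cast; ring
            rw [this, h2sq]; ring
        _ ≤ _ := hab (by linarith [sq_nonneg C₁]) (by linarith)
    have h4 : 8 * lam ^ (60 : ℝ) ≤ lam ^ (4 / 7 - 8 * κ - 61 * u) := hab (by linarith) (by linarith)
    have h5 : 16 * (lam ^ (60 : ℝ)) ^ 2 ≤ lam ^ (4 / 7 - 8 * κ - 61 * u) := by
      rw [Pw.pow h0]; exact hab (by linarith) (by push_cast; linarith)
    have h6 : 4 * lam ^ (4 / 7 - 8 * κ - 61 * u) ≤ lam ^ (4 / 7 - 8 * κ - 62 * u) :=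
      hab (by linarith) (by linarith)
    have h7 : (lam ^ (2 / 7 - 4 * κ - 31 * u)) ^ 2 = lam ^ (4 / 7 - 8 * κ - 62 * u) := by
      rw [Pw.pow h0]; congr 1; push_cast; ring
    rw [h7]; linarith
  have hx₀ : s₂ * (C₁ * lam) ^ 2 * (R + lam ^ (60 : ℝ)) ≤ lam ^ (2 - 2 * κ - 16 * u) := by
    have h2 : R + lam ^ (60 : ℝ) ≤ 2 * lam ^ (-2 * κ - 15 * u) := by
      have : lam ^ (60 : ℝ) ≤ lam ^ (-2 * κ - 15 * u) := Pw.anti h0 h1' (by linarith)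
      linarith
    have h3 : 0 ≤ R + lam ^ (60 : ℝ) := by have := hpos 60; linarith
    calc _ ≤ (C₁ ^ 2 * lam ^ (2 : ℝ)) * (2 * lam ^ (-2 * κ - 15 * u)) :=
          mul_le_mul hv2 h2 h3 (by have := hpos 2; positivity)
      _ = (2 * C₁ ^ 2) * lam ^ (2 - 2 * κ - 15 * u) := by
          have : lam ^ (2 - 2 * κ - 15 * u) = lam ^ (2 : ℝ) * lam ^ (-2 * κ - 15 * u) := by
            rw [hmul]; congr 1; ring
          rw [this]; ring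
      _ ≤ _ := hab (by linarith [sq_nonneg C₁]) (by linarith)
  have hq : lam ^ (2 - 2 * κ - 16 * u) * (C₁ * lam) * R + (C₁ * lam) ^ 3 * R ^ 2 +
      2 * (s₂ * (C₁ * lam) ^ 2) * lam ^ (2 / 7 - 4 * κ - 31 * u) ≤
      lam ^ (16 / 7 - 4 * κ - 34 * u) := by
    have h2 : lam ^ (2 - 2 * κ - 16 * u) * (C₁ * lam) * R ≤ lam ^ (16 / 7 - 4 * κ - 33 * u) := by
      calc _ ≤ lam ^ (2 - 2 * κ - 16 * u) * lam ^ (1 - u) * lam ^ (-2 * κ - 15 * u) := by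
            have := hpos (2 - 2 * κ - 16 * u)
            gcongr
        _ = lam ^ (3 - 4 * κ - 32 * u) := by rw [hmul, hmul]; congr 1; ring
        _ ≤ _ := Pw.anti h0 h1' (by linarith)
    have h3 : (C₁ * lam) ^ 3 * R ^ 2 ≤ lam ^ (16 / 7 - 4 * κ - 33 * u) := by
      calc _ ≤ (lam ^ (1 - u)) ^ 3 * (lam ^ (-2 * κ - 15 * u)) ^ 2 := by gcongr
        _ = lam ^ (3 - 4 * κ - 33 * u) := by
            rw [Pw.pow h0, Pw.pow h0, hmul]; congr 1; push_cast; ring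
        _ ≤ _ := Pw.anti h0 h1' (by linarith)
    have h4 : 2 * (s₂ * (C₁ * lam) ^ 2) * lam ^ (2 / 7 - 4 * κ - 31 * u) ≤
        lam ^ (16 / 7 - 4 * κ - 33 * u) := by
      calc _ ≤ 2 * (C₁ ^ 2 * lam ^ (2 : ℝ)) * lam ^ (2 / 7 - 4 * κ - 31 * u) := by
            have := hpos (2 / 7 - 4 * κ - 31 * u)
            gcongr
        _ = (2 * C₁ ^ 2) * lam ^ (16 / 7 - 4 * κ - 31 * u) := by
            have : lam ^ (16 / 7 - 4 * κ - 31 * u) = lam ^ (2 : ℝ) *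
                lam ^ (2 / 7 - 4 * κ - 31 * u) := by rw [hmul]; congr 1; ring
            rw [this]; ring
        _ ≤ _ := hab (by linarith [sq_nonneg C₁]) (by linarith)
    have h5 : 3 * lam ^ (16 / 7 - 4 * κ - 33 * u) ≤ lam ^ (16 / 7 - 4 * κ - 34 * u) :=
      hab (by linarith) (by linarith)
    linarith
  have hqS : 24 * lam ^ (16 / 7 - 4 * κ - 34 * u) ≤ lam ^ (2 - 3 * u) :=
    hab (by linarith) (by linarith)
  have hgS : 30 * (s₂ * (C₁ * lam) ^ 2) * lam ^ (-u) / lam ^ (2 - 3 * u) ≤ 1 := by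
    rw [div_le_one (hpos _)]
    calc _ ≤ 30 * (C₁ ^ 2 * lam ^ (2 : ℝ)) * lam ^ (-u) := by
          have := hpos (-u)
          gcongr
      _ = (30 * C₁ ^ 2) * lam ^ (2 - u) := by
          have : lam ^ (2 - u) = lam ^ (2 : ℝ) * lam ^ (-u) := by rw [hmul]; congr 1
          rw [this]; ring
      _ ≤ _ := hab k2 (by linarith)
  have hamc : lam ^ (9 : ℝ) ≤ lam ^ (8 : ℝ) / (2 * ((8 * d * γ + 3) ^ 2 + (C₁ * lam) ^ 2)) := by
    rw [le_div_iff₀ (by positivity)]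
    have h2 : (C₁ * lam) ^ 2 ≤ 1 := by
      calc (C₁ * lam) ^ 2 ≤ 1 ^ 2 := pow_le_pow_left₀ hβ0.le hβ1 2
        _ = 1 := one_pow 2
    calc lam ^ (9 : ℝ) * (2 * ((8 * d * γ + 3) ^ 2 + (C₁ * lam) ^ 2)) ≤
          lam ^ (9 : ℝ) * (2 * ((8 * d * γ + 3) ^ 2 + 1)) :=
          mul_le_mul_of_nonneg_left (by linarith) (hpos _).le
      _ = (2 * ((8 * d * γ + 3) ^ 2 + 1)) * lam ^ (9 : ℝ) := mul_comm _ _
      _ ≤ _ := hab k7 (by linarith)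
  have hτ5 : lam ^ (40 : ℝ) ≤ 1 / 5 := by
    have : 5 * lam ^ (40 : ℝ) ≤ lam ^ (0 : ℝ) := hab (by linarith) (by linarith)
    rw [Real.rpow_zero] at this
    linarith
  have hετ : lam ^ (60 : ℝ) ≤ lam ^ (40 : ℝ) * (lam ^ (9 : ℝ)) ^ 2 := by
    rw [Pw.pow h0, hmul]; exact Pw.anti h0 h1' (by norm_num)
  have hXm0 : 0 < 8 * d * γ + 3 := by positivity
  have hC0 : 0 ≤ 16 * lam ^ (18 / 7 : ℝ) := by have := hpos (18 / 7); positivity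
  obtain ⟨hgb, hk⟩ := torA D ν (β := C₁ * lam) (v2 := s₂ * (C₁ * lam) ^ 2) hβ0.le hβ1 hν hν0 hν2
    hG (fun V hV => (hgood V hV).1) (fun V hV => (hgood V hV).2.1)
    (fun V hV => (hgood V hV).2.2.1) (fun V hV => (hgood V hV).2.2.2) (hpos 2)
    (θ := lam ^ (6 / 7 : ℝ)) (Qθ := lam ^ (-10 / 7 - u)) (Cl := 16 * lam ^ (18 / 7 : ℝ))
    (hpos _).le hC0 (J_ge E' _ (hpos 2)) hQθ hl (hpos (2 - 3 * u)) (hpos (2 + 2 * κ + 7 * u))
    (fun k hk => hk.le.trans (J_ge' E' _ k)) hS2 hα (r₁ := R) rfl hβr hFb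
    (Pw.le_one h0 h1' (by norm_num)) hbad hXn hXm0 (hpos 9) (Pw.le_one h0 h1' (by norm_num)) hamc
    hετ (hpos (2 / 7 - 4 * κ - 31 * u)).le hsd hx₀ hq hqS hgS hτ5
  refine ⟨(mul_le_mul_of_nonneg_left hgb hv20).trans hx₀, fun k => ⟨(hk k).1, ?_⟩⟩
  refine (hk k).2.trans ?_
  -- the final sum
  have t1 : 4 * lam ^ (16 / 7 - 4 * κ - 34 * u) ≤ lam ^ (16 / 7 - 6 * κ - 48 * u) :=
    hab (by linarith) (by linarith)
  have t2 : 12 * lam ^ (16 / 7 - 4 * κ - 34 * u) * lam ^ (2 - 2 * κ - 16 * u) /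
      lam ^ (2 - 3 * u) ≤ lam ^ (16 / 7 - 6 * κ - 48 * u) := by
    have h2 : 12 * lam ^ (16 / 7 - 4 * κ - 34 * u) * lam ^ (2 - 2 * κ - 16 * u) /
      lam ^ (2 - 3 * u) = 12 * lam ^ (16 / 7 - 6 * κ - 47 * u) := by
      rw [mul_assoc, mul_div_assoc, hmul, Pw.div h0]; congr 2; ring
    rw [h2]; exact hab (by linarith) (by linarith)
  have t3 : 12 * lam ^ (16 / 7 - 4 * κ - 34 * u) * lam ^ (-u) *
      Real.sqrt (lam ^ (2 - 2 * κ - 16 * u) / lam ^ (2 + 2 * κ + 7 * u)) ≤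
      lam ^ (16 / 7 - 6 * κ - 48 * u) := by
    have h2 : 12 * lam ^ (16 / 7 - 4 * κ - 34 * u) * lam ^ (-u) *
      Real.sqrt (lam ^ (2 - 2 * κ - 16 * u) / lam ^ (2 + 2 * κ + 7 * u)) =
      12 * lam ^ (16 / 7 - 6 * κ - 93 / 2 * u) := by
      rw [Pw.div h0, Pw.sqrt h0, mul_assoc, mul_assoc, hmul, hmul]; congr 2; ring
    rw [h2]; exact hab (by linarith) (by linarith)
  have t4 : 72 * (lam ^ (16 / 7 - 4 * κ - 34 * u)) ^ 2 * (lam ^ (-u)) ^ 2 /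
      lam ^ (2 + 2 * κ + 7 * u) ≤ lam ^ (16 / 7 - 6 * κ - 48 * u) := by
    have h2 : 72 * (lam ^ (16 / 7 - 4 * κ - 34 * u)) ^ 2 * (lam ^ (-u)) ^ 2 /
      lam ^ (2 + 2 * κ + 7 * u) = 72 * lam ^ (18 / 7 - 10 * κ - 77 * u) := by
      rw [Pw.pow h0, Pw.pow h0, mul_assoc, mul_div_assoc, hmul, Pw.div h0]; congr 2
      push_cast; ring
    rw [h2]; exact hab (by linarith) (by linarith)
  have t5 : 2 * ((lam ^ (2 - 2 * κ - 16 * u) + 1) * lam ^ (40 : ℝ)) ≤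
      lam ^ (16 / 7 - 6 * κ - 48 * u) := by
    have h2 : lam ^ (2 - 2 * κ - 16 * u) ≤ 1 := Pw.le_one h0 h1' (by linarith)
    calc 2 * ((lam ^ (2 - 2 * κ - 16 * u) + 1) * lam ^ (40 : ℝ)) ≤
          2 * ((1 + 1) * lam ^ (40 : ℝ)) := by
          have := hpos 40
          gcongr
      _ = 4 * lam ^ (40 : ℝ) := by ring
      _ ≤ _ := hab (by linarith) (by linarith)
  have t6 : 5 * lam ^ (16 / 7 - 6 * κ - 48 * u) ≤ lam ^ (16 / 7 - 6 * κ - 49 * u) :=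
    hab (by linarith) (by linarith)
  linarith

end Pool.Agent.Run7.h442.BA
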