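import Pool.Agent.Run7.h442.BA.MkB

/-! Project BA: the self-energy on the torus, abstract form. -/

set_option autoImplicit false
set_option linter.unusedSectionVars false

open scoped BigOperators Matrix
open MeasureTheory

namespace Pool.Agent.Run7.h442.BA

open Pool.Agent.W788.BK (PP nsq nsq_nonneg nsq_eq nsq_smul cs_star cs_norm adjoint nsq_eq_zero
  nsq_star instPP nsq_single star_single Low hi)
open Pool.Agent.W788.MFP.Four (T e NN adj e_comm e_add_left e_add e_zero e_neg e_neg_left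
  e_normSq sum_e NN_pos card_T ft q)

variable {d L : ℕ} [NeZero L]

section inv

variable {X : T d L → ℂ} {c : ℝ}

/-- the potential is bounded -/
theorem VM_bd {β : ℝ} {V : T d L → ℝ} (hV : ∀ y, |V y| ≤ β) (u : T d L → ℂ) :
    nsq (VM V *ᵥ u) ≤ β ^ 2 * nsq u := by
  have h1 : ∀ y, pv (VM V *ᵥ u) y = V y * pv u y := by
    intro y
    have h2 := VM_form V (av y) u
    have h3 : ∀ z, (starRingEnd ℂ) (pv (av y) z) = if z = y then 1 else 0 := by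
      intro z
      rw [← star_dot_av]
      have h4 : star (av y) ⬝ᵥ av z = ∑ k, av k z * (starRingEnd ℂ) (av k y) := by
        unfold dotProduct
        refine Finset.sum_congr rfl fun k _ => ?_
        have h5 : ∀ a b : T d L, av a b = av b a := fun a b => by
          unfold av; rw [e_comm]
        rw [Pi.star_apply, RCLike.star_def, h5 k z, h5 k y]
        ring
      rw [h4, sum_av]
    unfold pv at h2 ⊢
    rw [h2]
    rw [Finset.sum_eq_single y]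
    · have h6 := h3 y
      unfold pv at h6
      rw [h6, if_pos rfl, one_mul]
    · intro z _ hz
      have h6 := h3 z
      unfold pv at h6
      rw [h6, if_neg hz, zero_mul, mul_zero]
    · intro h; exact absurd (Finset.mem_univ y) h
  rw [← parseval_sq, ← parseval_sq, Finset.mul_sum]
  refine Finset.sum_le_sum fun y _ => ?_
  rw [h1, norm_mul, mul_pow, Complex.norm_real, Real.norm_eq_abs]
  exact mul_le_mul_of_nonneg_right (pow_le_pow_left₀ (abs_nonneg _) (hV y) 2) (sq_nonneg _)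

/-- lower bound of the resolvent -/
theorem GX_low (hc : 0 < c) (hX : ∀ k, (X k).im ≤ -c) {β Xm : ℝ} (hβ : 0 ≤ β)
    (hXm : ∀ k, ‖X k‖ ≤ Xm) {V : T d L → ℝ} (hV : ∀ y, |V y| ≤ β) (w : T d L → ℂ) :
    nsq w ≤ 2 * (Xm ^ 2 + β ^ 2) * nsq (GX X V *ᵥ w) := by
  set u := GX X V *ᵥ w with hu
  have h1 : MX X V *ᵥ u = w := by
    rw [hu, Matrix.mulVec_mulVec, mul_GX hc hX, Matrix.one_mulVec]
  have h2 : w = (fun k => X k * u k) - (-(VM V *ᵥ u)) := by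
    funext k
    rw [← h1, MX_mulVec, Pi.sub_apply, Pi.neg_apply]
    ring
  have h10 : ∀ u : T d L → ℂ, jn (fun _ => (1 : ℝ)) u = nsq u := fun u => by
    unfold jn nsq; simp
  have h3 := jn_add_le (fun _ : T d L => (1 : ℝ)) (fun _ => zero_le_one)
    (fun k => X k * u k) (-(VM V *ᵥ u))
  rw [h10, h10, h10, ← h2] at h3
  have h4 : nsq (fun k => X k * u k) ≤ Xm ^ 2 * nsq u := by
    unfold nsq
    rw [Finset.mul_sum]
    refine Finset.sum_le_sum fun k _ => ?_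
    rw [norm_mul, mul_pow]
    exact mul_le_mul_of_nonneg_right (pow_le_pow_left₀ (norm_nonneg _) (hXm k) 2) (sq_nonneg _)
  have h5 : nsq (-(VM V *ᵥ u)) ≤ β ^ 2 * nsq u := by
    have h6 : nsq (-(VM V *ᵥ u)) = nsq (VM V *ᵥ u) := by
      unfold nsq; simp
    rw [h6]
    exact VM_bd hV u
  linarith

/-- lower bound of the mean of the resolvent -/
theorem gm_low (hc : 0 < c) (hX : ∀ k, (X k).im ≤ -c) (ν : Measure ℝ) [IsProbabilityMeasure ν]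
    {β Xm : ℝ} (hβ0 : 0 ≤ β) (hβ : ∀ᵐ x ∂ν, |x| ≤ β) (hXm : ∀ k, ‖X k‖ ≤ Xm) (hX0 : 0 < Xm)
    (k : T d L) : c / (2 * (Xm ^ 2 + β ^ 2)) ≤ ‖gm ν X k‖ := by
  have hae := ae_all (d := d) (L := L) hβ
  have h0 : 0 < 2 * (Xm ^ 2 + β ^ 2) := by positivity
  have h1 : (gm ν X k).im = ∫ V, (GX X V k k).im ∂(PP (T d L) ν) :=
    (integral_im (integrable_entry hc hX ν k k)).symm
  have h2 : ∀ᵐ V ∂(PP (T d L) ν), c / (2 * (Xm ^ 2 + β ^ 2)) ≤ (GX X V k k).im := by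
    filter_upwards [hae] with V hV
    have h3 := ward hc hX V (Pi.single k 1)
    rw [star_single, single_dotProduct, one_mul, mulVec_single_one] at h3
    rw [h3]
    have h4 := GX_low hc hX hβ0 hXm hV (Pi.single k 1)
    rw [nsq_single] at h4
    rw [div_le_iff₀ h0]
    have h5 : c * nsq (GX X V *ᵥ Pi.single k 1) ≤
        ∑ p, -(X p).im * ‖(GX X V *ᵥ Pi.single k 1) p‖ ^ 2 := by
      unfold nsq
      rw [Finset.mul_sum]
      refine Finset.sum_le_sum fun p _ => ?_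
      exact mul_le_mul_of_nonneg_right (by linarith [hX p]) (sq_nonneg _)
    have h6 : c * 1 ≤ c * (2 * (Xm ^ 2 + β ^ 2) * nsq (GX X V *ᵥ Pi.single k 1)) :=
      mul_le_mul_of_nonneg_left h4 hc.le
    nlinarith
  have h7 : c / (2 * (Xm ^ 2 + β ^ 2)) ≤ (gm ν X k).im := by
    rw [h1]
    have h8 := integral_mono_ae (integrable_const (c / (2 * (Xm ^ 2 + β ^ 2))))
      (integrable_entry hc hX ν k k).im h2
    simpa using h8
  exact h7.trans ((le_abs_self _).trans (Complex.abs_im_le_norm _))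

end inv

/-- the quadratic inequality -/
theorem solve {D q S' αP W x₀ t g1 : ℝ} (hD : 0 ≤ D) (hq : 0 ≤ q) (hS : 0 < S') (hα : 0 < αP)
    (hW : 0 ≤ W) (hx : 0 ≤ x₀) (hqS : 24 * q ≤ S') (hg0 : 0 ≤ g1) (hg1 : g1 ≤ 4)
    (h : D ≤ q * Real.sqrt (g1 + 31 * W ^ 2 / αP * (x₀ + D) + 30 / S' ^ 2 * (x₀ + D) ^ 2) + t) :
    D ≤ 4 * q + 12 * q * x₀ / S' + 12 * q * W * Real.sqrt (x₀ / αP) + 72 * q ^ 2 * W ^ 2 / αP +
      2 * t := by
  set a := Real.sqrt (x₀ / αP) with ha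
  set b := Real.sqrt (D / αP) with hb
  have ha0 : 0 ≤ a := Real.sqrt_nonneg _
  have hb0 : 0 ≤ b := Real.sqrt_nonneg _
  have ha2 : a ^ 2 = x₀ / αP := Real.sq_sqrt (by positivity)
  have hb2 : b ^ 2 = D / αP := Real.sq_sqrt (by positivity)
  have hy0 : 0 ≤ (x₀ + D) / S' := by positivity
  have h1 : Real.sqrt (g1 + 31 * W ^ 2 / αP * (x₀ + D) + 30 / S' ^ 2 * (x₀ + D) ^ 2) ≤
      2 + 6 * W * a + 6 * W * b + 6 * ((x₀ + D) / S') := by
    rw [Real.sqrt_le_left (by positivity)]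
    have e1 : 31 * W ^ 2 / αP * (x₀ + D) = 31 * W ^ 2 * (a ^ 2 + b ^ 2) := by
      rw [ha2, hb2]; field_simp
    have e2 : 30 / S' ^ 2 * (x₀ + D) ^ 2 = 30 * ((x₀ + D) / S') ^ 2 := by
      field_simp
    rw [e1, e2]
    have p1 : 0 ≤ W * a := by positivity
    have p2 : 0 ≤ W * b := by positivity
    have p3 : 0 ≤ W * a * (W * b) := by positivity
    have p4 : 0 ≤ W * a * ((x₀ + D) / S') := by positivity
    have p5 : 0 ≤ W * b * ((x₀ + D) / S') := by positivity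
    nlinarith [sq_nonneg (W * a), sq_nonneg (W * b), sq_nonneg ((x₀ + D) / S')]
  have h2 : D ≤ q * (2 + 6 * W * a + 6 * W * b + 6 * ((x₀ + D) / S')) + t :=
    h.trans (by gcongr)
  have h3 : 6 * q * (D / S') ≤ D / 4 := by
    have : q / S' ≤ 1 / 24 := by rw [div_le_iff₀ hS]; linarith
    calc 6 * q * (D / S') = 6 * D * (q / S') := by ring
      _ ≤ 6 * D * (1 / 24) := by gcongr
      _ = _ := by ring
  have h4 : 6 * q * W * b ≤ D / 4 + 36 * q ^ 2 * W ^ 2 / αP := by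
    have h5 : 0 ≤ (αP * b / 2 - 6 * q * W) ^ 2 := sq_nonneg _
    have h6 : αP * b ^ 2 = D := by rw [hb2]; field_simp
    have h7 : 36 * q ^ 2 * W ^ 2 / αP * αP = 36 * q ^ 2 * W ^ 2 := by field_simp
    have h8 : (6 * q * W * b) * αP ≤ (D / 4 + 36 * q ^ 2 * W ^ 2 / αP) * αP := by
      rw [add_mul, h7, ← h6]
      nlinarith
    exact le_of_mul_le_mul_right h8 hα
  have h9 : q * (6 * ((x₀ + D) / S')) = 6 * q * x₀ / S' + 6 * q * (D / S') := by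
    field_simp
  have h10 : 12 * q * x₀ / S' = 2 * (6 * q * x₀ / S') := by ring
  have h11 : 72 * q ^ 2 * W ^ 2 / αP = 2 * (36 * q ^ 2 * W ^ 2 / αP) := by ring
  rw [h10, h11]
  nlinarith

theorem one_le_NN : 1 ≤ NN d L := by
  have h : (1 : ℝ) ≤ (Fintype.card (T d L) : ℝ) := by
    exact_mod_cast Fintype.card_pos
  rwa [card_T] at h

/-- the torus theorem, abstract form -/
theorem torA {J : T d L → ℝ} {X : T d L → ℂ} {c W a₀ g : ℝ} {Q : T d L → Prop}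
    (D : Dat J X c W a₀ g Q) (ν : Measure ℝ) [IsProbabilityMeasure ν] {β v2 : ℝ}
    (hβ0 : 0 ≤ β) (hβ1 : β ≤ 1) (hβ : ∀ᵐ x ∂ν, |x| ≤ β) (h0 : ∫ x, x ∂ν = 0)
    (h2 : ∫ x, x ^ 2 ∂ν = v2) {G₀ : Set (T d L → ℝ)} (hG : MeasurableSet G₀)
    (hV : ∀ V ∈ G₀, ∀ z, |V z| ≤ β) (g0 : ∀ V ∈ G₀, Gd J W Q V)
    (g1 : ∀ V ∈ G₀, ∀ y, Gd J W Q (Function.update V y 0))
    (g2 : ∀ V ∈ G₀, ∀ y z, Gd J W Q (Function.update (Function.update V y 0) z 0))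
    {δ θ Qθ Cl : ℝ} (hδ : 0 < δ) (hQ0 : 0 ≤ Qθ) (hC0 : 0 ≤ Cl) (hJδ : ∀ k, δ ≤ J k)
    (hQθ : ∀ P : T d L, ¬ Low θ P → ∑ k, (J k * J (k + P))⁻¹ ≤ Qθ * NN d L)
    (hl : ∑ P : T d L, (1 - hi θ P) ≤ Cl * NN d L) {S' αP : ℝ}
    (hS0 : 0 < S') (hα0 : 0 < αP) (hS : ∀ k, Q k → S' ≤ J k) (hS2 : ∀ k, ¬ Q k → J k ≤ 2 * S')
    (hα : ∀ k, ¬ Q k → αP ≤ -(X k).im) {r₁ F ε τ Xm amin sd q x₀ : ℝ}
    (hr₁ : r₁ = rh W a₀ * g) (hr : β * r₁ ≤ 1)
    (hF : (Qθ + Cl / δ ^ 2) * (rh W a₀ ^ 2 * g) ^ 2 ≤ F) (hc1 : c ≤ 1)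
    (hε : NN d L * (c⁻¹) ^ 3 * (PP (T d L) ν).real G₀ᶜ ≤ ε) (hXm : ∀ k, ‖X k‖ ≤ Xm)
    (hX0 : 0 < Xm) (ham : 0 < amin) (ham1 : amin ≤ 1) (hamc : amin ≤ c / (2 * (Xm ^ 2 + β ^ 2)))
    (hετ : ε ≤ τ * amin ^ 2) (hsd0 : 0 ≤ sd)
    (hsd : 8 * β ^ 2 * F + 8 * ε + 4 * β ^ 2 * r₁ ^ 4 + 16 * ε ^ 2 ≤ sd ^ 2)
    (hx₀ : v2 * (r₁ + ε) ≤ x₀) (hq : x₀ * β * r₁ + β ^ 3 * r₁ ^ 2 + 2 * v2 * sd ≤ q)
    (hqS : 24 * q ≤ S') (hgS : 30 * v2 * g / S' ≤ 1) (hτ : τ ≤ 1 / 5) :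
    ‖gb ν X‖ ≤ r₁ + ε ∧ ∀ k, gm ν X k ≠ 0 ∧ ‖sm ν X k + v2 * gb ν X‖ ≤
      4 * q + 12 * q * x₀ / S' + 12 * q * W * Real.sqrt (x₀ / αP) + 72 * q ^ 2 * W ^ 2 / αP +
      2 * ((x₀ + 1) * τ) := by
  have hc := D.hc
  have hX := D.hX
  have hg0 := D.g0
  have hW0 : 0 ≤ W := by linarith [D.hW]
  have hr0 : 0 ≤ r₁ := by rw [hr₁]; exact mul_nonneg D.rh_pos.le hg0
  have hv2 : 0 ≤ v2 := by rw [← h2]; exact integral_nonneg fun x => sq_nonneg x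
  have hF0 : 0 ≤ F := le_trans (by positivity) hF
  set P := (PP (T d L) ν).real G₀ᶜ with hP
  have hP0 : 0 ≤ P := measureReal_nonneg
  have hN1 : 1 ≤ NN d L := one_le_NN
  have hsN1 : 1 ≤ Real.sqrt (NN d L) := by
    rw [Real.one_le_sqrt]; exact hN1
  have hsNN : Real.sqrt (NN d L) ≤ NN d L := by
    rw [Real.sqrt_le_left (by linarith)]
    nlinarith
  set i := c⁻¹ with hi'
  have hi1 : 1 ≤ i := by rw [hi']; exact (one_le_inv₀ hc).2 hc1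
  have hi0 : 0 ≤ i := by linarith
  have hi2 : i ^ 2 ≤ i ^ 3 := pow_le_pow_right₀ hi1 (by norm_num)
  have hi3 : i ≤ i ^ 3 := by
    calc i = i ^ 1 := (pow_one i).symm
      _ ≤ i ^ 3 := pow_le_pow_right₀ hi1 (by norm_num)
  have hε0 : 0 ≤ ε := le_trans (by positivity) hε
  have hτ0 : 0 ≤ τ := by
    by_contra h
    push Not at h
    have : τ * amin ^ 2 < 0 := mul_neg_of_neg_of_pos h (by positivity)
    linarith
  have b1 : i * P ≤ ε := by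
    calc i * P = 1 * i * P := by ring
      _ ≤ NN d L * i ^ 3 * P := by gcongr
      _ ≤ ε := hε
  have b2 : NN d L * (i ^ 2 * P) ≤ ε := by
    calc NN d L * (i ^ 2 * P) = NN d L * i ^ 2 * P := by ring
      _ ≤ NN d L * i ^ 3 * P := by gcongr
      _ ≤ ε := hε
  have b3 : Real.sqrt (NN d L) * (β * i ^ 2 * P) ≤ ε := by
    calc Real.sqrt (NN d L) * (β * i ^ 2 * P) ≤ NN d L * (1 * i ^ 3 * P) := by gcongr
      _ = NN d L * i ^ 3 * P := by ring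
      _ ≤ ε := hε
  have b4 : Real.sqrt (NN d L) * (β ^ 3 * i ^ 3 * P) ≤ ε := by
    have : β ^ 3 ≤ 1 := pow_le_one₀ hβ0 hβ1
    calc Real.sqrt (NN d L) * (β ^ 3 * i ^ 3 * P) ≤ NN d L * (1 * i ^ 3 * P) := by gcongr
      _ = NN d L * i ^ 3 * P := by ring
      _ ≤ ε := hε
  have b5 : i ^ 2 * P ≤ ε := by
    calc i ^ 2 * P = 1 * i ^ 2 * P := by ring
      _ ≤ NN d L * i ^ 3 * P := by gcongr
      _ ≤ ε := hε
  -- bounds on the good set
  have s1 : ∀ V ∈ G₀, ∀ y, ‖Ga X y V‖ ≤ r₁ := fun V hVG y => by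
    rw [hr₁]; exact D.site (g1 V hVG y) y y
  have s2 : ∀ V ∈ G₀, ∀ y, ‖pv (GX X V *ᵥ av y) y‖ ≤ r₁ := fun V hVG y => by
    rw [hr₁]; exact D.site (g0 V hVG) y y
  have s3 : ∀ y, ∀ V ∈ G₀, ∀ z,
      ‖pv (GX X (Function.update (Function.update V y 0) z 0) *ᵥ av z) z‖ ≤ r₁ :=
    fun y V hVG z => by rw [hr₁]; exact D.site (g2 V hVG y z) z z
  -- variance
  have hvar : ∀ y, ∫ V, ‖Ga X y V - gb ν X‖ ^ 2 ∂(PP (T d L) ν) ≤ sd ^ 2 := by
    intro y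
    have v1 := var_Ga hc hX ν hβ0 hF0 hr y hG hV (s3 y)
      (fun V hVG => ((D.four1 (g1 V hVG y) hδ hQ0 hC0 hJδ hQθ hl y).1).trans hF)
      (fun V hVG => ((D.four1 (g1 V hVG y) hδ hQ0 hC0 hJδ hQθ hl y).2).trans hF)
    have v2' := mean_Ga hc hX ν hβ0 hr0 y hG hV (fun V hVG => s2 V hVG y)
      (fun V hVG => s1 V hVG y)
    change ‖∫ U, Ga X y U ∂(PP (T d L) ν) - gb ν X‖ ≤ _ at v2'
    set m := ∫ U, Ga X y U ∂(PP (T d L) ν) with hm
    have hmb : ‖m - gb ν X‖ ≤ β * r₁ ^ 2 + 2 * ε := by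
      refine v2'.trans ?_
      have : 2 * i * P = 2 * (i * P) := by ring
      rw [← hi', ← hP, this]
      linarith
    have i1 : Integrable (fun V => ‖Ga X y V - m‖ ^ 2) (PP (T d L) ν) :=
      Integrable.of_bound (C := (i + ‖m‖) ^ 2)
        (((cont_Ga hc hX y).sub continuous_const).norm.pow 2).aestronglyMeasurable
        (Filter.Eventually.of_forall fun V => by
          rw [Real.norm_eq_abs, abs_of_nonneg (by positivity)]
          exact pow_le_pow_left₀ (norm_nonneg _) ((norm_sub_le _ _).trans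
            (by linarith [Ga_bd hc hX y V])) 2)
    have i2 : Integrable (fun V => ‖Ga X y V - gb ν X‖ ^ 2) (PP (T d L) ν) :=
      Integrable.of_bound (C := (i + ‖gb ν X‖) ^ 2)
        (((cont_Ga hc hX y).sub continuous_const).norm.pow 2).aestronglyMeasurable
        (Filter.Eventually.of_forall fun V => by
          rw [Real.norm_eq_abs, abs_of_nonneg (by positivity)]
          exact pow_le_pow_left₀ (norm_nonneg _) ((norm_sub_le _ _).trans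
            (by linarith [Ga_bd hc hX y V])) 2)
    have hpt : ∀ V, ‖Ga X y V - gb ν X‖ ^ 2 ≤ 2 * ‖Ga X y V - m‖ ^ 2 +
        2 * ‖m - gb ν X‖ ^ 2 := by
      intro V
      have h3 : ‖Ga X y V - gb ν X‖ ≤ ‖Ga X y V - m‖ + ‖m - gb ν X‖ := norm_sub_le_norm_sub_add_norm_sub _ _ _
      have h4 := pow_le_pow_left₀ (norm_nonneg _) h3 2
      nlinarith [sq_nonneg (‖Ga X y V - m‖ - ‖m - gb ν X‖)]
    have h5 : ∫ V, ‖Ga X y V - gb ν X‖ ^ 2 ∂(PP (T d L) ν) ≤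
        2 * (∫ V, ‖Ga X y V - m‖ ^ 2 ∂(PP (T d L) ν)) + 2 * ‖m - gb ν X‖ ^ 2 := by
      have h6 := integral_mono i2 ((i1.const_mul 2).add (integrable_const (2 * ‖m - gb ν X‖ ^ 2))) hpt
      refine h6.trans (le_of_eq ?_)
      have h7 : ∫ V, (2 * ‖Ga X y V - m‖ ^ 2 + 2 * ‖m - gb ν X‖ ^ 2) ∂(PP (T d L) ν) =
          2 * (∫ V, ‖Ga X y V - m‖ ^ 2 ∂(PP (T d L) ν)) + 2 * ‖m - gb ν X‖ ^ 2 := by
        rw [integral_add (i1.const_mul 2) (integrable_const _), integral_const_mul,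
          integral_const]
        simp
      exact h7
    refine h5.trans (le_trans ?_ hsd)
    have h8 : ‖m - gb ν X‖ ^ 2 ≤ (β * r₁ ^ 2 + 2 * ε) ^ 2 :=
      pow_le_pow_left₀ (norm_nonneg _) hmb 2
    have h9 : (β * r₁ ^ 2 + 2 * ε) ^ 2 ≤ 2 * (β ^ 2 * r₁ ^ 4) + 8 * ε ^ 2 := by
      nlinarith [sq_nonneg (β * r₁ ^ 2 - 2 * ε)]
    have h10 : 4 * NN d L * i ^ 2 * P = 4 * (NN d L * (i ^ 2 * P)) := by ring
    rw [← hi', ← hP, h10] at v1
    linarith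
  -- the mean
  have hgb : ‖gb ν X‖ ≤ r₁ + ε := by
    have h3 := int_site hc hX ν (0 : T d L)
    unfold gb
    rw [← h3]
    refine (norm_integral_le_integral_norm _).trans ?_
    have hi1' : Integrable ((G₀ᶜ).indicator (1 : (T d L → ℝ) → ℝ)) (PP (T d L) ν) :=
      (integrable_const (1 : ℝ)).indicator hG.compl
    have hb1 : ∀ V, ‖pv (GX X V *ᵥ av (0 : T d L)) 0‖ ≤ i := fun V => by
      have h := pv_bd hc hX V (av (0 : T d L)) 0
      rwa [nsq_av, Real.sqrt_one, mul_one] at h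
    have hpt : ∀ V, ‖pv (GX X V *ᵥ av (0 : T d L)) 0‖ ≤ r₁ + i * (G₀ᶜ).indicator 1 V := by
      intro V
      by_cases hVG : V ∈ G₀
      · rw [Set.indicator_of_notMem (by simpa using hVG), mul_zero, add_zero]
        exact s2 V hVG 0
      · rw [Set.indicator_of_mem (by simpa using hVG), Pi.one_apply, mul_one]
        linarith [hb1 V]
    have hint : Integrable (fun V => ‖pv (GX X V *ᵥ av (0 : T d L)) 0‖) (PP (T d L) ν) :=
      Integrable.of_bound (C := i) (cont_pv hc hX _ 0).norm.aestronglyMeasurable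
        (Filter.Eventually.of_forall fun V => by rw [norm_norm]; exact hb1 V)
    have h4 := integral_mono hint ((integrable_const r₁).add (hi1'.const_mul i)) hpt
    refine h4.trans ?_
    have h5 : ∫ V, (r₁ + i * (G₀ᶜ).indicator 1 V) ∂(PP (T d L) ν) = r₁ + i * P := by
      rw [integral_add (integrable_const _) (hi1'.const_mul _), integral_const_mul,
        integral_indicator_one hG.compl, integral_const]
      simp [hP]
    exact (le_of_eq h5).trans (by linarith)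
  refine ⟨hgb, fun k => ?_⟩
  -- one momentum
  set γ := gm ν X k with hγ
  have hγ0 : amin ≤ ‖γ‖ := hamc.trans (gm_low hc hX ν hβ0 hβ hXm hX0 k)
  have hγp : 0 < ‖γ‖ := ham.trans_le hγ0
  have hγ1 : γ ≠ 0 := norm_pos_iff.1 hγp
  refine ⟨hγ1, ?_⟩
  set Dk := ‖sm ν X k + v2 * gb ν X‖ with hDk
  have hDk0 : 0 ≤ Dk := norm_nonneg _
  have hx0 : 0 ≤ x₀ := le_trans (by positivity) hx₀
  have hvg : v2 * ‖gb ν X‖ ≤ x₀ := (mul_le_mul_of_nonneg_left hgb hv2).trans hx₀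
  have e1 : 1 - X k * γ = γ * sm ν X k := by
    unfold sm
    rw [← hγ]
    field_simp
  have e2 : ‖1 - X k * γ + v2 * gb ν X * γ‖ = Dk * ‖γ‖ := by
    rw [e1, hDk, ← norm_mul]
    congr 1
    ring
  have e3 : ‖sm ν X k‖ ≤ x₀ + Dk := by
    have h3 : sm ν X k = (sm ν X k + v2 * gb ν X) - v2 * gb ν X := by ring
    rw [h3]
    refine (norm_sub_le _ _).trans ?_
    rw [norm_mul, Complex.norm_real, Real.norm_eq_abs, abs_of_nonneg hv2]
    linarith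
  have e4 : ‖1 - X k * γ‖ ≤ ‖γ‖ * (x₀ + Dk) := by
    rw [e1, norm_mul]
    exact mul_le_mul_of_nonneg_left e3 hγp.le
  have hετ' : ε ≤ τ * ‖γ‖ ^ 2 :=
    hετ.trans (mul_le_mul_of_nonneg_left (pow_le_pow_left₀ ham.le hγ0 2) hτ0)
  have hετ'' : ε ≤ τ * ‖γ‖ := by
    have h3 : amin ^ 2 ≤ ‖γ‖ := by nlinarith
    exact hετ.trans (mul_le_mul_of_nonneg_left h3 hτ0)
  set M := Mk ν X k with hM
  have hM0 : 0 ≤ M := Mk_nonneg ν k
  set R := 1 + 30 * v2 * g / S' + 5 * τ + 31 * W ^ 2 / αP * (x₀ + Dk) +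
    30 / S' ^ 2 * (x₀ + Dk) ^ 2 with hR
  have hR0 : 0 ≤ R := by positivity
  have hMR : M ≤ ‖γ‖ ^ 2 * (R - τ) := by
    have h3 := D.Mk_le ν hβ h0 h2 hG g0 hS0 hα0 hS hS2 hα k
    rw [← hγ, ← hM, ← hi', ← hP] at h3
    refine h3.trans ?_
    have h4 : 31 * W ^ 2 / αP * (‖γ‖ * ‖1 - X k * γ‖) ≤
        31 * W ^ 2 / αP * (‖γ‖ * (‖γ‖ * (x₀ + Dk))) := by gcongr
    have h5 : 30 / S' ^ 2 * ‖1 - X k * γ‖ ^ 2 ≤ 30 / S' ^ 2 * (‖γ‖ * (x₀ + Dk)) ^ 2 := by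
      gcongr
    have h6 : 4 * i ^ 2 * P ≤ 4 * (τ * ‖γ‖ ^ 2) := by
      have : 4 * i ^ 2 * P = 4 * (i ^ 2 * P) := by ring
      rw [this]; linarith
    rw [hR]
    have h7 : ‖γ‖ ^ 2 * (1 + 30 * v2 * g / S' + 5 * τ + 31 * W ^ 2 / αP * (x₀ + Dk) +
        30 / S' ^ 2 * (x₀ + Dk) ^ 2 - τ) = ‖γ‖ ^ 2 * (1 + 30 * v2 * g / S') +
        31 * W ^ 2 / αP * (‖γ‖ * (‖γ‖ * (x₀ + Dk))) + 30 / S' ^ 2 * (‖γ‖ * (x₀ + Dk)) ^ 2 +
        4 * (τ * ‖γ‖ ^ 2) := by ring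
    rw [h7]
    linarith
  have hsM : Real.sqrt M ≤ ‖γ‖ * Real.sqrt R := by
    have h3 : M ≤ ‖γ‖ ^ 2 * R := hMR.trans (mul_le_mul_of_nonneg_left (by linarith) (sq_nonneg _))
    calc Real.sqrt M ≤ Real.sqrt (‖γ‖ ^ 2 * R) := Real.sqrt_le_sqrt h3
      _ = _ := by rw [Real.sqrt_mul (sq_nonneg _), Real.sqrt_sq hγp.le]
  have hsM2 : Real.sqrt (4 * M + NN d L * (i ^ 2 * P)) ≤ 2 * (‖γ‖ * Real.sqrt R) := by
    have h3 : 4 * M + NN d L * (i ^ 2 * P) ≤ 2 ^ 2 * (‖γ‖ ^ 2 * R) := by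
      have h4 : 4 * M ≤ 4 * (‖γ‖ ^ 2 * (R - τ)) := by linarith
      have h5 : 4 * (‖γ‖ ^ 2 * (R - τ)) = 2 ^ 2 * (‖γ‖ ^ 2 * R) - 4 * (τ * ‖γ‖ ^ 2) := by ring
      have h6 : 0 ≤ τ * ‖γ‖ ^ 2 := by positivity
      linarith
    calc Real.sqrt (4 * M + NN d L * (i ^ 2 * P)) ≤ Real.sqrt (2 ^ 2 * (‖γ‖ ^ 2 * R)) :=
          Real.sqrt_le_sqrt h3
      _ = _ := by
        rw [Real.sqrt_mul (by norm_num), Real.sqrt_sq (by norm_num), Real.sqrt_mul (sq_nonneg _),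
          Real.sqrt_sq hγp.le]
  have hsig := sig hc hX ν hβ h0 h2 hβ0 hr0 hr hsd0 hG hV s1 (gb ν X) hvar k
  rw [← hγ, e2, ← hM, ← hi', ← hP] at hsig
  have hmain : Dk * ‖γ‖ ≤ (q * Real.sqrt R + (x₀ + 1) * τ) * ‖γ‖ := by
    refine hsig.trans ?_
    set s := Real.sqrt R with hs
    have hs0 : 0 ≤ s := Real.sqrt_nonneg _
    have c1 : v2 * ‖gb ν X‖ * (β * r₁ * Real.sqrt M +
        Real.sqrt (NN d L) * (β * i ^ 2 * P)) ≤ x₀ * (β * r₁ * (‖γ‖ * s) + τ * ‖γ‖) := by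
      have : 0 ≤ β * r₁ * Real.sqrt M + Real.sqrt (NN d L) * (β * i ^ 2 * P) := by positivity
      calc _ ≤ x₀ * (β * r₁ * Real.sqrt M + Real.sqrt (NN d L) * (β * i ^ 2 * P)) :=
            mul_le_mul_of_nonneg_right hvg this
        _ ≤ _ := by
          refine mul_le_mul_of_nonneg_left (add_le_add ?_ (b3.trans hετ'')) hx0
          exact mul_le_mul_of_nonneg_left hsM (by positivity)
    have c2 : v2 * (sd * Real.sqrt (4 * M + NN d L * (i ^ 2 * P))) ≤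
        v2 * (sd * (2 * (‖γ‖ * s))) := by gcongr
    have c3 : β ^ 3 * r₁ ^ 2 * Real.sqrt M + Real.sqrt (NN d L) * (β ^ 3 * i ^ 3 * P) ≤
        β ^ 3 * r₁ ^ 2 * (‖γ‖ * s) + τ * ‖γ‖ :=
      add_le_add (mul_le_mul_of_nonneg_left hsM (by positivity)) (b4.trans hετ'')
    have c4 : (x₀ * β * r₁ + β ^ 3 * r₁ ^ 2 + 2 * v2 * sd) * (s * ‖γ‖) ≤ q * (s * ‖γ‖) :=
      mul_le_mul_of_nonneg_right hq (by positivity)
    nlinarith
  have hmain' : Dk ≤ q * Real.sqrt R + (x₀ + 1) * τ := le_of_mul_le_mul_right hmain hγp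
  have hq0 : 0 ≤ q := le_trans (by positivity) hq
  exact solve hDk0 hq0 hS0 hα0 hW0 hx0 hqS (g1 := 1 + 30 * v2 * g / S' + 5 * τ) (by positivity)
    (by linarith) hmain'

end Pool.Agent.Run7.h442.BA
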