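import Pool.Agent.Run7.h442.BA.Cov
import Pool.Agent.W193.BK.ES

/-! Project BA: variance and mean of the Green function at a site. -/

set_option autoImplicit false
set_option linter.unusedSectionVars false

open scoped BigOperators Matrix
open MeasureTheory

namespace Pool.Agent.Run7.h442.BA

open Pool.Agent.W788.BK (PP nsq nsq_nonneg nsq_eq nsq_smul cs_star cs_norm adjoint nsq_eq_zero
  nsq_star instPP nsq_single)
open Pool.Agent.W788.MFP.Four (T e NN adj e_comm e_add_left e_add e_zero e_neg e_neg_left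
  e_normSq sum_e NN_pos card_T ft q)

variable {d L : ℕ} [NeZero L]

/-- the Green function at `y` without the potential at `y` -/
noncomputable def Ga (X : T d L → ℂ) (y : T d L) (V : T d L → ℝ) : ℂ :=
  pv (GX X (Function.update V y 0) *ᵥ av y) y

section inv

variable {X : T d L → ℂ} {c : ℝ}

theorem cont_Ga (hc : 0 < c) (hX : ∀ k, (X k).im ≤ -c) (y : T d L) :
    Continuous fun V : T d L → ℝ => Ga X y V :=
  (cont_pv hc hX (av y) y).comp (cont_upd y 0)

theorem Ga_bd (hc : 0 < c) (hX : ∀ k, (X k).im ≤ -c) (y : T d L) (V : T d L → ℝ) :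
    ‖Ga X y V‖ ≤ c⁻¹ := by
  have h := pv_bd hc hX (Function.update V y 0) (av y) y
  rw [nsq_av, Real.sqrt_one, mul_one] at h
  exact h

theorem indep_Ga (X : T d L → ℂ) (y : T d L) (V : T d L → ℝ) (t : ℝ) :
    Ga X y (Function.update V y t) = Ga X y V := by
  unfold Ga
  rw [Function.update_idem]

/-- the change of the Green function -/
theorem diff_Ga (hc : 0 < c) (hX : ∀ k, (X k).im ≤ -c) (V : T d L → ℝ) {y z : T d L}
    (hz : z ≠ y) :
    Ga X y V - Ga X y (Function.update V z 0) =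
      -(V z : ℂ) * (pv (GX X (Function.update V y 0) *ᵥ av z) y *
        ((1 + V z * pv (GX X (Function.update (Function.update V y 0) z 0) *ᵥ av z) z) *
          pv (GX X (Function.update V y 0) *ᵥ av y) z)) := by
  unfold Ga
  have h1 := (pv_update hc hX (Function.update V y 0) y z (av y)).1
  have h2 := (pv_update hc hX (Function.update V y 0) z z (av y)).2
  rw [Function.update_of_ne hz] at h1 h2
  rw [Function.update_comm hz]
  rw [h1]
  have h3 : pv (GX X (Function.update (Function.update V y 0) z 0) *ᵥ av y) z =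
      pv (GX X (Function.update V y 0) *ᵥ av y) z +
        V z * (pv (GX X (Function.update (Function.update V y 0) z 0) *ᵥ av z) z *
          pv (GX X (Function.update V y 0) *ᵥ av y) z) := by
    linear_combination -h2
  rw [h3]
  ring

theorem var_Ga (hc : 0 < c) (hX : ∀ k, (X k).im ≤ -c) (ν : Measure ℝ) [IsProbabilityMeasure ν]
    {β r₁ F : ℝ} (hβ : 0 ≤ β) (hF : 0 ≤ F) (hr : β * r₁ ≤ 1) (y : T d L) {G₀ : Set (T d L → ℝ)}
    (hG : MeasurableSet G₀) (hV : ∀ V ∈ G₀, ∀ z, |V z| ≤ β)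
    (h1 : ∀ V ∈ G₀, ∀ z, ‖pv (GX X (Function.update (Function.update V y 0) z 0) *ᵥ av z) z‖ ≤ r₁)
    (h2 : ∀ V ∈ G₀, ∑ z, ‖pv (GX X (Function.update V y 0) *ᵥ av y) z‖ ^ 4 ≤ F)
    (h3 : ∀ V ∈ G₀, ∑ z, ‖pv (GX X (Function.update V y 0) *ᵥ av z) y‖ ^ 4 ≤ F) :
    ∫ V, ‖Ga X y V - ∫ U, Ga X y U ∂(PP (T d L) ν)‖ ^ 2 ∂(PP (T d L) ν) ≤
      4 * β ^ 2 * F + 4 * NN d L * (c⁻¹) ^ 2 * (PP (T d L) ν).real G₀ᶜ := by
  have hC := cont_Ga hc hX y
  have hes := Pool.Agent.W193.BK.ES.es (T d L) ν (fun V => Ga X y V) hC ⟨c⁻¹, Ga_bd hc hX y⟩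
  refine hes.trans ?_
  -- pointwise
  have hc0 : 0 ≤ c⁻¹ := (inv_pos.2 hc).le
  have hb : ∀ V z, ‖Ga X y V - Ga X y (Function.update V z 0)‖ ^ 2 ≤ 4 * (c⁻¹) ^ 2 := by
    intro V z
    have h4 : ‖Ga X y V - Ga X y (Function.update V z 0)‖ ≤ 2 * c⁻¹ :=
      (norm_sub_le _ _).trans (by linarith [Ga_bd hc hX y V, Ga_bd hc hX y (Function.update V z 0)])
    calc _ ≤ (2 * c⁻¹) ^ 2 := pow_le_pow_left₀ (norm_nonneg _) h4 2
      _ = _ := by ring
  have hcont : ∀ z, Continuous fun V => ‖Ga X y V - Ga X y (Function.update V z 0)‖ ^ 2 :=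
    fun z => (hC.sub (hC.comp (cont_upd z 0))).norm.pow 2
  have hint : ∀ z, Integrable (fun V => ‖Ga X y V - Ga X y (Function.update V z 0)‖ ^ 2)
      (PP (T d L) ν) := fun z =>
    Integrable.of_bound (C := 4 * (c⁻¹) ^ 2) (hcont z).aestronglyMeasurable
      (Filter.Eventually.of_forall fun V => by
        rw [Real.norm_eq_abs, abs_of_nonneg (by positivity)]; exact hb V z)
  rw [← integral_finsetSum _ fun z _ => hint z]
  have hpt : ∀ V, ∑ z, ‖Ga X y V - Ga X y (Function.update V z 0)‖ ^ 2 ≤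
      4 * β ^ 2 * F + 4 * NN d L * (c⁻¹) ^ 2 * (G₀ᶜ).indicator 1 V := by
    intro V
    by_cases hVG : V ∈ G₀
    · rw [Set.indicator_of_notMem (by simpa using hVG), mul_zero, add_zero]
      have h5 : ∀ z, ‖Ga X y V - Ga X y (Function.update V z 0)‖ ^ 2 ≤
          2 * β ^ 2 * (‖pv (GX X (Function.update V y 0) *ᵥ av y) z‖ ^ 4 +
            ‖pv (GX X (Function.update V y 0) *ᵥ av z) y‖ ^ 4) := by
        intro z
        by_cases hz : z = y
        · subst hz
          rw [indep_Ga, sub_self, norm_zero, zero_pow two_ne_zero]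
          positivity
        · rw [diff_Ga hc hX V hz, norm_mul, norm_neg, Complex.norm_real, Real.norm_eq_abs,
            norm_mul, norm_mul]
          have h6 := hV V hVG z
          set A := ‖pv (GX X (Function.update V y 0) *ᵥ av z) y‖ with hA
          set B := ‖pv (GX X (Function.update V y 0) *ᵥ av y) z‖ with hB
          have hA0 : 0 ≤ A := norm_nonneg _
          have hB0 : 0 ≤ B := norm_nonneg _
          have h7 : ‖(1 : ℂ) + V z * pv (GX X (Function.update (Function.update V y 0) z 0) *ᵥ av z) z‖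
              ≤ 2 := by
            refine (norm_add_le _ _).trans ?_
            rw [norm_one, norm_mul, Complex.norm_real, Real.norm_eq_abs]
            have h8 : |V z| * ‖pv (GX X (Function.update (Function.update V y 0) z 0) *ᵥ av z) z‖
                ≤ β * r₁ := mul_le_mul h6 (h1 V hVG z) (norm_nonneg _) hβ
            linarith
          have h9 : |V z| * (A * (‖(1 : ℂ) + V z *
              pv (GX X (Function.update (Function.update V y 0) z 0) *ᵥ av z) z‖ * B)) ≤
              β * (A * (2 * B)) := by gcongr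
          have h10 : (|V z| * (A * (‖(1 : ℂ) + V z *
              pv (GX X (Function.update (Function.update V y 0) z 0) *ᵥ av z) z‖ * B))) ^ 2 ≤
              (β * (A * (2 * B))) ^ 2 := pow_le_pow_left₀ (by positivity) h9 2
          refine h10.trans ?_
          have h11 : 0 ≤ 2 * β ^ 2 * (A ^ 2 - B ^ 2) ^ 2 := by positivity
          nlinarith
      calc ∑ z, ‖Ga X y V - Ga X y (Function.update V z 0)‖ ^ 2
          ≤ ∑ z, 2 * β ^ 2 * (‖pv (GX X (Function.update V y 0) *ᵥ av y) z‖ ^ 4 +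
            ‖pv (GX X (Function.update V y 0) *ᵥ av z) y‖ ^ 4) := Finset.sum_le_sum fun z _ => h5 z
        _ = 2 * β ^ 2 * (∑ z, ‖pv (GX X (Function.update V y 0) *ᵥ av y) z‖ ^ 4 +
            ∑ z, ‖pv (GX X (Function.update V y 0) *ᵥ av z) y‖ ^ 4) := by
          rw [← Finset.mul_sum, Finset.sum_add_distrib]
        _ ≤ 2 * β ^ 2 * (F + F) := by
          have := h2 V hVG
          have := h3 V hVG
          gcongr
        _ = _ := by ring
    · rw [Set.indicator_of_mem (by simpa using hVG)]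
      have h12 : ∑ z, ‖Ga X y V - Ga X y (Function.update V z 0)‖ ^ 2 ≤
          4 * NN d L * (c⁻¹) ^ 2 := by
        calc _ ≤ ∑ _z : T d L, 4 * (c⁻¹) ^ 2 := Finset.sum_le_sum fun z _ => hb V z
          _ = _ := by
            rw [Finset.sum_const, Finset.card_univ, nsmul_eq_mul, card_T]; ring
      rw [Pi.one_apply, mul_one]
      have : 0 ≤ 4 * β ^ 2 * F := by positivity
      linarith
  have hi1 : Integrable ((G₀ᶜ).indicator (1 : (T d L → ℝ) → ℝ)) (PP (T d L) ν) :=
    (integrable_const (1 : ℝ)).indicator hG.compl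
  calc ∫ V, ∑ z, ‖Ga X y V - Ga X y (Function.update V z 0)‖ ^ 2 ∂(PP (T d L) ν)
      ≤ ∫ V, (4 * β ^ 2 * F + 4 * NN d L * (c⁻¹) ^ 2 * (G₀ᶜ).indicator 1 V) ∂(PP (T d L) ν) :=
        integral_mono (integrable_finsetSum _ fun z _ => hint z)
          ((integrable_const _).add (hi1.const_mul _)) hpt
    _ = _ := by
      rw [integral_add (integrable_const _) (hi1.const_mul _), integral_const, integral_const_mul,
        integral_indicator_one hG.compl]
      simp

/-- the mean of the Green function at a site -/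
theorem mean_Ga (hc : 0 < c) (hX : ∀ k, (X k).im ≤ -c) (ν : Measure ℝ) [IsProbabilityMeasure ν]
    {β r₁ : ℝ} (hβ : 0 ≤ β) (hr : 0 ≤ r₁) (y : T d L) {G₀ : Set (T d L → ℝ)}
    (hG : MeasurableSet G₀) (hV : ∀ V ∈ G₀, ∀ z, |V z| ≤ β)
    (h1 : ∀ V ∈ G₀, ‖pv (GX X V *ᵥ av y) y‖ ≤ r₁)
    (h2 : ∀ V ∈ G₀, ‖Ga X y V‖ ≤ r₁) :
    ‖∫ U, Ga X y U ∂(PP (T d L) ν) - (((NN d L)⁻¹ : ℝ) : ℂ) * ∑ k, gm ν X k‖ ≤
      β * r₁ ^ 2 + 2 * c⁻¹ * (PP (T d L) ν).real G₀ᶜ := by
  rw [← int_site hc hX ν y]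
  have hc0 : 0 ≤ c⁻¹ := (inv_pos.2 hc).le
  have hb1 : ∀ V, ‖pv (GX X V *ᵥ av y) y‖ ≤ c⁻¹ := fun V => by
    have h := pv_bd hc hX V (av y) y
    rwa [nsq_av, Real.sqrt_one, mul_one] at h
  have i1 : Integrable (fun V => Ga X y V) (PP (T d L) ν) :=
    Integrable.of_bound (C := c⁻¹) (cont_Ga hc hX y).aestronglyMeasurable
      (Filter.Eventually.of_forall fun V => Ga_bd hc hX y V)
  have i2 : Integrable (fun V => pv (GX X V *ᵥ av y) y) (PP (T d L) ν) :=
    Integrable.of_bound (C := c⁻¹) (cont_pv hc hX (av y) y).aestronglyMeasurable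
      (Filter.Eventually.of_forall hb1)
  rw [← integral_sub i1 i2]
  refine (norm_integral_le_integral_norm _).trans ?_
  have hi1 : Integrable ((G₀ᶜ).indicator (1 : (T d L → ℝ) → ℝ)) (PP (T d L) ν) :=
    (integrable_const (1 : ℝ)).indicator hG.compl
  have hpt : ∀ V, ‖Ga X y V - pv (GX X V *ᵥ av y) y‖ ≤
      β * r₁ ^ 2 + 2 * c⁻¹ * (G₀ᶜ).indicator 1 V := by
    intro V
    by_cases hVG : V ∈ G₀
    · rw [Set.indicator_of_notMem (by simpa using hVG), mul_zero, add_zero]
      have h3 := (pv_update hc hX V y y (av y)).2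
      have h4 : Ga X y V - pv (GX X V *ᵥ av y) y = V y * (Ga X y V * pv (GX X V *ᵥ av y) y) := by
        unfold Ga
        linear_combination -h3
      rw [h4, norm_mul, norm_mul, Complex.norm_real, Real.norm_eq_abs]
      have h5 := hV V hVG y
      have h6 := h1 V hVG
      have h7 := h2 V hVG
      calc |V y| * (‖Ga X y V‖ * ‖pv (GX X V *ᵥ av y) y‖) ≤ β * (r₁ * r₁) := by gcongr
        _ = _ := by ring
    · rw [Set.indicator_of_mem (by simpa using hVG), Pi.one_apply, mul_one]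
      have h8 := Ga_bd hc hX y V
      have h9 := hb1 V
      have h10 : 0 ≤ β * r₁ ^ 2 := by positivity
      exact (norm_sub_le _ _).trans (by linarith)
  calc ∫ V, ‖Ga X y V - pv (GX X V *ᵥ av y) y‖ ∂(PP (T d L) ν)
      ≤ ∫ V, (β * r₁ ^ 2 + 2 * c⁻¹ * (G₀ᶜ).indicator 1 V) ∂(PP (T d L) ν) :=
        integral_mono (i1.sub i2).norm ((integrable_const _).add (hi1.const_mul _)) hpt
    _ = _ := by
      rw [integral_add (integrable_const _) (hi1.const_mul _), integral_const, integral_const_mul,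
        integral_indicator_one hG.compl]
      simp

end inv

end Pool.Agent.Run7.h442.BA
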